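import Pool.Agent.H51.SU.Defs

/-!
# Module ASRI: approach systems at all points imply the insertion property

Proof. Let `F`, `U` be given as in `RIn univ` (`F i` closed, `U i` open, `IPI univ U`). Let
`τ x = ⋂ {U i : x ∈ U i}` (`tnet_of_ipi`), `τF i = ⋃ y ∈ F i, τ y` (open, `F i ⊆ τF i ⊆ U i`),
`R i = (τF i)ᶜ` (closed). For `N ∈ D.net n` let `L N = Mt τ N` (closed).
(1) If `L N` meets `R i` then `L N ⊆ R i`: if `w ∈ L N` and `w ∈ τ y`, `y ∈ F i`, then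
    `N ⊆ τ w ⊆ τ y ⊆ τF i`.
(2) For `N ∈ D.net n` let `G = D.V n N ∩ ⋃ y ∈ L N, D.g n y` (open, contains `L N`),
    `Q = D.Q (L N) G` (closed, `L N ⊆ interior Q`, `Q ⊆ G`), and apply
    `D.exists_kernel` with `L = L N`, `F = Q`, `G = G`, `A = interior Q \ L N`: this gives a set
    `K` (depending on `n`, `N`) and closed sets `B d`, `d ∈ interior (B d)`, `B d ⊆ G`, such that
    every `z ∉ L N` has an open neighbourhood meeting only finitely many `B d`, `d ∈ K`, and every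
    `y ∈ L N` with `y ∉ interior (L N)` is in `closure K` (compare the lemma `exists_K` in
    `Pool.Agent.H51.CI.Sys`, which is the same with `D.L C N` in place of `L N`).
(3) Let `Pd d` be the operator of `AS d`. Define
    `P i = R i ∪ ⋃ {Pd d ((F i)ᶜ ∩ interior (B n N d)) : N ∈ D.net n, (L N).Nonempty, L N ⊆ R i,
    d ∈ K n N, d ∉ F i}` and `W i = (P i)ᶜ`.
(4) `F i ⊆ W i ⊆ U i`: `R i` and the sets `Pd d (..) ⊆ (F i)ᶜ` are disjoint from `F i`;
    `(U i)ᶜ ⊆ R i`.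
(5) Every `x ∈ P i` is in `closure (interior (P i))`: clear for `x ∈ Pd d (..)` (regular closed
    subset of `P i`). If `x ∈ R i`: `x ∈ L N` for some `N ∈ D.net n` (`exists_Mt`), `L N ⊆ R i` by
    (1). If `x ∈ interior (L N)`, done. Otherwise `x ∈ closure (K n N)`, and as `x ∉ F i`, `F i`
    closed, `x ∈ closure (K n N \ F i)`, and each `d ∈ K n N \ F i` is in
    `Pd d (..) ⊆ closure (interior (P i))`.
(6) For every `z` there is an open `O ∋ z` with `O ⊆ W i` for all `i` with `z ∈ W i` (this gives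
    `IPI univ W`, `RelO univ (W i)`): let `z` be given. `D.g_spec (τ z)ᶜ z` gives `n₀` and
    `O₀ ∋ z` with `Disjoint (D.g m y) O₀` for `y ∉ τ z`, `m ≥ n₀`. For each `n < n₀` let `O n ∋ z` be
    open and meet at most one `D.V n N` (`V_disc`), say for `N = N n` (if any); if `z ∉ L (N n)`
    let `O' n ∋ z` be open and meet only finitely many `B n (N n) d`, `d ∈ K n (N n)`, and for each
    of these `d` let `O'' n d ∋ z` be the neighbourhood from `AS d` (so `z ∉ Pd d V` implies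
    `Disjoint (Pd d V) (O'' n d)` for all open `V ∋ d`). `O` is the intersection of `τ z`, `O₀` and
    all these (finitely many) sets. Let `z ∈ W i`, i.e. `z ∉ P i`. Then `z ∈ τF i`, so
    `τ z ⊆ τF i` and `O ∩ R i = ∅`. Consider a piece `Pd d V ⊆ B n N d` of `P i`,
    `V = (F i)ᶜ ∩ interior (B n N d)`. As `L N ⊆ R i`, `L N` is disjoint from `τ z`; so if
    `n ≥ n₀` then `B n N d ⊆ ⋃ y ∈ L N, D.g n y` is disjoint from `O₀`. If `n < n₀` and the piece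
    meets `O ⊆ O n` then `N = N n`, `z ∉ L N` (as `z ∉ R i`), `d` is one of the finitely many
    points, and `z ∉ Pd d V` gives disjointness from `O'' n d`. So `O ∩ P i = ∅`.
(7) `RegIn univ (W i)`: `x ∉ W i` means `x ∈ P i`, by (5) every open `O ∋ x` contains
    `y ∈ interior (P i)`, and `y ∉ closure (W i)`.
-/

set_option autoImplicit false
open Topology Set

namespace Pool.Agent.H51.SU

open Pool.Agent.H51.CI

universe u

private lemma exists_KN {X : Type u} [TopologicalSpace X] [T1Space X] (D : Strat X)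
    {τ : X → Set X} (hτ : TNet τ) (n : ℕ) (N : Set X) (hN : N ∈ D.net n) :
    ∃ (K : Set X) (B : X → Set X),
      (∀ d ∈ K, IsClosed (B d) ∧ d ∈ interior (B d) ∧ B d ⊆ D.V n N ∧
        B d ⊆ ⋃ y ∈ Mt τ N, D.g n y) ∧
      (∀ z ∉ Mt τ N, ∃ O, IsOpen O ∧ z ∈ O ∧ {d | d ∈ K ∧ (B d ∩ O).Nonempty}.Finite) ∧
      (∀ y ∈ Mt τ N, y ∉ interior (Mt τ N) → y ∈ closure K) := by
  set L : Set X := Mt τ N with hL
  have hLc : IsClosed L := isClosed_Mt hτ (D.net_closed n N hN)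
  set G : Set X := D.V n N ∩ ⋃ y ∈ L, D.g n y with hG
  have hGo : IsOpen G := (D.V_open n N hN).inter (isOpen_biUnion fun y _ => D.g_open n y)
  have hLG : L ⊆ G := fun y hy => ⟨Mt_subset_V D τ hN hy, mem_iUnion₂.2 ⟨y, hy, D.g_self n y⟩⟩
  have hFc : IsClosed (D.Q L G) := D.isClosed_Q hLc hLG
  have hLF : L ⊆ interior (D.Q L G) := D.subset_interior_Q hLc hGo hLG
  obtain ⟨K, B, h1, h2, h3, h4⟩ := D.exists_kernel (L := L) (F := D.Q L G) (G := G)
    (A := interior (D.Q L G) \ L) hLc disjoint_sdiff_left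
    (sdiff_subset.trans interior_subset) hFc (D.Q_subset hLc hLG) hGo
  refine ⟨K, B, fun d hd => ?_, h3, fun y hy hyi => h4 ⟨hy, ?_⟩⟩
  · obtain ⟨a, b, c⟩ := h2 d hd
    exact ⟨a, b, fun x hx => (c hx).1.1, fun x hx => (c hx).1.2⟩
  · rw [mem_closure_iff]
    intro O hO hyO
    by_contra hemp
    rw [not_nonempty_iff_eq_empty] at hemp
    refine hyi (mem_interior.2 ⟨O ∩ interior (D.Q L G), fun x hx => ?_, hO.inter isOpen_interior,
      hyO, hLF hy⟩)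
    by_contra hxL
    have : x ∈ O ∩ (interior (D.Q L G) \ L) := ⟨hx.1, hx.2, hxL⟩
    rw [hemp] at this
    exact this

theorem rIn_of_as {X : Type u} [TopologicalSpace X] [T1Space X] (D : Strat X)
    (h : ∀ e : X, AS e) : RIn (univ : Set X) := by
  classical
  intro ι F U hF hU hFU hIPI
  have hFc : ∀ i, IsClosed (F i) := fun i => isClosed_of_relC_univ (hF i)
  set τ : X → Set X := fun x => ⋂ i ∈ {i | x ∈ U i}, U i with hτd
  have hτ : TNet τ := tnet_of_ipi hIPI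
  have hτU : ∀ x i, x ∈ U i → τ x ⊆ U i := fun x i hi y hy => mem_iInter₂.1 hy i hi
  set τF : ι → Set X := fun i => ⋃ y ∈ F i, τ y with hτF
  have hFτF : ∀ i, F i ⊆ τF i := fun i x hx => mem_iUnion₂.2 ⟨x, hx, hτ.self x⟩
  have hτFU : ∀ i, τF i ⊆ U i := fun i => iUnion₂_subset fun y hy => hτU y i (hFU i hy)
  have hτFt : ∀ i, ∀ x ∈ τF i, τ x ⊆ τF i := by
    intro i x hx z hz
    obtain ⟨y, hy, hxy⟩ := mem_iUnion₂.1 hx
    exact mem_iUnion₂.2 ⟨y, hy, hτ.trans y x hxy hz⟩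
  have hMt : ∀ i N, (Mt τ N ∩ (τF i)ᶜ).Nonempty → Mt τ N ⊆ (τF i)ᶜ := by
    rintro i N ⟨w', hw', hw'2⟩ w hw hwF
    exact hw'2 (hτFt i w hwF (hw.2 hw'.1))
  have hK : ∀ n N, ∃ (K : Set X) (B : X → Set X), N ∈ D.net n →
      ((∀ d ∈ K, IsClosed (B d) ∧ d ∈ interior (B d) ∧ B d ⊆ D.V n N ∧
        B d ⊆ ⋃ y ∈ Mt τ N, D.g n y) ∧
      (∀ z ∉ Mt τ N, ∃ O, IsOpen O ∧ z ∈ O ∧ {d | d ∈ K ∧ (B d ∩ O).Nonempty}.Finite) ∧
      (∀ y ∈ Mt τ N, y ∉ interior (Mt τ N) → y ∈ closure K)) := by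
    intro n N
    by_cases hN : N ∈ D.net n
    · obtain ⟨K, B, h1⟩ := exists_KN D hτ n N hN
      exact ⟨K, B, fun _ => h1⟩
    · exact ⟨∅, fun _ => ∅, fun h => absurd h hN⟩
  choose K B hKB using hK
  choose Pd hPd1 hPd2 using h
  have hVo : ∀ i n N d, IsOpen ((F i)ᶜ ∩ interior (B n N d)) := fun i n N d =>
    (hFc i).isOpen_compl.inter isOpen_interior
  set P : ι → Set X := fun i => {x | x ∉ τF i ∨ ∃ n, ∃ N ∈ D.net n, Mt τ N ⊆ (τF i)ᶜ ∧
    ∃ d ∈ K n N, d ∉ F i ∧ x ∈ Pd d ((F i)ᶜ ∩ interior (B n N d))} with hP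
  have hdV : ∀ i n N, N ∈ D.net n → ∀ d ∈ K n N, d ∉ F i → d ∈ (F i)ᶜ ∩ interior (B n N d) :=
    fun i n N hN d hd hdF => ⟨hdF, ((hKB n N hN).1 d hd).2.1⟩
  have hPdsub : ∀ i n N, N ∈ D.net n → ∀ d ∈ K n N, d ∉ F i →
      Pd d ((F i)ᶜ ∩ interior (B n N d)) ⊆ (F i)ᶜ ∩ interior (B n N d) :=
    fun i n N hN d hd hdF => (hPd1 d _ (hVo i n N d) (hdV i n N hN d hd hdF)).2.1
  have h5a : ∀ i n N, N ∈ D.net n → Mt τ N ⊆ (τF i)ᶜ → ∀ d ∈ K n N, d ∉ F i →
      Pd d ((F i)ᶜ ∩ interior (B n N d)) ⊆ closure (interior (P i)) := by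
    intro i n N hN hMN d hd hdF
    rw [← (hPd1 d _ (hVo i n N d) (hdV i n N hN d hd hdF)).2.2]
    refine closure_mono (interior_mono fun x hx => ?_)
    exact Or.inr ⟨n, N, hN, hMN, d, hd, hdF, hx⟩
  have h5 : ∀ i, P i ⊆ closure (interior (P i)) := by
    intro i x hx
    rcases hx with hx | ⟨n, N, hN, hMN, d, hd, hdF, hx⟩
    · obtain ⟨n, N, hN, hxM⟩ := exists_Mt D hτ x
      have hMN : Mt τ N ⊆ (τF i)ᶜ := hMt i N ⟨x, hxM, hx⟩
      have hxF : x ∉ F i := fun hc => hx (hFτF i hc)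
      by_cases hxi : x ∈ interior (Mt τ N)
      · refine subset_closure (interior_mono (fun y hy => Or.inl (hMN hy)) hxi)
      · have hxK := (hKB n N hN).2.2 x hxM hxi
        have hsub : K n N ∩ (F i)ᶜ ⊆ closure (interior (P i)) := by
          rintro d ⟨hd, hdF⟩
          exact h5a i n N hN hMN d hd hdF
            (hPd1 d _ (hVo i n N d) (hdV i n N hN d hd hdF)).1
        refine closure_minimal hsub isClosed_closure ?_
        rw [mem_closure_iff]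
        intro O hO hxO
        obtain ⟨y, hy, hyK⟩ := mem_closure_iff.1 hxK (O ∩ (F i)ᶜ)
          (hO.inter (hFc i).isOpen_compl) ⟨hxO, hxF⟩
        exact ⟨y, hy.1, hyK, hy.2⟩
    · exact h5a i n N hN hMN d hd hdF hx
  have hclaim : ∀ (z : X) (n : ℕ), ∃ O', IsOpen O' ∧ z ∈ O' ∧ ∀ i, z ∉ P i → ∀ N ∈ D.net n,
      Mt τ N ⊆ (τF i)ᶜ → ∀ d ∈ K n N, d ∉ F i →
        Disjoint (Pd d ((F i)ᶜ ∩ interior (B n N d))) O' := by
    intro z n
    obtain ⟨On, hOn, hzOn, hdisc⟩ := D.V_disc n z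
    have hPV : ∀ i N, N ∈ D.net n → ∀ d ∈ K n N, d ∉ F i → ∀ x ∈ Pd d ((F i)ᶜ ∩
        interior (B n N d)), x ∈ B n N d ∧ x ∈ D.V n N := by
      intro i N hN d hd hdF x hx
      have h1 := interior_subset (hPdsub i n N hN d hd hdF hx).2
      exact ⟨h1, ((hKB n N hN).1 d hd).2.2.1 h1⟩
    by_cases hex : ∃ N₀ ∈ D.net n, (D.V n N₀ ∩ On).Nonempty
    · obtain ⟨N₀, hN₀, hne⟩ := hex
      by_cases hzL : z ∈ Mt τ N₀
      · refine ⟨On, hOn, hzOn, fun i hzP N hN hMN d hd hdF => ?_⟩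
        rw [disjoint_left]
        intro x hx hxO
        obtain ⟨_, hxV⟩ := hPV i N hN d hd hdF x hx
        have hNN : N = N₀ := hdisc N hN N₀ hN₀ ⟨x, hxV, hxO⟩ hne
        subst hNN
        exact hzP (Or.inl (hMN hzL))
      · obtain ⟨O1, hO1, hzO1, hfin⟩ := (hKB n N₀ hN₀).2.1 z hzL
        choose Oas hOas1 hOas2 hOas3 using fun d => hPd2 d z
        refine ⟨On ∩ (O1 ∩ ⋂ d ∈ {d | d ∈ K n N₀ ∧ (B n N₀ d ∩ O1).Nonempty}, Oas d),
          hOn.inter (hO1.inter (hfin.isOpen_biInter fun d _ => hOas1 d)),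
          ⟨hzOn, hzO1, mem_iInter₂.2 fun d _ => hOas2 d⟩, fun i hzP N hN hMN d hd hdF => ?_⟩
        rw [disjoint_left]
        rintro x hx ⟨hxO, hxO1, hxO2⟩
        obtain ⟨hxB, hxV⟩ := hPV i N hN d hd hdF x hx
        have hNN : N = N₀ := hdisc N hN N₀ hN₀ ⟨x, hxV, hxO⟩ hne
        subst hNN
        have hzPd : z ∉ Pd d ((F i)ᶜ ∩ interior (B n N d)) := fun hc =>
          hzP (Or.inr ⟨n, N, hN, hMN, d, hd, hdF, hc⟩)
        have h1 := hOas3 d _ (hVo i n N d) (hdV i n N hN d hd hdF) hzPd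
        exact disjoint_left.1 h1 hx (mem_iInter₂.1 hxO2 d ⟨hd, x, hxB, hxO1⟩)
    · refine ⟨On, hOn, hzOn, fun i hzP N hN hMN d hd hdF => ?_⟩
      rw [disjoint_left]
      intro x hx hxO
      obtain ⟨_, hxV⟩ := hPV i N hN d hd hdF x hx
      exact hex ⟨N, hN, x, hxV, hxO⟩
  have h6 : ∀ z, ∃ O, IsOpen O ∧ z ∈ O ∧ ∀ i, z ∈ (P i)ᶜ → O ⊆ (P i)ᶜ := by
    intro z
    obtain ⟨n₀, O₀, hO₀, hzO₀, hg⟩ := D.g_spec (τ z)ᶜ z (hτ.isOpen z).isClosed_compl
      (fun hc => hc (hτ.self z))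
    choose O' hO'1 hO'2 hO'3 using hclaim z
    refine ⟨τ z ∩ (O₀ ∩ ⋂ n ∈ Finset.range n₀, O' n), (hτ.isOpen z).inter (hO₀.inter
      (isOpen_biInter_finset fun n _ => hO'1 n)), ⟨hτ.self z, hzO₀,
        mem_iInter₂.2 fun n _ => hO'2 n⟩, fun i hzP x hx hxP => ?_⟩
    have hzτF : z ∈ τF i := by
      by_contra hc
      exact hzP (Or.inl hc)
    rcases hxP with hxP | ⟨n, N, hN, hMN, d, hd, hdF, hxPd⟩
    · exact hxP (hτFt i z hzτF hx.1)
    · by_cases hn : n < n₀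
      · have h1 := hO'3 n i hzP N hN hMN d hd hdF
        exact disjoint_left.1 h1 hxPd (mem_iInter₂.1 hx.2.2 n (Finset.mem_range.2 hn))
      · have h1 := interior_subset (hPdsub i n N hN d hd hdF hxPd).2
        have h2 := ((hKB n N hN).1 d hd).2.2.2 h1
        obtain ⟨y, hy, hxy⟩ := mem_iUnion₂.1 h2
        have hyτ : y ∈ (τ z)ᶜ := fun hc => hMN hy (hτFt i z hzτF hc)
        exact disjoint_left.1 (hg y hyτ n (not_lt.1 hn)) hxy hx.2.1
  refine ⟨fun i => (P i)ᶜ, fun i => ⟨?_, ?_, ?_, ?_⟩, ?_⟩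
  · refine relO_of_forall (subset_univ _) fun z hz => ?_
    obtain ⟨O, hO, hzO, h1⟩ := h6 z
    exact ⟨O, hO, hzO, inter_subset_left.trans (h1 i hz)⟩
  · rintro x hx (hxP | ⟨n, N, hN, hMN, d, hd, hdF, hxPd⟩)
    · exact hxP (hFτF i hx)
    · exact (hPdsub i n N hN d hd hdF hxPd).1 hx
  · intro x hx
    by_contra hc
    exact hx (Or.inl fun hc' => hc (hτFU i hc'))
  · intro x _ hx O hO hxO
    have hxP : x ∈ P i := by
      by_contra hc
      exact hx hc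
    obtain ⟨y, hyO, hyi⟩ := mem_closure_iff.1 (h5 i hxP) O hO hxO
    refine ⟨y, hyO, mem_univ y, fun hy => ?_⟩
    obtain ⟨w, hw, hwP⟩ := mem_closure_iff.1 hy (interior (P i)) isOpen_interior hyi
    exact hwP (interior_subset hw)
  · intro z _
    obtain ⟨O, hO, hzO, h1⟩ := h6 z
    exact ⟨O, hO, hzO, fun i hi => inter_subset_left.trans (h1 i hi)⟩

end Pool.Agent.H51.SU
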