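import Pool.Agent.H51.CI.Final

/-!
# Sums of M₁-spaces: definitions and basic lemmas

`RelO G W`, `RelC G F`: relatively open / closed subsets of `G`.
`RegIn G W`: `W` is a regular open subset of `G` (for `W` relatively open in `G`).
`IPI G U`: the family `U` is interior-preserving in `G`.
`RIn G`: the insertion property of the subspace `G`: interior-preserving families of pairs
`F i ⊆ U i` (closed, open) admit an interior-preserving family `W i` of regular open sets with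
`F i ⊆ W i ⊆ U i`.
`AS e`: the point `e` has a closure-preserving local network of regular closed sets.
`TNet τ`: transitive neighbornets. `Mt τ N`: the class of `N`. `Lev D τ k`: the levels.
-/

set_option autoImplicit false
open Topology Set

namespace Pool.Agent.H51.SU

open Pool.Agent.H51.CI

universe u

/-- Relatively open sets. -/
def RelO {X : Type*} [TopologicalSpace X] (G W : Set X) : Prop := ∃ O, IsOpen O ∧ W = O ∩ G

/-- Relatively closed sets. -/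
def RelC {X : Type*} [TopologicalSpace X] (G F : Set X) : Prop := ∃ A, IsClosed A ∧ F = A ∩ G

/-- Regular open relative to `G`. -/
def RegIn {X : Type*} [TopologicalSpace X] (G W : Set X) : Prop :=
  ∀ x ∈ G, x ∉ W → ∀ O, IsOpen O → x ∈ O → ∃ y ∈ O, y ∈ G ∧ y ∉ closure W

/-- Interior-preserving families relative to `G`. -/
def IPI {X ι : Type*} [TopologicalSpace X] (G : Set X) (U : ι → Set X) : Prop :=
  ∀ z ∈ G, ∃ O, IsOpen O ∧ z ∈ O ∧ ∀ i, z ∈ U i → O ∩ G ⊆ U i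

/-- The insertion property of the subspace `G`. -/
def RIn {X : Type u} [TopologicalSpace X] (G : Set X) : Prop :=
  ∀ (ι : Type u) (F U : ι → Set X), (∀ i, RelC G (F i)) → (∀ i, RelO G (U i)) →
    (∀ i, F i ⊆ U i) → IPI G U →
    ∃ W : ι → Set X, (∀ i, RelO G (W i) ∧ F i ⊆ W i ∧ W i ⊆ U i ∧ RegIn G (W i)) ∧ IPI G W

/-- The point `e` has a closure-preserving local network of regular closed sets. -/
def AS {X : Type*} [TopologicalSpace X] (e : X) : Prop :=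
  ∃ P : Set X → Set X,
    (∀ U, IsOpen U → e ∈ U → e ∈ P U ∧ P U ⊆ U ∧ closure (interior (P U)) = P U) ∧
    ∀ z, ∃ O, IsOpen O ∧ z ∈ O ∧ ∀ U, IsOpen U → e ∈ U → z ∉ P U → Disjoint (P U) O

/-- Transitive neighbornets. -/
structure TNet {X : Type*} [TopologicalSpace X] (τ : X → Set X) : Prop where
  isOpen : ∀ x, IsOpen (τ x)
  self : ∀ x, x ∈ τ x
  trans : ∀ x, ∀ y ∈ τ x, τ y ⊆ τ x

/-- The class of `N`. -/
def Mt {X : Type*} (τ : X → Set X) (N : Set X) : Set X := {x | x ∈ N ∧ N ⊆ τ x}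

/-- The levels. -/
def Lev {X : Type*} [TopologicalSpace X] (D : Strat X) (τ : X → Set X) (k : ℕ) : Set X :=
  {x | ∃ n ≤ k, ∃ N ∈ D.net n, x ∈ Mt τ N}

section basic

variable {X : Type*} [TopologicalSpace X]

lemma RelO.subset {G W : Set X} (h : RelO G W) : W ⊆ G := by
  obtain ⟨O, _, rfl⟩ := h
  exact inter_subset_right

lemma RelC.subset {G F : Set X} (h : RelC G F) : F ⊆ G := by
  obtain ⟨A, _, rfl⟩ := h
  exact inter_subset_right

/-- Criterion for relatively open sets. -/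
lemma relO_of_forall {G W : Set X} (h : W ⊆ G)
    (h' : ∀ z ∈ W, ∃ O, IsOpen O ∧ z ∈ O ∧ O ∩ G ⊆ W) : RelO G W := by
  choose! O hO hz hOW using h'
  refine ⟨⋃ z ∈ W, O z, isOpen_biUnion fun z hz' => hO z hz', Subset.antisymm (fun z hz' =>
    ⟨mem_iUnion₂.2 ⟨z, hz', hz z hz'⟩, h hz'⟩) ?_⟩
  rintro x ⟨hx, hxG⟩
  obtain ⟨z, hz', hxz⟩ := mem_iUnion₂.1 hx
  exact hOW z hz' ⟨hxz, hxG⟩

/-- Criterion for relatively closed sets. -/
lemma relC_of_forall {G F : Set X} (h : F ⊆ G)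
    (h' : ∀ z ∈ G, z ∉ F → ∃ O, IsOpen O ∧ z ∈ O ∧ Disjoint F O) : RelC G F := by
  refine ⟨closure F, isClosed_closure, Subset.antisymm (fun z hz => ⟨subset_closure hz, h hz⟩) ?_⟩
  rintro z ⟨hz, hzG⟩
  by_contra hzF
  obtain ⟨O, hO, hzO, hd⟩ := h' z hzG hzF
  obtain ⟨y, hy, hyF⟩ := mem_closure_iff.1 hz O hO hzO
  exact disjoint_left.1 hd hyF hy

lemma RelC.notMem_closure {G F : Set X} (h : RelC G F) {z : X} (hz : z ∈ G) (hzF : z ∉ F) :
    z ∉ closure F := by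
  obtain ⟨A, hA, rfl⟩ := h
  exact fun hc => hzF ⟨closure_minimal inter_subset_left hA hc, hz⟩

lemma RelC.inter {G F F' : Set X} (h : RelC G F) (h' : RelC G F') : RelC G (F ∩ F') := by
  obtain ⟨A, hA, rfl⟩ := h
  obtain ⟨A', hA', rfl⟩ := h'
  exact ⟨A ∩ A', hA.inter hA', by ext; simp only [mem_inter_iff]; tauto⟩

lemma RelC.union {G F F' : Set X} (h : RelC G F) (h' : RelC G F') : RelC G (F ∪ F') := by
  obtain ⟨A, hA, rfl⟩ := h
  obtain ⟨A', hA', rfl⟩ := h'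
  exact ⟨A ∪ A', hA.union hA', by ext; simp only [mem_inter_iff, mem_union]; tauto⟩

lemma relC_of_isClosed {G F : Set X} (h : IsClosed F) : RelC G (F ∩ G) := ⟨F, h, rfl⟩

lemma relO_of_isOpen {G W : Set X} (h : IsOpen W) : RelO G (W ∩ G) := ⟨W, h, rfl⟩

lemma isClosed_of_relC_univ {F : Set X} (h : RelC univ F) : IsClosed F := by
  obtain ⟨A, hA, rfl⟩ := h
  rwa [inter_univ]

lemma isOpen_of_relO_univ {F : Set X} (h : RelO univ F) : IsOpen F := by
  obtain ⟨A, hA, rfl⟩ := h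
  rwa [inter_univ]

/-- An interior-preserving family of open sets gives a transitive neighbornet. -/
lemma tnet_of_ipi {ι : Type*} {U : ι → Set X} (h : IPI univ U) :
    TNet (fun x => ⋂ i ∈ {i | x ∈ U i}, U i) := by
  refine ⟨fun x => ?_, fun x => mem_iInter₂.2 fun i hi => hi, fun x y hy z hz => ?_⟩
  · rw [isOpen_iff_mem_nhds]
    intro y hy
    obtain ⟨O, hO, hyO, h'⟩ := h y (mem_univ y)
    refine Filter.mem_of_superset (hO.mem_nhds hyO) fun w hw => mem_iInter₂.2 fun i hi => ?_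
    exact h' i (mem_iInter₂.1 hy i hi) ⟨hw, mem_univ w⟩
  · exact mem_iInter₂.2 fun i hi => mem_iInter₂.1 hz i (mem_iInter₂.1 hy i hi)

/-- Closedness of the classes. -/
lemma isClosed_Mt {τ : X → Set X} (hτ : TNet τ) {N : Set X} (hN : IsClosed N) :
    IsClosed (Mt τ N) := by
  refine isClosed_of_closure_subset fun z hz => ?_
  have hzN : z ∈ N := closure_minimal (fun x hx => hx.1) hN hz
  obtain ⟨y, hy, hyM⟩ := mem_closure_iff.1 hz (τ z) (hτ.isOpen z) (hτ.self z)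
  exact ⟨hzN, hyM.2.trans (hτ.trans z y hy)⟩

lemma Mt_const {τ : X → Set X} (hτ : TNet τ) {N : Set X} {x y : X} (hx : x ∈ Mt τ N)
    (hy : y ∈ Mt τ N) : τ x = τ y :=
  Subset.antisymm (hτ.trans y x (hy.2 hx.1)) (hτ.trans x y (hx.2 hy.1))

lemma exists_Mt (D : Strat X) {τ : X → Set X} (hτ : TNet τ) (x : X) :
    ∃ n, ∃ N ∈ D.net n, x ∈ Mt τ N := by
  obtain ⟨n, N, hN, h1, h2⟩ := D.net_spec x (τ x) (hτ.isOpen x) (hτ.self x)
  exact ⟨n, N, hN, h1, h2⟩

lemma Mt_subset_V (D : Strat X) {n : ℕ} {N : Set X} (τ : X → Set X) (hN : N ∈ D.net n) :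
    Mt τ N ⊆ D.V n N := fun _ hx => D.V_sub n N hN hx.1

/-- Locally finitely many closed sets in the expansion of one discrete family. -/
lemma locFin (D : Strat X) (n : ℕ) (z : X) (F : Set X → Set X)
    (hF : ∀ N ∈ D.net n, IsClosed (F N)) (hsub : ∀ N ∈ D.net n, F N ⊆ D.V n N)
    (hz : ∀ N ∈ D.net n, z ∉ F N) :
    ∃ O, IsOpen O ∧ z ∈ O ∧ ∀ N ∈ D.net n, Disjoint (F N) O := by
  obtain ⟨O, hO, hzO, h⟩ := D.V_disc n z
  by_cases hN : ∃ N₀ ∈ D.net n, (D.V n N₀ ∩ O).Nonempty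
  · obtain ⟨N₀, hN₀, hne⟩ := hN
    refine ⟨O ∩ (F N₀)ᶜ, hO.inter (hF N₀ hN₀).isOpen_compl, ⟨hzO, hz N₀ hN₀⟩, fun N hN => ?_⟩
    rw [disjoint_left]
    rintro x hx ⟨hx1, hx2⟩
    have : N = N₀ := h N hN N₀ hN₀ ⟨x, hsub N hN hx, hx1⟩ hne
    subst this
    exact hx2 hx
  · refine ⟨O, hO, hzO, fun N hN' => ?_⟩
    rw [disjoint_left]
    intro x hx hx1
    exact hN ⟨N, hN', x, hsub N hN' hx, hx1⟩

/-- Unions of closed sets in the expansion of one discrete family are closed. -/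
lemma isClosed_biUnion_net (D : Strat X) (n : ℕ) (F : Set X → Set X)
    (hF : ∀ N ∈ D.net n, IsClosed (F N)) (hsub : ∀ N ∈ D.net n, F N ⊆ D.V n N) :
    IsClosed (⋃ N ∈ D.net n, F N) := by
  rw [← isOpen_compl_iff, isOpen_iff_mem_nhds]
  intro z hz
  obtain ⟨O, hO, hzO, h⟩ := locFin D n z F hF hsub fun N hN hzN => hz (mem_iUnion₂.2 ⟨N, hN, hzN⟩)
  refine Filter.mem_of_superset (hO.mem_nhds hzO) fun x hx hx' => ?_
  obtain ⟨N, hN, hxN⟩ := mem_iUnion₂.1 hx'
  exact disjoint_left.1 (h N hN) hxN hx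

lemma isClosed_Lev (D : Strat X) {τ : X → Set X} (hτ : TNet τ) (k : ℕ) :
    IsClosed (Lev D τ k) := by
  have : Lev D τ k = ⋃ n ∈ Finset.range (k + 1), ⋃ N ∈ D.net n, Mt τ N := by
    ext x
    simp only [Lev, mem_ofPred_eq, mem_iUnion, Finset.mem_range, exists_prop]
    constructor
    · rintro ⟨n, hn, N, hN, hx⟩
      exact ⟨n, by omega, N, hN, hx⟩
    · rintro ⟨n, hn, N, hN, hx⟩
      exact ⟨n, by omega, N, hN, hx⟩
  rw [this]
  exact isClosed_biUnion_finset fun n _ => isClosed_biUnion_net D n _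
    (fun N hN => isClosed_Mt hτ (D.net_closed n N hN)) (fun N hN => Mt_subset_V D τ hN)

lemma Lev_mono (D : Strat X) (τ : X → Set X) {j k : ℕ} (h : j ≤ k) : Lev D τ j ⊆ Lev D τ k :=
  fun _ ⟨n, hn, N, hN, hx⟩ => ⟨n, hn.trans h, N, hN, hx⟩

lemma exists_Lev (D : Strat X) {τ : X → Set X} (hτ : TNet τ) (x : X) : ∃ k, x ∈ Lev D τ k := by
  obtain ⟨n, N, hN, hx⟩ := exists_Mt D hτ x
  exact ⟨n, n, le_rfl, N, hN, hx⟩

/-- The sets `V n N` of one family are pairwise disjoint. -/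
lemma V_disjoint (D : Strat X) {n : ℕ} {N N' : Set X} (hN : N ∈ D.net n) (hN' : N' ∈ D.net n)
    {y : X} (h : y ∈ D.V n N) (h' : y ∈ D.V n N') : N = N' := by
  obtain ⟨O, _, hy, hO⟩ := D.V_disc n y
  exact hO N hN N' hN' ⟨y, h, hy⟩ ⟨y, h', hy⟩

/-- Spaces with the structure `Strat` are normal. -/
lemma normal (D : Strat X) : NormalSpace X := by
  refine ⟨fun A B hA hB hd => ?_⟩
  have hAB : A ⊆ Bᶜ := fun x hx hx' => disjoint_left.1 hd hx hx'
  refine ⟨interior (D.Q A Bᶜ), (D.Q A Bᶜ)ᶜ, isOpen_interior,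
    (D.isClosed_Q hA hAB).isOpen_compl, D.subset_interior_Q hA hB.isOpen_compl hAB,
    fun x hx hx' => D.Q_subset hA hAB hx' hx, ?_⟩
  exact disjoint_left.2 fun x hx hx' => hx' (interior_subset hx)

end basic

end Pool.Agent.H51.SU
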