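import Pool.Agent.H51.SU.LF

/-!
# Module EXT: extending relatively open subsets of a closed set

Proof. If `C = ∅` take `A W = A' W = ∅` (all statements are trivial; `RegIn Cᶜ ∅` because the
closure of the empty set is empty). Let `C ≠ ∅`. For `n : ℕ` let `gC n = ⋃ a ∈ C, D.g n a`. For
`x ∉ C` the set `{n | x ∈ gC n}` is bounded (`D.g_spec C x`). Choose for every `x` a point
`α x ∈ C` such that: if `x ∉ C` and `{n | x ∈ gC n}` is nonempty with largest element `m`, then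
`x ∈ D.g m (α x)`.
(can') For `a ∈ C`, `O` open, `a ∈ O`, there is an open `O' ∋ a` such that for every
`x ∉ C` with `(D.T C x ∩ O').Nonempty` we have `α x ∈ O`. Proof: `D.g_spec Oᶜ a` gives `n`,
`O₁ ∋ a` with `Disjoint (D.g m y) O₁` for all `y ∉ O`, `m ≥ n`. Let `O₂ = O₁ ∩ D.g n a`. Apply
`(D.T_tn C _).pw` to `a` and `{x | x ∉ C ∧ x ∉ O₂}` (its closure misses `a ∈ O₂`): there is an
open `O' ∋ a` such that `(D.T C x ∩ O').Nonempty` implies `x ∈ O₂` for `x ∉ C`. Then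
`x ∈ gC n`, so the largest `m` with `x ∈ gC m` is `≥ n`, `x ∈ D.g m (α x) ∩ O₁`, hence `α x ∈ O`.
Apply `lf` to `G = Cᶜ` and the sets `D.T C x`, `x ∉ C` (open, contain `x`, disjoint from `C`): we
get `V`, `V'`, `c`. Put `b s = α (c s) ∈ C`. Define
`A W = Cᶜ \ closure (⋃ {V s : b s ∉ W})`, `A' W = Cᶜ \ ⋃ {V' s : b s ∉ W}`.
1. `A W` is open, disjoint from `C`. `RegIn Cᶜ (A W)`: let `x ∉ C`, `x ∉ A W`, `O ∋ x` open; then
   `x` is in the closure of `B = ⋃ {V s : b s ∉ W}` and `O ∩ Cᶜ` contains a point `y` of the open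
   set `B`, which is disjoint from `A W`, so `y ∉ closure (A W)`.
2. `A' W` is relatively closed in `Cᶜ` (`(⋃ V' s)ᶜ` is closed). `A' W ⊆ A W`: let `x ∉ C` and
   `x ∈ closure (⋃ {V s : b s ∉ W})`; near `x` only finitely many `V s ⊆ V' s` are nonempty
   (local finiteness), so `x ∈ closure (V s) ⊆ V' s` for some `s` with `b s ∉ W`.
3. `closure (A W) ∩ C ⊆ closure W`: let `a ∈ C`, `a ∉ closure W`. Apply (can') to
   `O = (closure W)ᶜ`, giving `O'`. `O' ∩ A W = ∅`: if `y` is in it, `y ∉ C`, so `y ∈ V s ⊆ V' s ⊆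
   D.T C (c s)` for some `s`, so `b s ∈ O`, `b s ∉ W` and `y ∈ V s` contradicts `y ∈ A W`.
4. `w = O₀ ∩ C`, `a ∈ w`. (can') for `O₀` gives `O'`. If `y ∈ O' \ C` were in `V' s` with
   `b s ∉ W`, then `b s ∈ O₀ ∩ C = w ⊆ W`, a contradiction. So `O' \ C ⊆ A' W` for all `W ⊇ w`.
5. `z ∉ C`: let `O₁ ∋ z` be open, `O₁ ⊆ Cᶜ`, meeting `V s` only for `s` in a finite set `S`, and
   `O = O₁ ∩ ⋂ {(closure (V s))ᶜ : s ∈ S, z ∉ closure (V s)}`. If `z ∈ A W` then every `s ∈ S` with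
   `b s ∉ W` has `z ∉ closure (V s)`, so `O` is disjoint from `⋃ {V s : b s ∉ W}` and from its
   closure: `O ⊆ A W`.
-/

set_option autoImplicit false
open Topology Set

namespace Pool.Agent.H51.SU

open Pool.Agent.H51.CI

theorem ext_alpha {X : Type*} [TopologicalSpace X] (D : Strat X) {C : Set X} (hC : IsClosed C)
    (hne : C.Nonempty) (x : X) : ∃ a ∈ C, x ∉ C → ∀ n : ℕ, (∃ b ∈ C, x ∈ D.g n b) →
      ∃ m ≥ n, x ∈ D.g m a := by
  obtain ⟨c0, hc0⟩ := hne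
  by_cases hx : x ∈ C
  · exact ⟨x, hx, fun h => absurd hx h⟩
  by_cases hS : ({n | ∃ b ∈ C, x ∈ D.g n b} : Set ℕ).Nonempty
  · have hbdd : BddAbove ({n | ∃ b ∈ C, x ∈ D.g n b} : Set ℕ) := by
      obtain ⟨n, O, _, hxO, h⟩ := D.g_spec C x hC hx
      refine ⟨n, fun k hk => ?_⟩
      obtain ⟨b, hb, hxb⟩ := hk
      by_contra hkn
      exact disjoint_left.1 (h b hb k (not_le.1 hkn).le) hxb hxO
    obtain ⟨a, ha, hxa⟩ := Nat.sSup_mem hS hbdd
    exact ⟨a, ha, fun _ n hn => ⟨_, le_csSup hbdd hn, hxa⟩⟩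
  · refine ⟨c0, hc0, fun _ n hn => ?_⟩
    exact absurd ⟨n, hn⟩ hS

theorem ext_can {X : Type*} [TopologicalSpace X] (D : Strat X) {C : Set X} (hC : IsClosed C)
    (α : X → X) (hα : ∀ x, x ∉ C → ∀ n : ℕ, (∃ b ∈ C, x ∈ D.g n b) → ∃ m ≥ n, x ∈ D.g m (α x))
    (a : X) (ha : a ∈ C) (O : Set X) (hO : IsOpen O) (haO : a ∈ O) :
    ∃ O', IsOpen O' ∧ a ∈ O' ∧ ∀ x ∉ C, (D.T C x ∩ O').Nonempty → α x ∈ O := by
  obtain ⟨n, O₁, hO₁, haO₁, h⟩ := D.g_spec Oᶜ a hO.isClosed_compl (fun h => h haO)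
  have hO₂ : IsOpen (O₁ ∩ D.g n a) := hO₁.inter (D.g_open n a)
  have h1 := (D.T_tn C hC).pw a ha {x | x ∉ C ∧ x ∉ O₁ ∩ D.g n a}
    (disjoint_left.2 fun x hx hxC => hx.1 hxC)
    (by
      intro hcl
      obtain ⟨y, hy, hy'⟩ := mem_closure_iff.1 hcl _ hO₂ ⟨haO₁, D.g_self n a⟩
      exact hy'.2 hy)
  refine ⟨(closure (⋃ y ∈ {x | x ∉ C ∧ x ∉ O₁ ∩ D.g n a}, D.T C y))ᶜ,
    isClosed_closure.isOpen_compl, h1, ?_⟩
  rintro x hx ⟨y, hyT, hyO⟩
  have hx2 : x ∈ O₁ ∩ D.g n a := by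
    by_contra hcon
    exact hyO (subset_closure (mem_iUnion₂.2 ⟨x, ⟨hx, hcon⟩, hyT⟩))
  obtain ⟨m, hm, hxm⟩ := hα x hx n ⟨a, ha, hx2.2⟩
  by_contra hcon
  exact disjoint_left.1 (h (α x) hcon m hm) hxm hx2.1

theorem ext {X : Type*} [TopologicalSpace X] (D : Strat X) {C : Set X} (hC : IsClosed C) :
    ∃ A A' : Set X → Set X,
      (∀ W, IsOpen (A W) ∧ Disjoint (A W) C ∧ RegIn Cᶜ (A W)) ∧
      (∀ W, RelC Cᶜ (A' W) ∧ A' W ⊆ A W) ∧
      (∀ W ⊆ C, closure (A W) ∩ C ⊆ closure W) ∧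
      (∀ w, RelO C w → ∀ a ∈ w, ∃ O, IsOpen O ∧ a ∈ O ∧ ∀ W, w ⊆ W → O \ C ⊆ A' W) ∧
      (∀ z ∉ C, ∃ O, IsOpen O ∧ z ∈ O ∧ ∀ W, z ∈ A W → O ⊆ A W) := by
  rcases C.eq_empty_or_nonempty with hCe | hne
  · subst hCe
    refine ⟨fun _ => ∅, fun _ => ∅, ?_, ?_, ?_, ?_, ?_⟩
    · intro W
      refine ⟨isOpen_empty, disjoint_left.2 fun x hx => absurd hx (notMem_empty x), ?_⟩
      intro x hx _ O _ hxO
      exact ⟨x, hxO, hx, by rw [closure_empty]; exact notMem_empty x⟩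
    · intro W
      exact ⟨⟨∅, isClosed_empty, by rw [empty_inter]⟩, Subset.rfl⟩
    · intro W _ x hx
      exact absurd hx.2 (notMem_empty x)
    · intro w hw a ha
      exact absurd (hw.subset ha) (notMem_empty a)
    · intro z _
      exact ⟨univ, isOpen_univ, mem_univ z, fun W hW => absurd hW (notMem_empty z)⟩
  · choose α hαC hα using ext_alpha D hC hne
    have can := ext_can D hC α hα
    haveI : Nonempty X := ⟨hne.some⟩
    obtain ⟨V, V', c, hV1, hV2, hV3, hV4⟩ := lf D (G := Cᶜ) (D.T C) (by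
      intro x hx
      refine ⟨(D.T_tn C hC).isOpen x hx, (D.T_tn C hC).self x hx, ?_⟩
      intro y hy hyC
      exact disjoint_left.1 ((D.T_tn C hC).disj x hx) hy hyC)
    have hVV : ∀ s, V s ⊆ V' s := fun s => subset_closure.trans (hV1 s).2.2
    -- local finiteness
    have hLF : ∀ z ∈ Cᶜ, ∀ p : ℕ × Set X → Prop, (∀ s, p s → z ∉ closure (V s)) →
        ∃ O, IsOpen O ∧ z ∈ O ∧ ∀ s, p s → Disjoint (V s) O := by
      intro z hz p hp
      obtain ⟨U, hU, hzU, hfin⟩ := hV4 z hz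
      refine ⟨U ∩ ⋂ s ∈ ({s | (V' s ∩ U).Nonempty} ∩ {s | p s} : Set (ℕ × Set X)),
        (closure (V s))ᶜ, ?_, ?_, ?_⟩
      · apply hU.inter
        exact (hfin.subset inter_subset_left).isOpen_biInter
          (fun s _ => isClosed_closure.isOpen_compl)
      · exact ⟨hzU, mem_iInter₂.2 fun s hs => hp s hs.2⟩
      · intro s hs
        rw [disjoint_left]
        rintro y hyV ⟨hyU, hy⟩
        exact mem_iInter₂.1 hy s ⟨⟨y, hVV s hyV, hyU⟩, hs⟩ (subset_closure hyV)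
    refine ⟨fun W => Cᶜ \ closure (⋃ s ∈ {s | α (c s) ∉ W}, V s),
      fun W => Cᶜ \ ⋃ s ∈ {s | α (c s) ∉ W}, V' s, ?_, ?_, ?_, ?_, ?_⟩
    · intro W
      refine ⟨hC.isOpen_compl.inter isClosed_closure.isOpen_compl,
        disjoint_left.2 fun x hx hxC => hx.1 hxC, ?_⟩
      intro x hx hxA O hO hxO
      have hxcl : x ∈ closure (⋃ s ∈ {s | α (c s) ∉ W}, V s) := by
        by_contra hcon
        exact hxA ⟨hx, hcon⟩
      obtain ⟨y, hyO, hyB⟩ := mem_closure_iff.1 hxcl (O ∩ Cᶜ) (hO.inter hC.isOpen_compl) ⟨hxO, hx⟩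
      refine ⟨y, hyO.1, hyO.2, ?_⟩
      intro hycl
      obtain ⟨w, hwB, hwA⟩ := mem_closure_iff.1 hycl _
        (isOpen_biUnion fun s _ => (hV1 s).1) hyB
      exact hwA.2 (subset_closure hwB)
    · intro W
      refine ⟨⟨(⋃ s ∈ {s | α (c s) ∉ W}, V' s)ᶜ,
        (isOpen_biUnion fun s _ => (hV1 s).2.1).isClosed_compl, ?_⟩, ?_⟩
      · ext x
        constructor
        · rintro ⟨h1, h2⟩
          exact ⟨h2, h1⟩
        · rintro ⟨h1, h2⟩
          exact ⟨h2, h1⟩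
      · rintro x ⟨hxC, hx⟩
        refine ⟨hxC, ?_⟩
        obtain ⟨O, hO, hxO, h⟩ := hLF x hxC (fun s => α (c s) ∉ W) (by
          intro s hs hcl
          exact hx (mem_iUnion₂.2 ⟨s, hs, (hV1 s).2.2 hcl⟩))
        intro hcl
        obtain ⟨y, hyO, hy⟩ := mem_closure_iff.1 hcl O hO hxO
        obtain ⟨s, hs, hys⟩ := mem_iUnion₂.1 hy
        exact disjoint_left.1 (h s hs) hys hyO
    · rintro W hW a ⟨hacl, haC⟩
      by_contra hcon
      obtain ⟨O', hO', haO', h⟩ := can a haC (closure W)ᶜ isClosed_closure.isOpen_compl hcon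
      obtain ⟨y, hyO, hyA⟩ := mem_closure_iff.1 hacl O' hO' haO'
      obtain ⟨s, hys⟩ := hV3 y hyA.1
      obtain ⟨hcs, hsub⟩ := hV2 s ⟨y, hVV s hys⟩
      have h1 := h (c s) hcs ⟨y, hsub (hVV s hys), hyO⟩
      have h2 : α (c s) ∉ W := fun h3 => h1 (subset_closure h3)
      exact hyA.2 (subset_closure (mem_iUnion₂.2 ⟨s, h2, hys⟩))
    · rintro w ⟨O₀, hO₀, rfl⟩ a ⟨haO, haC⟩
      obtain ⟨O', hO', haO', h⟩ := can a haC O₀ hO₀ haO
      refine ⟨O', hO', haO', ?_⟩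
      rintro W hW y ⟨hyO, hyC⟩
      refine ⟨hyC, ?_⟩
      intro hy
      obtain ⟨s, hs, hys⟩ := mem_iUnion₂.1 hy
      obtain ⟨hcs, hsub⟩ := hV2 s ⟨y, hys⟩
      exact hs (hW ⟨h (c s) hcs ⟨y, hsub hys, hyO⟩, hαC (c s)⟩)
    · intro z hz
      obtain ⟨O, hO, hzO, h⟩ := hLF z hz (fun s => z ∉ closure (V s)) (fun s hs => hs)
      refine ⟨O ∩ Cᶜ, hO.inter hC.isOpen_compl, ⟨hzO, hz⟩, ?_⟩
      rintro W ⟨_, hzW⟩ y ⟨hyO, hyC⟩
      refine ⟨hyC, ?_⟩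
      intro hcl
      obtain ⟨u, huO, hu⟩ := mem_closure_iff.1 hcl O hO hyO
      obtain ⟨s, hs, hus⟩ := mem_iUnion₂.1 hu
      have hzs : z ∉ closure (V s) := by
        intro hzc
        exact hzW (closure_mono (fun v hv => mem_iUnion₂.2 ⟨s, hs, hv⟩) hzc)
      exact disjoint_left.1 (h s hzs) hus huO

end Pool.Agent.H51.SU
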