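import Pool.Agent.H51.SU.Ext

/-!
# Module LEMB: insertion for one family from insertion on a closed set

Proof. Write `σF i = ⋃ y ∈ F i, σ y`, `τF i = ⋃ y ∈ F i, τ y` (open); `F i ⊆ σF i ⊆ τF i`,
`closure (σF i) ⊆ τF i`. Apply `RIn C` to the relatively closed sets `closure (σF i) ∩ C` and the
relatively open sets `τF i ∩ C` (`IPI C`: if `z ∈ τ y`, `y ∈ F i`, then `τ z ⊆ τ y`): `WC i` with
`closure (σF i) ∩ C ⊆ WC i ⊆ τF i ∩ C`, `RegIn C (WC i)`, `RelO C (WC i)`, `IPI C WC`. Let `A`, `A'`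
be the operators of `ext` for `C`. Put
`W i = WC i ∪ (Cᶜ ∩ (σF i ∪ (A (WC i) ∩ τF i)))`.
(1) For every `z` there is an open `O ∋ z` with `O ⊆ W i` for all `i` with `z ∈ W i`.
    `z ∈ C`: then `z ∈ WC i`. Let `O₀ ∋ z` be open with `O₀ ∩ C ⊆ WC i` for all `i` with
    `z ∈ WC i` (`IPI C WC`) and let `O₁` be from property 4 of `ext` with `w = O₀ ∩ C`:
    `O₁ \ C ⊆ A' (WC i) ⊆ A (WC i)`. `O = O₀ ∩ O₁ ∩ τ z` (`τ z ⊆ τF i` as `z ∈ WC i ⊆ τF i`).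
    `z ∉ C`: `O = Cᶜ ∩ σ z ∩ τ z ∩ O₅` with `O₅` from property 5 of `ext` (`z ∈ σF i` implies
    `σ z ⊆ σF i`).
    This gives `IPI univ W` and `RelO univ (W i)`.
(2) `F i ⊆ W i`: `F i ∩ C ⊆ closure (σF i) ∩ C ⊆ WC i`, `F i \ C ⊆ σF i`. `W i ⊆ τF i`: clear.
(3) `RegIn univ (W i)`: let `x ∉ W i`, `O ∋ x` open.
    `x ∈ C`: `x ∉ WC i`; `RegIn C (WC i)` gives `y ∈ O ∩ C`, `y ∉ closure (WC i)`. Then
    `y ∉ closure (A (WC i))` (property 3 of `ext`), `y ∉ closure (σF i)` (as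
    `closure (σF i) ∩ C ⊆ WC i`), so `y ∉ closure (W i)`.
    `x ∉ C`: let `O₁ ∋ x` be open with `O₁ ⊆ O ∩ Cᶜ` and `x ∈ σ y`, `x ∈ τ y` for all `y ∈ O₁`
    (`hloc`). If `y ∈ O₁ ∩ σF i` then `x ∈ σ y ⊆ σF i`, impossible; so `O₁ ∩ σF i = ∅` and
    `W i ∩ O₁ = A (WC i) ∩ τF i ∩ O₁`. If `x ∉ τF i` then similarly `O₁ ∩ τF i = ∅`, so
    `W i ∩ O₁ = ∅` and `y = x` works. If `x ∈ τF i` then `x ∉ A (WC i)` and `RegIn Cᶜ (A (WC i))`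
    gives `y ∈ O₁`, `y ∉ closure (A (WC i))`; as `W i ∩ O₁ ⊆ A (WC i)`, `y ∉ closure (W i)`.
-/

set_option autoImplicit false
open Topology Set

namespace Pool.Agent.H51.SU

open Pool.Agent.H51.CI

universe u

theorem lemB {X : Type u} [TopologicalSpace X] (D : Strat X) {C : Set X} (hC : IsClosed C)
    {σ τ : X → Set X} (hσ : TNet σ) (hτ : TNet τ) (hστ : ∀ x, σ x ⊆ τ x)
    (hcl : ∀ F : Set X, IsClosed F → closure (⋃ y ∈ F, σ y) ⊆ ⋃ y ∈ F, τ y)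
    (hloc : ∀ x ∉ C, ∃ O, IsOpen O ∧ x ∈ O ∧ ∀ y ∈ O, x ∈ σ y ∧ x ∈ τ y)
    (hR : RIn C) {ι : Type u} (F : ι → Set X) (hF : ∀ i, IsClosed (F i)) :
    ∃ W : ι → Set X, (∀ i, RelO univ (W i) ∧ F i ⊆ W i ∧ (W i ⊆ ⋃ y ∈ F i, τ y) ∧
      RegIn univ (W i)) ∧ IPI univ W := by
  have hσo : ∀ i, IsOpen (⋃ y ∈ F i, σ y) := fun i => isOpen_biUnion fun y _ => hσ.isOpen y
  have hτo : ∀ i, IsOpen (⋃ y ∈ F i, τ y) := fun i => isOpen_biUnion fun y _ => hτ.isOpen y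
  have hσt : ∀ i, ∀ z ∈ ⋃ y ∈ F i, σ y, σ z ⊆ ⋃ y ∈ F i, σ y := by
    intro i z hz w hw
    obtain ⟨y, hy, hzy⟩ := mem_iUnion₂.1 hz
    exact mem_iUnion₂.2 ⟨y, hy, hσ.trans y z hzy hw⟩
  have hτt : ∀ i, ∀ z ∈ ⋃ y ∈ F i, τ y, τ z ⊆ ⋃ y ∈ F i, τ y := by
    intro i z hz w hw
    obtain ⟨y, hy, hzy⟩ := mem_iUnion₂.1 hz
    exact mem_iUnion₂.2 ⟨y, hy, hτ.trans y z hzy hw⟩
  have hFσ : ∀ i, F i ⊆ ⋃ y ∈ F i, σ y := fun i y hy => mem_iUnion₂.2 ⟨y, hy, hσ.self y⟩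
  have hστF : ∀ i, (⋃ y ∈ F i, σ y) ⊆ ⋃ y ∈ F i, τ y := by
    intro i z hz
    obtain ⟨y, hy, hzy⟩ := mem_iUnion₂.1 hz
    exact mem_iUnion₂.2 ⟨y, hy, hστ y hzy⟩
  obtain ⟨σF, hσF⟩ : ∃ σF : ι → Set X, σF = fun i => ⋃ y ∈ F i, σ y := ⟨_, rfl⟩
  obtain ⟨τF, hτF⟩ : ∃ τF : ι → Set X, τF = fun i => ⋃ y ∈ F i, τ y := ⟨_, rfl⟩
  have eσ : ∀ i, (⋃ y ∈ F i, σ y) = σF i := fun i => by rw [hσF]
  have eτ : ∀ i, (⋃ y ∈ F i, τ y) = τF i := fun i => by rw [hτF]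
  have hclF : ∀ i, closure (σF i) ⊆ τF i := fun i => by
    rw [← eσ, ← eτ]
    exact hcl _ (hF i)
  simp only [eσ, eτ] at hσo hτo hσt hτt hFσ hστF ⊢
  clear hσF hτF
  obtain ⟨WC, hWC, hWI⟩ := hR ι (fun i => closure (σF i) ∩ C) (fun i => τF i ∩ C)
    (fun i => ⟨closure (σF i), isClosed_closure, rfl⟩) (fun i => ⟨τF i, hτo i, rfl⟩)
    (fun i => inter_subset_inter_left _ (hclF i))
    (fun z hz => ⟨τ z, hτ.isOpen z, hτ.self z, fun i hi =>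
      inter_subset_inter_left _ (hτt i z hi.1)⟩)
  obtain ⟨A, A', h1, h2, h3, h4, h5⟩ := ext D hC
  have hWCC : ∀ i, WC i ⊆ C := fun i => (hWC i).1.subset
  have key : ∀ z, ∃ O, IsOpen O ∧ z ∈ O ∧
      ∀ i, z ∈ WC i ∪ (Cᶜ ∩ (σF i ∪ (A (WC i) ∩ τF i))) →
        O ⊆ WC i ∪ (Cᶜ ∩ (σF i ∪ (A (WC i) ∩ τF i))) := by
    intro z
    by_cases hzC : z ∈ C
    · obtain ⟨O₀, hO₀, hz₀, h₀⟩ := hWI z hzC
      obtain ⟨O₁, hO₁, hz₁, h₁⟩ := h4 (O₀ ∩ C) ⟨O₀, hO₀, rfl⟩ z ⟨hz₀, hzC⟩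
      refine ⟨O₀ ∩ O₁ ∩ τ z, (hO₀.inter hO₁).inter (hτ.isOpen z), ⟨⟨hz₀, hz₁⟩, hτ.self z⟩, ?_⟩
      rintro i hi x ⟨⟨hx₀, hx₁⟩, hxτ⟩
      have hzW : z ∈ WC i := by
        rcases hi with hi | hi
        · exact hi
        · exact absurd hzC hi.1
      by_cases hxC : x ∈ C
      · exact Or.inl (h₀ i hzW ⟨hx₀, hxC⟩)
      · refine Or.inr ⟨hxC, Or.inr ⟨(h2 (WC i)).2 (h₁ (WC i) (h₀ i hzW) ⟨hx₁, hxC⟩), ?_⟩⟩
        exact hτt i z ((hWC i).2.2.1 hzW).1 hxτ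
    · obtain ⟨O₅, hO₅, hz₅, h₅⟩ := h5 z hzC
      refine ⟨Cᶜ ∩ σ z ∩ τ z ∩ O₅, (((hC.isOpen_compl).inter (hσ.isOpen z)).inter
        (hτ.isOpen z)).inter hO₅, ⟨⟨⟨hzC, hσ.self z⟩, hτ.self z⟩, hz₅⟩, ?_⟩
      rintro i hi x ⟨⟨⟨hxC, hxσ⟩, hxτ⟩, hx₅⟩
      rcases hi with hi | ⟨-, hi | ⟨hiA, hiτ⟩⟩
      · exact absurd (hWCC i hi) hzC
      · exact Or.inr ⟨hxC, Or.inl (hσt i z hi hxσ)⟩
      · exact Or.inr ⟨hxC, Or.inr ⟨h₅ (WC i) hiA hx₅, hτt i z hiτ hxτ⟩⟩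
  refine ⟨fun i => WC i ∪ (Cᶜ ∩ (σF i ∪ (A (WC i) ∩ τF i))), fun i => ⟨?_, ?_, ?_, ?_⟩, ?_⟩
  · refine ⟨_, ?_, (inter_univ _).symm⟩
    rw [isOpen_iff_mem_nhds]
    intro z hz
    obtain ⟨O, hO, hzO, h⟩ := key z
    exact Filter.mem_of_superset (hO.mem_nhds hzO) (h i hz)
  · intro y hy
    by_cases hyC : y ∈ C
    · exact Or.inl ((hWC i).2.1 ⟨subset_closure (hFσ i hy), hyC⟩)
    · exact Or.inr ⟨hyC, Or.inl (hFσ i hy)⟩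
  · rintro y (hy | ⟨-, hy | ⟨-, hy⟩⟩)
    · exact ((hWC i).2.2.1 hy).1
    · exact hστF i hy
    · exact hy
  · intro x _ hx O hO hxO
    obtain ⟨hW1, hW2, hW3, hW4⟩ := hWC i
    by_cases hxC : x ∈ C
    · obtain ⟨y, hyO, hyC, hycl⟩ := hW4 x hxC (fun h => hx (Or.inl h)) O hO hxO
      refine ⟨y, hyO, mem_univ y, fun hc => ?_⟩
      have hsub : WC i ∪ (Cᶜ ∩ (σF i ∪ (A (WC i) ∩ τF i))) ⊆ WC i ∪ (σF i ∪ A (WC i)) := by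
        rintro w (hw | ⟨-, hw | ⟨hw, -⟩⟩)
        · exact Or.inl hw
        · exact Or.inr (Or.inl hw)
        · exact Or.inr (Or.inr hw)
      have hc' := closure_mono hsub hc
      rw [closure_union, closure_union] at hc'
      rcases hc' with hc' | hc' | hc'
      · exact hycl hc'
      · exact hycl (subset_closure (hW2 ⟨hc', hyC⟩))
      · exact hycl (h3 (WC i) (hWCC i) ⟨hc', hyC⟩)
    · obtain ⟨O', hO', hxO', hl⟩ := hloc x hxC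
      have hxσ : x ∉ σF i := fun h => hx (Or.inr ⟨hxC, Or.inl h⟩)
      by_cases hxτ : x ∈ τF i
      · have hxA : x ∉ A (WC i) := fun h => hx (Or.inr ⟨hxC, Or.inr ⟨h, hxτ⟩⟩)
        obtain ⟨y, ⟨⟨hyO, hyC⟩, hyO'⟩, -, hyA⟩ := (h1 (WC i)).2.2 x hxC hxA (O ∩ Cᶜ ∩ O')
          ((hO.inter hC.isOpen_compl).inter hO') ⟨⟨hxO, hxC⟩, hxO'⟩
        refine ⟨y, hyO, mem_univ y, fun hc => ?_⟩
        obtain ⟨w, ⟨⟨hwC, hwO'⟩, hwA⟩, hw⟩ := mem_closure_iff.1 hc (Cᶜ ∩ O' ∩ (closure (A (WC i)))ᶜ)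
          ((hC.isOpen_compl.inter hO').inter isClosed_closure.isOpen_compl) ⟨⟨hyC, hyO'⟩, hyA⟩
        rcases hw with hw | ⟨-, hw | ⟨hw, -⟩⟩
        · exact hwC (hWCC i hw)
        · exact hxσ (hσt i w hw (hl w hwO').1)
        · exact hwA (subset_closure hw)
      · refine ⟨x, hxO, mem_univ x, fun hc => ?_⟩
        obtain ⟨w, ⟨hwC, hwO'⟩, hw⟩ := mem_closure_iff.1 hc (Cᶜ ∩ O')
          (hC.isOpen_compl.inter hO') ⟨hxC, hxO'⟩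
        rcases hw with hw | ⟨-, hw | ⟨-, hw⟩⟩
        · exact hwC (hWCC i hw)
        · exact hxσ (hσt i w hw (hl w hwO').1)
        · exact hxτ (hτt i w hw (hl w hwO').2)
  · intro z _
    obtain ⟨O, hO, hzO, h⟩ := key z
    exact ⟨O, hO, hzO, fun i hi => inter_subset_left.trans (h i hi)⟩

end Pool.Agent.H51.SU
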