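import Pool.Agent.H51.SU.Defs

/-!
# Module LOCC: neighbornets are locally constant on the interiors of the levels

Proof. `x ∈ interior (Lev D σ j)`. For each `n ≤ j` let `O n ∋ x` be open and meet at most one
`D.V n N`, `N ∈ D.net n` (`V_disc`); if there is such an `N = N n` and `x ∉ Mt σ (N n)`, replace
`O n` by `O n ∩ (Mt σ (N n))ᶜ` (`isClosed_Mt`). (Equivalently: `locFin` applied to the sets
`Mt σ N` with `x ∉ Mt σ N`, and `∅` for the other `N`.) Let
`O = interior (Lev D σ j) ∩ ⋂ n ≤ j, O n`. If `y ∈ O` then `y ∈ Mt σ N` for some `n ≤ j`,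
`N ∈ D.net n`, and then `x ∈ Mt σ N`, so `σ x = σ y` (`Mt_const`), `x ∈ σ x = σ y`.
-/

set_option autoImplicit false
open Topology Set

namespace Pool.Agent.H51.SU

open Pool.Agent.H51.CI

theorem locC {X : Type*} [TopologicalSpace X] (D : Strat X) {σ : X → Set X} (hσ : TNet σ)
    {j : ℕ} {x : X} (hx : x ∈ interior (Lev D σ j)) :
    ∃ O, IsOpen O ∧ x ∈ O ∧ ∀ y ∈ O, x ∈ σ y := by
  classical
  have key : ∀ n, ∃ O, IsOpen O ∧ x ∈ O ∧
      ∀ N ∈ D.net n, x ∉ Mt σ N → Disjoint (Mt σ N) O := by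
    intro n
    obtain ⟨O, hO, hxO, h⟩ := locFin D n x (fun N => if x ∈ Mt σ N then ∅ else Mt σ N)
      (fun N hN => by
        split_ifs
        · exact isClosed_empty
        · exact isClosed_Mt hσ (D.net_closed n N hN))
      (fun N hN => by
        split_ifs
        · exact empty_subset _
        · exact Mt_subset_V D σ hN)
      (fun N hN => by
        split_ifs with h
        · exact notMem_empty _
        · exact h)
    refine ⟨O, hO, hxO, fun N hN hx => ?_⟩
    have := h N hN
    simp only [if_neg hx] at this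
    exact this
  choose O hO hxO hd using key
  refine ⟨interior (Lev D σ j) ∩ ⋂ n ∈ Finset.range (j + 1), O n,
    isOpen_interior.inter (isOpen_biInter_finset fun n _ => hO n),
    ⟨hx, mem_iInter₂.2 fun n _ => hxO n⟩, ?_⟩
  rintro y ⟨hy1, hy2⟩
  obtain ⟨n, hn, N, hN, hyN⟩ := interior_subset hy1
  by_contra hne
  have hxN : x ∉ Mt σ N := fun hxN => hne (by
    rw [← Mt_const hσ hxN hyN]; exact hσ.self x)
  exact disjoint_left.1 (hd n N hN hxN) hyN (mem_iInter₂.1 hy2 n (Finset.mem_range.2 (by omega)))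

end Pool.Agent.H51.SU
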