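import Mathlib

/-!
# Module GEN: open sets in general position

Proof (Baire category). `E = BoundedContinuousFunction X ℝ` is a complete metric space, so a Baire
space. By Urysohn (`exists_continuous_zero_one_of_isClosed` and an affine map, or
`exists_bounded_zero_one_of_closed`) let `f₀ ∈ E` with `f₀ = 1` on `F₀`, `f₀ = -1` on
`Gᶜ` (and `-1 ≤ f₀ ≤ 1`). For `m : ℕ` let
`D m = {h ∈ E | ∃ δ > 0, ∀ I ∈ 𝓘 m, I.Nonempty → δ ≤ |sSup ((fun x => f₀ x + h x) '' I)|}`.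
* `D m` is open: if `h ∈ D m` with `δ` and `‖h' - h‖ < δ/2` then
  `|sSup ((f₀ + h') '' I) - sSup ((f₀ + h) '' I)| ≤ δ/2` for nonempty `I`, so `h' ∈ D m` with
  `δ/2`.
* `D m` is dense: let `h ∈ E`, `ε > 0`, `s I = sSup ((f₀ + h) '' I)`. Let
  `B₁ = ⋃₀ {I ∈ 𝓘 m | I.Nonempty ∧ |s I| < ε/4}`, `B₂ = ⋃₀ {I ∈ 𝓘 m | ¬ |s I| < ε/4}`; these
  are disjoint closed sets, so there is a continuous `k : X → [0,1]` with `k = 1` on `B₁`,
  `k = 0` on `B₂`. `h' = h + (ε/2) k` has distance `≤ ε/2 < ε` from `h`; for `I` in the first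
  family `sSup ((f₀ + h') '' I) = s I + ε/2 ≥ ε/4`; for nonempty `I` in the second family it is
  `s I`, `|s I| ≥ ε/4`. So `h' ∈ D m` with `δ = ε/4`.
* By Baire (`dense_iInter_of_isOpen_nat` or `dense_iInter_of_isOpen`) there is `h` in all `D m`
  with `‖h‖ < 1/2`. Let `f = f₀ + h` and `J = {x | 0 < f x}`, open; `F₀ ⊆ J`, and
  `closure J ⊆ {x | 0 ≤ f x} ⊆ G` because `f ≤ -1/2` off `G`.
* Let `z ∈ M`, `z ∈ closure J`, so `0 ≤ f z`. Suppose `z ∉ closure (M ∩ J)`; let `O ∋ z` be open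
  and disjoint from `M ∩ J`. Take `m`, `I ∈ 𝓘 m` with `z ∈ I ⊆ M ∩ O`. Then `f ≤ 0` on `I`, so
  `f z = 0` and `sSup (f '' I) = 0`, contradicting `h ∈ D m`.
-/

set_option autoImplicit false
open Topology Set

namespace Pool.Agent.H51.SU

section aux

variable {X : Type*} [TopologicalSpace X]

open BoundedContinuousFunction in
private lemma bdd_img (g : X →ᵇ ℝ) (I : Set X) : BddAbove (g '' I) := by
  refine ⟨‖g‖, ?_⟩
  rintro _ ⟨x, _, rfl⟩
  exact (le_abs_self _).trans (g.norm_coe_le_norm x)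

open BoundedContinuousFunction in
private lemma sup_le (f g : X →ᵇ ℝ) {I : Set X} (hI : I.Nonempty) :
    sSup (f '' I) ≤ sSup (g '' I) + dist f g := by
  apply csSup_le (hI.image _)
  rintro _ ⟨x, hx, rfl⟩
  have h1 : g x ≤ sSup (g '' I) := le_csSup (bdd_img g I) ⟨x, hx, rfl⟩
  have h2 := f.dist_coe_le_dist (g := g) x
  rw [Real.dist_eq] at h2
  have h3 := (abs_le.1 h2).2
  linarith

open BoundedContinuousFunction in
private lemma abs_sup_le (f g : X →ᵇ ℝ) {I : Set X} (hI : I.Nonempty) :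
    |sSup (f '' I) - sSup (g '' I)| ≤ dist f g := by
  rw [abs_le]
  have h1 := sup_le f g hI
  have h2 := sup_le g f hI
  rw [dist_comm g f] at h2
  constructor <;> linarith

open BoundedContinuousFunction in
private def DD (𝓙 : Set (Set X)) : Set (X →ᵇ ℝ) :=
  {f | ∃ δ : ℝ, 0 < δ ∧ ∀ I ∈ 𝓙, I.Nonempty → δ ≤ |sSup (f '' I)|}

private lemma DD_open (𝓙 : Set (Set X)) : IsOpen (DD 𝓙) := by
  rw [Metric.isOpen_iff]
  rintro f ⟨δ, hδ, hf⟩
  refine ⟨δ / 2, by positivity, fun g hg => ⟨δ / 2, by positivity, fun I hI hne => ?_⟩⟩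
  rw [Metric.mem_ball] at hg
  have h1 := hf I hI hne
  have h2 := abs_sup_le g f hne
  have h3 : |sSup (f '' I)| ≤ |sSup (g '' I)| + |sSup (g '' I) - sSup (f '' I)| := by
    have h4 := abs_sub (sSup (g '' I)) (sSup (g '' I) - sSup (f '' I))
    have h5 : sSup (g '' I) - (sSup (g '' I) - sSup (f '' I)) = sSup (f '' I) := by ring
    rw [h5] at h4
    exact h4
  linarith

private lemma DD_dense [NormalSpace X] (𝓙 : Set (Set X))
    (hdis : ∀ I ∈ 𝓙, ∀ I' ∈ 𝓙, I ≠ I' → Disjoint I I')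
    (hcl : ∀ 𝒥 ⊆ 𝓙, IsClosed (⋃₀ 𝒥)) : Dense (DD 𝓙) := by
  rw [Metric.dense_iff]
  intro f ε hε
  set J1 : Set (Set X) := {I | I ∈ 𝓙 ∧ I.Nonempty ∧ |sSup (f '' I)| < ε / 4} with hJ1
  set J2 : Set (Set X) := {I | I ∈ 𝓙 ∧ ¬ |sSup (f '' I)| < ε / 4} with hJ2
  have hc1 : IsClosed (⋃₀ J1) := hcl J1 fun I hI => hI.1
  have hc2 : IsClosed (⋃₀ J2) := hcl J2 fun I hI => hI.1
  have hd : Disjoint (⋃₀ J2) (⋃₀ J1) := by
    rw [disjoint_left]
    rintro x ⟨I2, hI2, hx2⟩ ⟨I1, hI1, hx1⟩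
    by_cases he : I1 = I2
    · subst he
      exact hI2.2 hI1.2.2
    · exact disjoint_left.1 (hdis I1 hI1.1 I2 hI2.1 he) hx1 hx2
  obtain ⟨k, hk2, hk1, hk01⟩ := exists_continuous_zero_one_of_isClosed hc2 hc1 hd
  have hkb : ∀ x, ‖(ε / 2) * k x‖ ≤ ε / 2 := by
    intro x
    rw [Real.norm_eq_abs, abs_of_nonneg (mul_nonneg (by positivity) (hk01 x).1)]
    have := (hk01 x).2
    nlinarith
  let kb : BoundedContinuousFunction X ℝ := BoundedContinuousFunction.ofNormedAddCommGroup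
    (fun x => (ε / 2) * k x) (by fun_prop) (ε / 2) hkb
  have hkbx : ∀ x, kb x = (ε / 2) * k x := fun x => rfl
  refine ⟨f + kb, ?_, ε / 4, by positivity, fun I hI hne => ?_⟩
  · rw [Metric.mem_ball, dist_eq_norm, add_sub_cancel_left]
    have : ‖kb‖ ≤ ε / 2 := BoundedContinuousFunction.norm_ofNormedAddCommGroup_le (by fun_prop)
      (by positivity) hkb
    linarith
  · by_cases hs : |sSup (f '' I)| < ε / 4
    · have h1 : sSup (f '' I) ≤ sSup ((f + kb) '' I) - ε / 2 := by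
        apply csSup_le (hne.image _)
        rintro _ ⟨x, hx, rfl⟩
        have hkx : k x = 1 := hk1 (mem_sUnion.2 ⟨I, ⟨hI, hne, hs⟩, hx⟩)
        have h2 : (f + kb) x ≤ sSup ((f + kb) '' I) := le_csSup (bdd_img _ I) ⟨x, hx, rfl⟩
        rw [BoundedContinuousFunction.add_apply, hkbx, hkx] at h2
        linarith
      have h2 := (abs_lt.1 hs).1
      refine le_trans ?_ (le_abs_self _)
      linarith
    · have h1 : (f + kb) '' I = f '' I := by
        apply image_congr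
        intro x hx
        have hkx : k x = 0 := hk2 (mem_sUnion.2 ⟨I, ⟨hI, hs⟩, hx⟩)
        rw [BoundedContinuousFunction.add_apply, hkbx, hkx]
        ring
      rw [h1]
      exact not_lt.1 hs

end aux

theorem gen {X : Type*} [TopologicalSpace X] [NormalSpace X] (𝓘 : ℕ → Set (Set X))
    (hdis : ∀ m, ∀ I ∈ 𝓘 m, ∀ I' ∈ 𝓘 m, I ≠ I' → Disjoint I I')
    (hcl : ∀ m, ∀ 𝒥 ⊆ 𝓘 m, IsClosed (⋃₀ 𝒥)) {F₀ G : Set X} (hF₀ : IsClosed F₀) (hG : IsOpen G)
    (hFG : F₀ ⊆ G) :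
    ∃ J : Set X, IsOpen J ∧ F₀ ⊆ J ∧ closure J ⊆ G ∧
      ∀ (M : Set X) (z : X), z ∈ M → z ∈ closure J →
        (∀ O, IsOpen O → z ∈ O → ∃ m, ∃ I ∈ 𝓘 m, z ∈ I ∧ I ⊆ M ∩ O) → z ∈ closure (M ∩ J) := by
  obtain ⟨u, hu0, hu1, hu01⟩ := exists_continuous_zero_one_of_isClosed hG.isClosed_compl hF₀
    (disjoint_left.2 fun x hx hx' => hx (hFG hx'))
  have hub : ∀ x, ‖2 * u x - 1‖ ≤ 1 := by
    intro x
    rw [Real.norm_eq_abs, abs_le]
    have h1 := (hu01 x).1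
    have h2 := (hu01 x).2
    constructor <;> linarith
  let f₀ : BoundedContinuousFunction X ℝ := BoundedContinuousFunction.ofNormedAddCommGroup
    (fun x => 2 * u x - 1) (by fun_prop) 1 hub
  have hf₀ : ∀ x, f₀ x = 2 * u x - 1 := fun x => rfl
  have hdense : Dense (⋂ m, DD (𝓘 m)) :=
    dense_iInter_of_isOpen (fun m => DD_open (𝓘 m))
      (fun m => DD_dense (𝓘 m) (hdis m) (hcl m))
  obtain ⟨f, hfb, hf⟩ := Metric.dense_iff.1 hdense f₀ (1 / 2) (by norm_num)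
  rw [mem_iInter] at hf
  rw [Metric.mem_ball] at hfb
  have hfx : ∀ x, |f x - f₀ x| < 1 / 2 := by
    intro x
    have := f.dist_coe_le_dist (g := f₀) x
    rw [Real.dist_eq] at this
    linarith
  have hJo : IsOpen {x | 0 < f x} := isOpen_lt continuous_const f.continuous
  have hJc : closure {x | 0 < f x} ⊆ {x | 0 ≤ f x} :=
    closure_minimal (fun x (hx : 0 < f x) => (hx.le : 0 ≤ f x))
      (isClosed_le continuous_const f.continuous)
  refine ⟨{x | 0 < f x}, hJo, fun x hx => ?_, fun x hx => ?_, fun M z hzM hzJ hloc => ?_⟩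
  · have h1 := (abs_lt.1 (hfx x)).1
    have h2 : u x = 1 := hu1 hx
    rw [hf₀, h2] at h1
    show 0 < f x
    linarith
  · by_contra hxG
    have h1 := (abs_lt.1 (hfx x)).2
    have h2 : u x = 0 := hu0 hxG
    rw [hf₀, h2] at h1
    have h3 : 0 ≤ f x := hJc hx
    linarith
  · by_contra hcon
    have hz0 : 0 ≤ f z := hJc hzJ
    obtain ⟨m, I, hI, hzI, hIM⟩ := hloc (closure (M ∩ {x | 0 < f x}))ᶜ
      isClosed_closure.isOpen_compl hcon
    obtain ⟨δ, hδ, h1⟩ := hf m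
    have hneI : I.Nonempty := ⟨z, hzI⟩
    have h2 := h1 I hI hneI
    have h3 : ∀ x ∈ I, f x ≤ 0 := by
      intro x hx
      by_contra hc
      push Not at hc
      exact (hIM hx).2 (subset_closure ⟨(hIM hx).1, hc⟩)
    have h4 : sSup (f '' I) ≤ 0 := by
      have hne : I.Nonempty := ⟨z, hzI⟩
      apply csSup_le (hne.image _)
      rintro _ ⟨x, hx, rfl⟩
      exact h3 x hx
    have h5 : 0 ≤ sSup (f '' I) := le_csSup_of_le (bdd_img f I) ⟨z, hzI, rfl⟩ hz0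
    have h6 : sSup (f '' I) = 0 := le_antisymm h4 h5
    rw [h6, abs_zero] at h2
    linarith

end Pool.Agent.H51.SU
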