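import Pool.Agent.H51.SU.Defs
import Pool.Agent.H51.SU.Gen

/-!
# Module M1AS: all points of M₁-spaces have approach systems

Proof. Let `B n` be the families of `HasM1`; replace them by the increasing families
`B' n = ⋃ k ≤ n, B k` (still `closure (⋃₀ 𝒱) = ⋃ V ∈ 𝒱, closure V` for `𝒱 ⊆ B' n`; finite unions;
compare `HasM2.incr` in `Pool.Agent.H51.CI.Incr`). The members are open. For `n` let
`τ n x = (⋃ {closure V : V ∈ B' n, x ∉ closure V})ᶜ`. This is a `TNet`: open (the union is the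
closure of a union), `x ∈ τ n x`, and `y ∈ τ n x` means that every `V ∈ B' n` with `y ∈ closure V`
has `x ∈ closure V`, so `τ n y ⊆ τ n x`.
`X` is normal (`normal D`). Apply `gen` to `F₀ = {e}`, `G = D.g n e` and the families
`𝓘 ⟨k, k'⟩ = {N' ∩ Mt (τ n) N : N ∈ D.net k, N' ∈ D.net k'}` (`m = Nat.pair k k'`, use
`Nat.unpair`): they consist of pairwise disjoint sets (`V_disjoint` with `V_sub`), and unions of
subfamilies are closed: a neighbourhood of any point meets at most one `N ∈ D.net k` and at most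
one `N' ∈ D.net k'` (`V_disc`, `V_sub`), and each member is closed (`isClosed_Mt`). We get `J n`
open with `e ∈ J n`, `closure (J n) ⊆ D.g n e` and
(*) if `z ∈ Mt (τ n) N ∩ closure (J n)` for some `N ∈ D.net k`, then
`z ∈ closure (Mt (τ n) N ∩ J n)` (for `O ∋ z` open take `N' ∈ D.net k'` with `z ∈ N' ⊆ O`).
For an open `U ∋ e` let `n = ν U` be the least `n` with `e ∈ V`, `closure V ⊆ U` for some
`V ∈ B' n` (exists by regularity and the base property),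
`Y U = ⋃ {closure V : V ∈ B' n, closure V ⊆ U}` and `P U = closure (J n) ∩ Y U`.
* `e ∈ P U ⊆ U`: clear.
* `closure (interior (P U)) = P U`: `P U` is closed (`Y U` is the closure of the open set
  `Y° = ⋃ {V : V ∈ B' n, closure V ⊆ U}`). Let `z ∈ P U`; `z ∈ closure V₀`, `V₀ ∈ B' n`,
  `closure V₀ ⊆ U`; `z ∈ Mt (τ n) N` for some `N ∈ D.net k` (`exists_Mt`). Every
  `x ∈ Mt (τ n) N` has `x ∈ closure V₀`: `z ∈ N ⊆ τ n x`, so `x ∉ closure V₀` would imply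
  `z ∉ closure V₀`. By (*) every open `O ∋ z` contains a point `x ∈ Mt (τ n) N ∩ J n`, and
  `x ∈ closure V₀` gives a point of `O ∩ J n ∩ V₀`, which is in `interior (P U)` (the open set
  `J n ∩ V₀` is contained in `P U`).
* Let `z` be given. If `z = e` then `z ∈ P U` for all `U`; take `O = univ`. Let `z ≠ e`.
  `D.g_spec {e} z` gives `n₀` and an open `O₀ ∋ z` disjoint from `D.g m e` for all `m ≥ n₀`. For
  `n < n₀` let `O n = τ n z` if `z ∈ closure (J n)` and `O n = τ n z ∩ (closure (J n))ᶜ` otherwise.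
  `O = O₀ ∩ ⋂ n < n₀, O n`. Let `z ∉ P U`, `n = ν U`. If `n ≥ n₀`: `P U ⊆ closure (J n) ⊆ D.g n e`
  is disjoint from `O₀`. If `n < n₀` and `z ∉ closure (J n)`: clear. If `n < n₀` and `z ∉ Y U`: for
  each `V ∈ B' n` with `closure V ⊆ U` we have `z ∉ closure V`, so `closure V` is disjoint from
  `τ n z`.
-/

set_option autoImplicit false
open Topology Set

namespace Pool.Agent.H51.SU

open Pool.Agent.H51.CI

private lemma m1as_closed {X : Type*} [TopologicalSpace X] {𝒥 : Set (Set X)}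
    (h1 : ∀ I ∈ 𝒥, IsClosed I)
    (h2 : ∀ z, ∃ O, IsOpen O ∧ z ∈ O ∧ ∀ I ∈ 𝒥, ∀ I' ∈ 𝒥, (I ∩ O).Nonempty →
      (I' ∩ O).Nonempty → I = I') : IsClosed (⋃₀ 𝒥) := by
  rw [← isOpen_compl_iff, isOpen_iff_mem_nhds]
  intro z hz
  obtain ⟨O, hO, hzO, h⟩ := h2 z
  by_cases hN : ∃ I₀ ∈ 𝒥, (I₀ ∩ O).Nonempty
  · obtain ⟨I₀, hI₀, hne⟩ := hN
    have hzI : z ∉ I₀ := fun h3 => hz ⟨I₀, hI₀, h3⟩
    refine Filter.mem_of_superset ((hO.inter (h1 I₀ hI₀).isOpen_compl).mem_nhds ⟨hzO, hzI⟩) ?_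
    rintro x ⟨hx1, hx2⟩ ⟨I, hI, hxI⟩
    have h4 := h I hI I₀ hI₀ ⟨x, hxI, hx1⟩ hne
    subst h4
    exact hx2 hxI
  · refine Filter.mem_of_superset (hO.mem_nhds hzO) ?_
    rintro x hx ⟨I, hI, hxI⟩
    exact hN ⟨I, hI, x, hxI, hx⟩

/-- increasing families -/
private lemma m1as_incr {X : Type*} [TopologicalSpace X] [T3Space X] (h : HasM1 X) :
    ∃ B : ℕ → Set (Set X), (∀ n, ∀ V ∈ B n, IsOpen V) ∧
      (∀ n, ∀ 𝒱 ⊆ B n, closure (⋃₀ 𝒱) = ⋃ V ∈ 𝒱, closure V) ∧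
      ∀ (x : X) (U : Set X), IsOpen U → x ∈ U → ∃ n, ∃ V ∈ B n, x ∈ V ∧ closure V ⊆ U := by
  obtain ⟨B, hB, hcp⟩ := h
  refine ⟨fun n => {V | ∃ k ≤ n, V ∈ B k}, ?_, ?_, ?_⟩
  · rintro n V ⟨k, _, hV⟩
    exact hB.isOpen (mem_iUnion.2 ⟨k, hV⟩)
  · intro n 𝒱 h𝒱
    refine Subset.antisymm ?_ ?_
    · have e : ⋃ V ∈ 𝒱, closure V =
          ⋃ k ∈ Finset.range (n + 1), closure (⋃₀ (𝒱 ∩ B k)) := by
        ext x
        simp only [mem_iUnion, exists_prop, Finset.mem_range]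
        constructor
        · rintro ⟨V, hV, hx⟩
          obtain ⟨k, hk, hVk⟩ := h𝒱 hV
          refine ⟨k, by omega, ?_⟩
          exact closure_mono (subset_sUnion_of_mem (show V ∈ 𝒱 ∩ B k from ⟨hV, hVk⟩)) hx
        · rintro ⟨k, _, hx⟩
          rw [hcp k _ inter_subset_right] at hx
          simp only [mem_iUnion, exists_prop] at hx
          obtain ⟨V, hV, hx⟩ := hx
          exact ⟨V, hV.1, hx⟩
      refine closure_minimal ?_ ?_
      · rintro x ⟨V, hV, hx⟩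
        exact mem_iUnion₂.2 ⟨V, hV, subset_closure hx⟩
      · rw [e]
        exact isClosed_biUnion_finset fun k _ => isClosed_closure
    · exact iUnion₂_subset fun V hV => closure_mono (subset_sUnion_of_mem hV)
  · intro x U hU hx
    obtain ⟨K, hK, hKc, hKU⟩ := exists_mem_nhds_isClosed_subset (hU.mem_nhds hx)
    obtain ⟨V, hV, hxV, hVK⟩ := hB.mem_nhds_iff.1 hK
    obtain ⟨n, hn⟩ := mem_iUnion.1 hV
    exact ⟨n, V, ⟨n, le_rfl, hn⟩, hxV, (closure_minimal hVK hKc).trans hKU⟩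

/-- the neighbornet of a closure-preserving family -/
private def m1as_tau {X : Type*} [TopologicalSpace X] (𝒱 : Set (Set X)) (x : X) : Set X :=
  {y | ∀ V ∈ 𝒱, x ∉ closure V → y ∉ closure V}

private lemma m1as_tnet {X : Type*} [TopologicalSpace X] {𝒱 : Set (Set X)}
    (h : ∀ 𝒲 ⊆ 𝒱, closure (⋃₀ 𝒲) = ⋃ V ∈ 𝒲, closure V) : TNet (m1as_tau 𝒱) := by
  refine ⟨fun x => ?_, fun x V _ hx => hx, fun x y hy z hz V hV hx => hz V hV (hy V hV hx)⟩
  have e : m1as_tau 𝒱 x = (⋃ V ∈ {V | V ∈ 𝒱 ∧ x ∉ closure V}, closure V)ᶜ := by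
    ext y
    simp only [m1as_tau, mem_ofPred_eq, mem_compl_iff, mem_iUnion, exists_prop, not_exists,
      not_and]
    constructor
    · rintro h V ⟨hV, hx⟩
      exact h V hV hx
    · intro h V hV hx
      exact h V ⟨hV, hx⟩
  rw [e, ← h _ (fun V hV => hV.1)]
  exact isClosed_closure.isOpen_compl

/-- the pieces -/
private def m1as_I {X : Type*} [TopologicalSpace X] (D : Strat X) (τ : X → Set X) (m : ℕ) :
    Set (Set X) :=
  {I | ∃ N ∈ D.net (Nat.unpair m).1, ∃ N' ∈ D.net (Nat.unpair m).2, I = N' ∩ Mt τ N}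

private lemma m1as_dis {X : Type*} [TopologicalSpace X] (D : Strat X) (τ : X → Set X) (m : ℕ) :
    ∀ I ∈ m1as_I D τ m, ∀ I' ∈ m1as_I D τ m, I ≠ I' → Disjoint I I' := by
  rintro I ⟨N, hN, N', hN', rfl⟩ I' ⟨M, hM, M', hM', rfl⟩ hne
  rw [disjoint_left]
  rintro x ⟨h1, h2⟩ ⟨h3, h4⟩
  apply hne
  have e1 : N = M := V_disjoint D hN hM (D.V_sub _ N hN h2.1) (D.V_sub _ M hM h4.1)
  have e2 : N' = M' := V_disjoint D hN' hM' (D.V_sub _ N' hN' h1) (D.V_sub _ M' hM' h3)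
  rw [e1, e2]

private lemma m1as_cl {X : Type*} [TopologicalSpace X] (D : Strat X) {τ : X → Set X}
    (hτ : TNet τ) (m : ℕ) : ∀ 𝒥 ⊆ m1as_I D τ m, IsClosed (⋃₀ 𝒥) := by
  intro 𝒥 h𝒥
  refine m1as_closed ?_ ?_
  · intro I hI
    obtain ⟨N, hN, N', hN', rfl⟩ := h𝒥 hI
    exact (D.net_closed _ N' hN').inter (isClosed_Mt hτ (D.net_closed _ N hN))
  · intro z
    obtain ⟨O₁, ho1, hz1, h1⟩ := D.V_disc (Nat.unpair m).1 z
    obtain ⟨O₂, ho2, hz2, h2⟩ := D.V_disc (Nat.unpair m).2 z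
    refine ⟨O₁ ∩ O₂, ho1.inter ho2, ⟨hz1, hz2⟩, ?_⟩
    intro I hI I' hI'
    obtain ⟨N, hN, N', hN', rfl⟩ := h𝒥 hI
    obtain ⟨M, hM, M', hM', rfl⟩ := h𝒥 hI'
    rintro ⟨x, ⟨hx1, hx2⟩, hx3, hx4⟩ ⟨y, ⟨hy1, hy2⟩, hy3, hy4⟩
    have e1 : N = M := h1 N hN M hM ⟨x, D.V_sub _ N hN hx2.1, hx3⟩ ⟨y, D.V_sub _ M hM hy2.1, hy3⟩
    have e2 : N' = M' := h2 N' hN' M' hM' ⟨x, D.V_sub _ N' hN' hx1, hx4⟩
      ⟨y, D.V_sub _ M' hM' hy1, hy4⟩
    rw [e1, e2]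

private lemma m1as_J {X : Type*} [TopologicalSpace X] [T3Space X] (D : Strat X) {τ : X → Set X}
    (hτ : TNet τ) (n : ℕ) (e : X) :
    ∃ J : Set X, IsOpen J ∧ e ∈ J ∧ closure J ⊆ D.g n e ∧
      ∀ (k : ℕ) (N : Set X), N ∈ D.net k → ∀ z ∈ Mt τ N, z ∈ closure J →
        z ∈ closure (Mt τ N ∩ J) := by
  have hn := normal D
  obtain ⟨J, h1, h2, h3, h4⟩ := gen (m1as_I D τ) (m1as_dis D τ) (m1as_cl D hτ)
    (isClosed_singleton (x := e)) (D.g_open n e) (singleton_subset_iff.2 (D.g_self n e))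
  refine ⟨J, h1, h2 rfl, h3, fun k N hN z hz hzJ => h4 _ z hz hzJ fun O hO hzO => ?_⟩
  obtain ⟨k', N', hN', hz', hN'O⟩ := D.net_spec z O hO hzO
  refine ⟨Nat.pair k k', N' ∩ Mt τ N, ⟨N, ?_, N', ?_, rfl⟩, ⟨hz', hz⟩, ?_⟩
  · rw [Nat.unpair_pair]
    exact hN
  · rw [Nat.unpair_pair]
    exact hN'
  · exact fun x hx => ⟨hx.2, hN'O hx.1⟩

theorem as_of_hasM1 {X : Type*} [TopologicalSpace X] [T3Space X] (D : Strat X) (h : HasM1 X)
    (e : X) : AS e := by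
  classical
  obtain ⟨B, hBo, hBc, hBb⟩ := m1as_incr h
  have hτ : ∀ n, TNet (m1as_tau (B n)) := fun n => m1as_tnet (hBc n)
  choose J hJo hJe hJg hJs using fun n => m1as_J D (hτ n) n e
  obtain ⟨ν, hν⟩ : ∃ ν : Set X → ℕ, ∀ U, IsOpen U → e ∈ U →
      ∃ V ∈ B (ν U), e ∈ V ∧ closure V ⊆ U := by
    have h1 : ∀ U : Set X, ∃ n : ℕ, IsOpen U → e ∈ U → ∃ V ∈ B n, e ∈ V ∧ closure V ⊆ U := by
      intro U
      by_cases hU : IsOpen U ∧ e ∈ U
      · obtain ⟨n, hn⟩ := hBb e U hU.1 hU.2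
        exact ⟨n, fun _ _ => hn⟩
      · exact ⟨0, fun a b => absurd ⟨a, b⟩ hU⟩
    choose ν hν using h1
    exact ⟨ν, hν⟩
  obtain ⟨Y, hY⟩ : ∃ Y : Set X → Set X, ∀ U, Y U =
      ⋃ V ∈ {V | V ∈ B (ν U) ∧ closure V ⊆ U}, closure V := ⟨_, fun U => rfl⟩
  have hYm : ∀ U z, z ∈ Y U ↔ ∃ V ∈ B (ν U), closure V ⊆ U ∧ z ∈ closure V := by
    intro U z
    rw [hY]
    simp only [mem_iUnion, exists_prop, mem_ofPred_eq]
    constructor
    · rintro ⟨V, ⟨h1, h2⟩, h3⟩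
      exact ⟨V, h1, h2, h3⟩
    · rintro ⟨V, h1, h2, h3⟩
      exact ⟨V, ⟨h1, h2⟩, h3⟩
  have hYc : ∀ U, IsClosed (Y U) := by
    intro U
    rw [hY, ← hBc (ν U) _ (fun V hV => hV.1)]
    exact isClosed_closure
  have hPe : ∀ U, IsOpen U → e ∈ U → e ∈ closure (J (ν U)) ∩ Y U := by
    intro U hU he
    obtain ⟨V, hV, heV, hVU⟩ := hν U hU he
    exact ⟨subset_closure (hJe _), (hYm U e).2 ⟨V, hV, hVU, subset_closure heV⟩⟩
  refine ⟨fun U => closure (J (ν U)) ∩ Y U, fun U hU he => ⟨hPe U hU he, ?_, ?_⟩, fun z => ?_⟩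
  · rintro z ⟨_, hz⟩
    obtain ⟨V, _, h1, h2⟩ := (hYm U z).1 hz
    exact h1 h2
  · refine Subset.antisymm ?_ ?_
    · exact closure_minimal interior_subset (isClosed_closure.inter (hYc U))
    · rintro z ⟨hzJ, hzY⟩
      obtain ⟨V₀, hV₀, hV₀U, hzV₀⟩ := (hYm U z).1 hzY
      obtain ⟨k, N, hN, hzN⟩ := exists_Mt D (hτ (ν U)) z
      rw [mem_closure_iff]
      intro O hO hzO
      obtain ⟨x, hxO, hxM, hxJ⟩ :=
        mem_closure_iff.1 (hJs (ν U) k N hN z hzN hzJ) O hO hzO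
      have hxV : x ∈ closure V₀ := by
        by_contra hx
        exact hxM.2 hzN.1 V₀ hV₀ hx hzV₀
      obtain ⟨y, ⟨hyO, hyJ⟩, hyV⟩ :=
        mem_closure_iff.1 hxV (O ∩ J (ν U)) (hO.inter (hJo _)) ⟨hxO, hxJ⟩
      refine ⟨y, hyO, mem_interior.2 ⟨J (ν U) ∩ V₀, ?_, (hJo _).inter (hBo _ V₀ hV₀), hyJ, hyV⟩⟩
      rintro w ⟨hw1, hw2⟩
      exact ⟨subset_closure hw1, (hYm U w).2 ⟨V₀, hV₀, hV₀U, subset_closure hw2⟩⟩
  · by_cases hze : z = e
    · refine ⟨univ, isOpen_univ, mem_univ z, fun U hU he hz => ?_⟩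
      rw [hze] at hz
      exact absurd (hPe U hU he) hz
    · obtain ⟨n₀, O₀, hO₀, hzO₀, hd⟩ := D.g_spec {e} z isClosed_singleton hze
      obtain ⟨O', hO'⟩ : ∃ O' : ℕ → Set X, ∀ n, IsOpen (O' n) ∧ z ∈ O' n ∧
          O' n ⊆ m1as_tau (B n) z ∧ (z ∉ closure (J n) → Disjoint (closure (J n)) (O' n)) := by
        have h1 : ∀ n, ∃ O : Set X, IsOpen O ∧ z ∈ O ∧
          O ⊆ m1as_tau (B n) z ∧ (z ∉ closure (J n) → Disjoint (closure (J n)) O) := by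
          intro n
          by_cases hz : z ∈ closure (J n)
          · exact ⟨m1as_tau (B n) z, (hτ n).isOpen z, (hτ n).self z, Subset.rfl,
              fun h => absurd hz h⟩
          · refine ⟨m1as_tau (B n) z ∩ (closure (J n))ᶜ,
              ((hτ n).isOpen z).inter isClosed_closure.isOpen_compl, ⟨(hτ n).self z, hz⟩,
              inter_subset_left, fun _ => ?_⟩
            rw [disjoint_left]
            exact fun x h1 h2 => h2.2 h1
        choose O' hO' using h1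
        exact ⟨O', hO'⟩
      refine ⟨O₀ ∩ ⋂ n ∈ Finset.range n₀, O' n,
        hO₀.inter (isOpen_biInter_finset fun n _ => (hO' n).1),
        ⟨hzO₀, mem_iInter₂.2 fun n _ => (hO' n).2.1⟩, fun U hU he hz => ?_⟩
      rw [disjoint_left]
      rintro x ⟨hxJ, hxY⟩ ⟨hx0, hxI⟩
      by_cases hn : n₀ ≤ ν U
      · exact disjoint_left.1 (hd e rfl (ν U) hn) (hJg _ hxJ) hx0
      · have hxO := mem_iInter₂.1 hxI (ν U) (Finset.mem_range.2 (by omega))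
        by_cases hzJ : z ∈ closure (J (ν U))
        · obtain ⟨V, hV, hVU, hxV⟩ := (hYm U x).1 hxY
          have hzV : z ∉ closure V := fun h => hz ⟨hzJ, (hYm U z).2 ⟨V, hV, hVU, h⟩⟩
          exact (hO' (ν U)).2.2.1 hxO V hV hzV hxV
        · exact disjoint_left.1 ((hO' (ν U)).2.2.2 hzJ) hxJ hxO

end Pool.Agent.H51.SU
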