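import Pool.Agent.H51.SU.Defs

/-!
# Module OPENSUB: open subspaces of M₁-spaces

Proof. `f : Y → X` is an open embedding, `B n` the families of `HasM1 X`. Put
`B' n = {f ⁻¹' V : V ∈ B n, V ⊆ range f}`. It is a base of `Y`: for `y ∈ U` open, `f '' U` is open,
so `f y ∈ V ⊆ f '' U` for some `V ∈ B n`; then `y ∈ f ⁻¹' V ⊆ U`. Closure-preserving: let
`𝒱 ⊆ B' n`, `𝒲 = {V ∈ B n | V ⊆ range f ∧ f ⁻¹' V ∈ 𝒱}`. For `V ∈ 𝒲`, `f '' (f ⁻¹' V) = V`,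
so `closure (f ⁻¹' V) = f ⁻¹' (closure V)` (`IsOpenMap.preimage_closure_eq_closure_preimage` or
`closure_eq_preimage_closure_image`), and `closure (⋃₀ 𝒱) = f ⁻¹' (closure (⋃₀ 𝒲)) =
f ⁻¹' (⋃ V ∈ 𝒲, closure V) = ⋃ V ∈ 𝒱, closure V`.
-/

set_option autoImplicit false
open Topology Set

namespace Pool.Agent.H51.SU

open Pool.Agent.H51.CI

theorem hasM1_of_isOpenEmbedding {X Y : Type*} [TopologicalSpace X] [TopologicalSpace Y]
    {f : Y → X} (hf : IsOpenEmbedding f) (h : HasM1 X) : HasM1 Y := by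
  obtain ⟨B, hB, hCP⟩ := h
  have hclos : ∀ s : Set X, f ⁻¹' closure s = closure (f ⁻¹' s) := fun s =>
    hf.isOpenMap.preimage_closure_eq_closure_preimage hf.continuous s
  refine ⟨fun n => {U | ∃ V ∈ B n, V ⊆ range f ∧ f ⁻¹' V = U}, ?_, ?_⟩
  · refine TopologicalSpace.isTopologicalBasis_of_isOpen_of_nhds ?_ ?_
    · intro U hU
      obtain ⟨n, V, hV, -, rfl⟩ := mem_iUnion.1 hU
      exact (hB.isOpen (mem_iUnion.2 ⟨n, hV⟩)).preimage hf.continuous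
    · intro y U hyU hU
      obtain ⟨V, hV, hyV, hVU⟩ := hB.exists_subset_of_mem_open (mem_image_of_mem f hyU)
        (hf.isOpenMap U hU)
      obtain ⟨n, hVn⟩ := mem_iUnion.1 hV
      refine ⟨f ⁻¹' V, mem_iUnion.2 ⟨n, V, hVn, hVU.trans (image_subset_range f U), rfl⟩, hyV, ?_⟩
      intro z hz
      obtain ⟨w, hw, hwz⟩ := hVU hz
      rwa [← hf.injective hwz]
  · intro n 𝒱 h𝒱
    have h1 : ⋃₀ 𝒱 = f ⁻¹' ⋃₀ {V ∈ B n | V ⊆ range f ∧ f ⁻¹' V ∈ 𝒱} := by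
      ext y
      simp only [mem_sUnion, mem_preimage, mem_ofPred_eq]
      constructor
      · rintro ⟨U, hU, hyU⟩
        obtain ⟨V, hV, hVr, rfl⟩ := h𝒱 hU
        exact ⟨V, ⟨hV, hVr, hU⟩, hyU⟩
      · rintro ⟨V, ⟨hV, hVr, hU⟩, hyV⟩
        exact ⟨f ⁻¹' V, hU, hyV⟩
    rw [h1, ← hclos, hCP n _ (fun V hV => hV.1)]
    ext y
    simp only [mem_iUnion, mem_preimage, mem_ofPred_eq, exists_prop]
    constructor
    · rintro ⟨V, ⟨hV, hVr, hU⟩, hyV⟩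
      refine ⟨f ⁻¹' V, hU, ?_⟩
      rw [← hclos]
      exact hyV
    · rintro ⟨U, hU, hyU⟩
      obtain ⟨V, hV, hVr, rfl⟩ := h𝒱 hU
      rw [← hclos] at hyU
      exact ⟨V, ⟨hV, hVr, hU⟩, hyU⟩

end Pool.Agent.H51.SU
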