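import Pool.Agent.H51.SU.Defs

/-!
# Module RI2R: the insertion property implies M₁

Proof. Let `A` be closed; we show `HasR A` and use `hasM1_of_hasR`. Index type
`ι = {U : Set X // IsOpen U ∧ A ⊆ U}` (in `Type u`). `F U = Uᶜ` (closed),
`U' U = ⋃ y ∈ Uᶜ, D.T A y` (open, contains `Uᶜ`). `IPI univ U'`: for `z ∉ A` the set `O = D.T A z`
works (if `z ∈ D.T A y` then `D.T A z ⊆ D.T A y`); for `z ∈ A` no `U' U` contains `z`
(`(D.T_tn A hA).disj`), take `O = univ`. `RIn univ` gives `W U`. Let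
`R U = (W ⟨U, _⟩)ᶜ` if `IsOpen U ∧ A ⊆ U` (and `∅` otherwise).
* `A ⊆ interior (R U)`: for `a ∈ A`, `(D.T_tn A hA).pw a _ Uᶜ` gives
  `a ∉ closure (⋃ y ∈ Uᶜ, D.T A y) ⊇ closure (W U)`, and `(closure (W U))ᶜ ⊆ interior (R U)`.
* `R U ⊆ U` as `Uᶜ ⊆ W U`.
* `closure (interior (R U)) = R U`: `⊆` as `W U` is open; `⊇`: `x ∉ W U`, so by `RegIn univ` every
  open `O ∋ x` contains a point `y ∉ closure (W U)`, and `y ∈ interior (R U)`.
* the second part of `HasR` is `IPI univ W`: if `z ∈ W U` then `O ⊆ W U`.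
-/

set_option autoImplicit false
open Topology Set

namespace Pool.Agent.H51.SU

open Pool.Agent.H51.CI

universe u

theorem hasR_of_rIn {X : Type u} [TopologicalSpace X] (D : Strat X)
    (h : RIn (univ : Set X)) {A : Set X} (hA : IsClosed A) : HasR A := by
  classical
  have hT := D.T_tn A hA
  obtain ⟨W, hW, hIP⟩ := h {U : Set X // IsOpen U ∧ A ⊆ U} (fun U => (U.1)ᶜ)
    (fun U => ⋃ y ∈ (U.1)ᶜ, D.T A y)
    (fun U => ⟨U.1ᶜ, U.2.1.isClosed_compl, (inter_univ _).symm⟩)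
    (fun U => ⟨⋃ y ∈ (U.1)ᶜ, D.T A y,
      isOpen_biUnion fun y (hy : y ∈ (U.1)ᶜ) => hT.isOpen y fun h => hy (U.2.2 h),
      (inter_univ _).symm⟩)
    (fun U y hy => mem_iUnion₂.2 ⟨y, hy, hT.self y fun h => hy (U.2.2 h)⟩)
    (by
      intro z _
      by_cases hz : z ∈ A
      · refine ⟨univ, isOpen_univ, mem_univ z, fun U hzU => ?_⟩
        obtain ⟨y, hy, hzy⟩ := mem_iUnion₂.1 hzU
        exact absurd hz (disjoint_left.1 (hT.disj y fun h => hy (U.2.2 h)) hzy)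
      · refine ⟨D.T A z, hT.isOpen z hz, hT.self z hz, fun U hzU => ?_⟩
        obtain ⟨y, hy, hzy⟩ := mem_iUnion₂.1 hzU
        rintro w ⟨hw, -⟩
        exact mem_iUnion₂.2 ⟨y, hy, hT.trans y (fun h => hy (U.2.2 h)) z hzy hw⟩)
  refine ⟨fun U => if hU : IsOpen U ∧ A ⊆ U then (W ⟨U, hU⟩)ᶜ else ∅, ?_, ?_⟩
  · intro U hU hAU
    have hU' : IsOpen U ∧ A ⊆ U := ⟨hU, hAU⟩
    simp only [dif_pos hU']
    obtain ⟨h1, h2, h3, h4⟩ := hW ⟨U, hU'⟩
    have hWo : IsOpen (W ⟨U, hU'⟩) := isOpen_of_relO_univ h1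
    refine ⟨?_, ?_, ?_⟩
    · intro a ha
      have := hT.pw a ha Uᶜ (disjoint_left.2 fun y hy hyA => hy (hAU hyA))
        (by rw [hU.isClosed_compl.closure_eq]; exact fun h => h (hAU ha))
      rw [interior_compl]
      exact fun hc => this (closure_mono h3 hc)
    · intro y hy
      by_contra hyU
      exact hy (h2 hyU)
    · rw [interior_compl]
      refine Subset.antisymm ?_ ?_
      · exact closure_minimal (compl_subset_compl.2 subset_closure) hWo.isClosed_compl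
      · intro x hx
        rw [mem_closure_iff]
        intro O hO hxO
        obtain ⟨y, hyO, -, hy⟩ := h4 x (mem_univ x) hx O hO hxO
        exact ⟨y, hyO, hy⟩
  · intro z
    obtain ⟨O, hO, hzO, h'⟩ := hIP z (mem_univ z)
    refine ⟨O, hO, hzO, fun U hU hAU hz => ?_⟩
    have hU' : IsOpen U ∧ A ⊆ U := ⟨hU, hAU⟩
    simp only [dif_pos hU'] at hz ⊢
    rw [disjoint_left]
    intro w hw hwO
    exact hw (h' ⟨U, hU'⟩ (not_not.1 hz) ⟨hwO, mem_univ w⟩)

theorem hasM1_of_rIn {X : Type u} [TopologicalSpace X] (D : Strat X)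
    (h : RIn (univ : Set X)) : HasM1 X :=
  hasM1_of_hasR D fun _ hA => hasR_of_rIn D h hA

end Pool.Agent.H51.SU
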