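import Pool.Agent.H51.SU.Defs

/-!
# Module SUB: the insertion property of subspaces

Proof. `f : Y → X` is an embedding, `S : Set Y`. `RelO S (f ⁻¹' W ∩ S)` etc.
(→) Let `RIn S` and let `F`, `U` be given for `f '' S` (sets `F i = A ∩ f '' S`,
`U i = O ∩ f '' S`). Put `F' i = f ⁻¹' (F i) ∩ S = f ⁻¹' A ∩ S` (relatively closed),
`U' i = f ⁻¹' (U i) ∩ S` (relatively open), `IPI S U'` (preimages of the neighbourhoods). Let `W'`
be given by `RIn S` and `W i = f '' (W' i)`. `W' i = O' ∩ S` with `O'` open in `Y`,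
`O' = f ⁻¹' O''` (`hf.isInducing.isOpen_iff`), so `W i = O'' ∩ f '' S`. `F i ⊆ W i ⊆ U i` clear.
`RegIn`: `x = f s`, `f s ∉ W i`, so `s ∉ W' i`; for an open `O ∋ x` there is `y ∈ f ⁻¹' O ∩ S`
with `y ∉ closure (W' i)`, and `f y ∉ closure (f '' W' i)` because
`closure (W' i) = f ⁻¹' (closure (f '' (W' i)))` (`hf.closure_eq_preimage_closure_image`).
`IPI (f '' S) W`: similar.
(←) Let `RIn (f '' S)` and `F`, `U` be given for `S`. Put `F' i = f '' (F i)`, `U' i = f '' (U i)`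
(relatively closed/open in `f '' S` as above, using `hf.isInducing.isClosed_iff`), apply
`RIn (f '' S)` and take `W i = f ⁻¹' (W' i)`.
-/

set_option autoImplicit false
open Topology Set

namespace Pool.Agent.H51.SU

open Pool.Agent.H51.CI

universe u

private lemma relO_image {X Y : Type u} [TopologicalSpace X] [TopologicalSpace Y] {f : Y → X}
    (hf : IsEmbedding f) {S W : Set Y} (h : RelO S W) : RelO (f '' S) (f '' W) := by
  obtain ⟨O, hO, rfl⟩ := h
  obtain ⟨O', hO', rfl⟩ := hf.isInducing.isOpen_iff.1 hO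
  exact ⟨O', hO', image_preimage_inter f S O'⟩

private lemma relC_image {X Y : Type u} [TopologicalSpace X] [TopologicalSpace Y] {f : Y → X}
    (hf : IsEmbedding f) {S W : Set Y} (h : RelC S W) : RelC (f '' S) (f '' W) := by
  obtain ⟨O, hO, rfl⟩ := h
  obtain ⟨O', hO', rfl⟩ := hf.isInducing.isClosed_iff.1 hO
  exact ⟨O', hO', image_preimage_inter f S O'⟩

private lemma relO_preimage {X Y : Type u} [TopologicalSpace X] [TopologicalSpace Y] {f : Y → X}
    (hf : IsEmbedding f) {S : Set Y} {W : Set X} (h : RelO (f '' S) W) :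
    RelO S (f ⁻¹' W) := by
  obtain ⟨O, hO, rfl⟩ := h
  refine ⟨f ⁻¹' O, hO.preimage hf.continuous, ?_⟩
  rw [preimage_inter, preimage_image_eq S hf.injective]

private lemma relC_preimage {X Y : Type u} [TopologicalSpace X] [TopologicalSpace Y] {f : Y → X}
    (hf : IsEmbedding f) {S : Set Y} {W : Set X} (h : RelC (f '' S) W) :
    RelC S (f ⁻¹' W) := by
  obtain ⟨O, hO, rfl⟩ := h
  refine ⟨f ⁻¹' O, hO.preimage hf.continuous, ?_⟩
  rw [preimage_inter, preimage_image_eq S hf.injective]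

private lemma regIn_image {X Y : Type u} [TopologicalSpace X] [TopologicalSpace Y] {f : Y → X}
    (hf : IsEmbedding f) {S W : Set Y} (h : RegIn S W) : RegIn (f '' S) (f '' W) := by
  rintro _ ⟨s, hs, rfl⟩ hsW O hO hsO
  obtain ⟨y, hyO, hyS, hy⟩ := h s hs (fun h => hsW ⟨s, h, rfl⟩) (f ⁻¹' O)
    (hO.preimage hf.continuous) hsO
  refine ⟨f y, hyO, ⟨y, hyS, rfl⟩, fun hc => hy ?_⟩
  rw [hf.closure_eq_preimage_closure_image]
  exact hc

private lemma regIn_preimage {X Y : Type u} [TopologicalSpace X] [TopologicalSpace Y]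
    {f : Y → X} (hf : IsEmbedding f) {S : Set Y} {W : Set X} (h : RegIn (f '' S) W) :
    RegIn S (f ⁻¹' W) := by
  intro s hs hsW O hO hsO
  obtain ⟨O', hO', rfl⟩ := hf.isInducing.isOpen_iff.1 hO
  obtain ⟨_, hyO, ⟨y, hyS, rfl⟩, hy⟩ := h (f s) ⟨s, hs, rfl⟩ hsW O' hO' hsO
  refine ⟨y, hyO, hyS, fun hc => hy ?_⟩
  rw [hf.closure_eq_preimage_closure_image] at hc
  exact closure_mono (image_preimage_subset f W) hc

private lemma ipi_image {X Y : Type u} [TopologicalSpace X] [TopologicalSpace Y] {f : Y → X}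
    (hf : IsEmbedding f) {S : Set Y} {ι : Type u} {W : ι → Set Y} (h : IPI S W) :
    IPI (f '' S) (fun i => f '' (W i)) := by
  rintro _ ⟨s, hs, rfl⟩
  obtain ⟨O, hO, hsO, h'⟩ := h s hs
  obtain ⟨O', hO', rfl⟩ := hf.isInducing.isOpen_iff.1 hO
  refine ⟨O', hO', hsO, ?_⟩
  rintro i ⟨t, ht, hts⟩ _ ⟨hx, ⟨y, hy, rfl⟩⟩
  have hts' : t = s := hf.injective hts
  subst hts'
  exact ⟨y, h' i ht ⟨hx, hy⟩, rfl⟩

private lemma ipi_preimage {X Y : Type u} [TopologicalSpace X] [TopologicalSpace Y] {f : Y → X}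
    (hf : IsEmbedding f) {S : Set Y} {ι : Type u} {W : ι → Set X} (h : IPI (f '' S) W) :
    IPI S (fun i => f ⁻¹' (W i)) := by
  intro s hs
  obtain ⟨O, hO, hsO, h'⟩ := h (f s) ⟨s, hs, rfl⟩
  refine ⟨f ⁻¹' O, hO.preimage hf.continuous, hsO, ?_⟩
  rintro i hi y ⟨hy, hyS⟩
  exact h' i hi ⟨hy, ⟨y, hyS, rfl⟩⟩

theorem rIn_image_iff {X Y : Type u} [TopologicalSpace X] [TopologicalSpace Y] {f : Y → X}
    (hf : IsEmbedding f) (S : Set Y) : RIn (f '' S) ↔ RIn S := by
  constructor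
  · intro hS ι F U hF hU hFU hIP
    obtain ⟨W, hW, hWI⟩ := hS ι (fun i => f '' F i) (fun i => f '' U i)
      (fun i => relC_image hf (hF i)) (fun i => relO_image hf (hU i))
      (fun i => image_mono (hFU i)) (ipi_image hf hIP)
    refine ⟨fun i => f ⁻¹' W i, fun i => ?_, ipi_preimage hf hWI⟩
    obtain ⟨h1, h2, h3, h4⟩ := hW i
    refine ⟨relO_preimage hf h1, image_subset_iff.1 h2, ?_, regIn_preimage hf h4⟩
    intro x hx
    obtain ⟨s, hs, hsx⟩ := h3 hx
    rwa [← hf.injective hsx]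
  · intro hS ι F U hF hU hFU hIP
    obtain ⟨W, hW, hWI⟩ := hS ι (fun i => f ⁻¹' F i) (fun i => f ⁻¹' U i)
      (fun i => relC_preimage hf (hF i)) (fun i => relO_preimage hf (hU i))
      (fun i => preimage_mono (hFU i)) (ipi_preimage hf hIP)
    refine ⟨fun i => f '' W i, fun i => ?_, ipi_image hf hWI⟩
    obtain ⟨h1, h2, h3, h4⟩ := hW i
    refine ⟨relO_image hf h1, ?_, image_subset_iff.2 h3, regIn_image hf h4⟩
    intro x hx
    obtain ⟨s, hs, rfl⟩ := (hF i).subset hx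
    exact ⟨s, h2 hx, rfl⟩

end Pool.Agent.H51.SU
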