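import Pool.Agent.H51.SU.Lim
import Pool.Agent.H51.SU.RI2R
import Pool.Agent.H51.SU.M1AS
import Pool.Agent.H51.SU.ASRI
import Pool.Agent.H51.SU.Sub
import Pool.Agent.H51.SU.OpenSub
import Pool.Agent.H51.SU.LemB
import Pool.Agent.H51.SU.LocC
import Pool.Agent.H51.CI.ClSub

/-!
# Assembly, first part: sums, nowhere dense sets
-/

set_option autoImplicit false
open Topology Set

namespace Pool.Agent.H51.SU

open Pool.Agent.H51.CI

universe u

theorem rIn_univ_of_hasM1 {X : Type u} [TopologicalSpace X] [T3Space X] (h : HasM1 X) :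
    RIn (univ : Set X) := by
  obtain ⟨D⟩ := exists_strat_of_hasM2 (hasM2_of_hasM1 h)
  exact rIn_of_as D fun e => as_of_hasM1 D h e

theorem rIn_of_hasM1 {X : Type u} [TopologicalSpace X] [T3Space X] {G : Set X} (h : HasM1 G) :
    RIn G := by
  have h1 := (rIn_image_iff (IsEmbedding.subtypeVal (p := (· ∈ G))) univ).2
    (rIn_univ_of_hasM1 h)
  rwa [image_univ, Subtype.range_coe] at h1

theorem rIn_diff {X : Type u} [TopologicalSpace X] [T3Space X] {F K : Set X} (hK : IsClosed K)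
    (h : HasM1 F) : RIn (F \ K) := by
  let S : Set F := (Subtype.val ⁻¹' K)ᶜ
  have hS : IsOpen S := (hK.preimage continuous_subtype_val).isOpen_compl
  have h1 : HasM1 S := hasM1_of_isOpenEmbedding hS.isOpenEmbedding_subtypeVal h
  have h2 : RIn S := rIn_of_hasM1 h1
  have h3 := (rIn_image_iff (IsEmbedding.subtypeVal (p := (· ∈ F))) S).2 h2
  have h4 : Subtype.val '' S = F \ K := by
    ext x
    constructor
    · rintro ⟨y, hy, rfl⟩
      exact ⟨y.2, hy⟩
    · rintro ⟨hx, hxK⟩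
      exact ⟨⟨x, hx⟩, hxK, rfl⟩
  rwa [h4] at h3

/-- Countable sums. -/
theorem rIn_univ_of_closed {X : Type u} [TopologicalSpace X] (D : Strat X) (Y : ℕ → Set X)
    (hcl : ∀ j, IsClosed (Y j)) (hun : ∀ x, ∃ j, x ∈ Y j)
    (hR : ∀ j, RIn (Y j \ ⋃ i ∈ Finset.range j, Y i)) : RIn (univ : Set X) := by
  refine rIn_of_seq D (fun j => ⋃ i ∈ Finset.range j, Y i) (by simp)
    (fun j => isClosed_biUnion_finset fun i _ => hcl i) (fun j => ?_) (fun x => ?_) (fun j => ?_)
  · refine iUnion₂_subset fun i hi => subset_iUnion₂_of_subset i ?_ Subset.rfl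
    exact Finset.mem_range.2 (by have := Finset.mem_range.1 hi; omega)
  · obtain ⟨j, hj⟩ := hun x
    exact ⟨j + 1, mem_iUnion₂.2 ⟨j, Finset.mem_range.2 (by omega), hj⟩⟩
  · have : (⋃ i ∈ Finset.range (j + 1), Y i) \ (⋃ i ∈ Finset.range j, Y i) =
        Y j \ ⋃ i ∈ Finset.range j, Y i := by
      rw [Finset.range_add_one, Finset.set_biUnion_insert, union_sdiff_right]
    rw [this]
    exact hR j

lemma rIn_empty {X : Type u} [TopologicalSpace X] : RIn (∅ : Set X) := by
  intro ι F U hF hU hFU hI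
  exact ⟨F, fun i => ⟨⟨∅, isOpen_empty, by
    have := (hF i).subset
    rw [subset_empty_iff.1 this]; simp⟩, Subset.rfl, hFU i, fun x hx => hx.elim⟩,
    fun z hz => hz.elim⟩

/-- A closed set and its complement. -/
theorem rIn_univ_of_two {X : Type u} [TopologicalSpace X] (D : Strat X) {F : Set X}
    (hF : IsClosed F) (h1 : RIn F) (h2 : RIn Fᶜ) : RIn (univ : Set X) := by
  refine rIn_of_seq D (fun j => if j = 0 then ∅ else if j = 1 then F else univ) (by simp)
    (fun j => ?_) (fun j => ?_) (fun x => ⟨2, by simp⟩) (fun j => ?_)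
  · split_ifs
    · exact isClosed_empty
    · exact hF
    · exact isClosed_univ
  · rcases j with _ | _ | j <;> simp
  · rcases j with _ | _ | j
    · simpa using h1
    · simpa [compl_eq_univ_sdiff] using h2
    · simpa using rIn_empty

/-- If all closed nowhere dense subspaces are `M₁`, then so is the space. -/
theorem rIn_of_nowhereDense {X : Type u} [TopologicalSpace X] [T3Space X] (D : Strat X)
    (h : ∀ F : Set X, IsClosed F → interior F = ∅ → HasM1 F) : RIn (univ : Set X) := by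
  intro ι F U hF hU hFU hI
  have hτ := tnet_of_ipi hI
  set τ : X → Set X := fun x => ⋂ i ∈ {i | x ∈ U i}, U i with hτdef
  obtain ⟨σ, hσ, hστ, hcl⟩ := shr D hτ
  set O : Set X := ⋃ j, interior (Lev D σ j) with hO
  have hOo : IsOpen O := isOpen_iUnion fun j => isOpen_interior
  set C : Set X := Oᶜ with hCdef
  have hC : IsClosed C := hOo.isClosed_compl
  have hloc : ∀ x ∉ C, ∃ O, IsOpen O ∧ x ∈ O ∧ ∀ y ∈ O, x ∈ σ y ∧ x ∈ τ y := by
    intro x hx
    have hx' : x ∈ O := not_not.1 hx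
    obtain ⟨j, hj⟩ := mem_iUnion.1 hx'
    obtain ⟨V, hV, hxV, h'⟩ := locC D hσ hj
    exact ⟨V, hV, hxV, fun y hy => ⟨h' y hy, hστ y (h' y hy)⟩⟩
  have hRC : RIn C := by
    obtain ⟨D'⟩ := exists_closedSub D C hC
    have h1 : RIn (univ : Set C) := by
      refine rIn_univ_of_closed D' (fun j => Subtype.val ⁻¹' (Lev D σ j))
        (fun j => (isClosed_Lev D hσ j).preimage continuous_subtype_val)
        (fun x => exists_Lev D hσ x) (fun j => ?_)
      refine (rIn_image_iff (IsEmbedding.subtypeVal (p := (· ∈ C))) _).1 ?_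
      have h2 : Subtype.val '' ((Subtype.val ⁻¹' (Lev D σ j) : Set C) \
          ⋃ i ∈ Finset.range j, (Subtype.val ⁻¹' (Lev D σ i) : Set C)) =
          (C ∩ Lev D σ j) \ ⋃ i ∈ Finset.range j, Lev D σ i := by
        ext x
        constructor
        · rintro ⟨y, ⟨h1, h2⟩, rfl⟩
          refine ⟨⟨y.2, h1⟩, fun h3 => h2 ?_⟩
          obtain ⟨i, hi, h4⟩ := mem_iUnion₂.1 h3
          exact mem_iUnion₂.2 ⟨i, hi, h4⟩
        · rintro ⟨⟨hx, h1⟩, h2⟩
          refine ⟨⟨x, hx⟩, ⟨h1, fun h3 => h2 ?_⟩, rfl⟩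
          obtain ⟨i, hi, h4⟩ := mem_iUnion₂.1 h3
          exact mem_iUnion₂.2 ⟨i, hi, h4⟩
      rw [h2]
      refine rIn_diff (isClosed_biUnion_finset fun i _ => isClosed_Lev D hσ i)
        (h _ (hC.inter (isClosed_Lev D hσ j)) ?_)
      rw [eq_empty_iff_forall_notMem]
      intro x hx
      have hx1 : x ∈ C := (interior_subset hx).1
      exact hx1 (mem_iUnion.2 ⟨j, interior_mono inter_subset_right hx⟩)
    have h2 := (rIn_image_iff (IsEmbedding.subtypeVal (p := (· ∈ C))) univ).2 h1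
    rwa [image_univ, Subtype.range_coe] at h2
  obtain ⟨W, hW, hWI⟩ := lemB D hC hσ hτ hστ hcl hloc hRC F
    (fun i => isClosed_of_relC_univ (hF i))
  refine ⟨W, fun i => ⟨(hW i).1, (hW i).2.1, (hW i).2.2.1.trans ?_, (hW i).2.2.2⟩, hWI⟩
  refine iUnion₂_subset fun y hy => ?_
  exact biInter_subset_of_mem (show i ∈ {i | y ∈ U i} from hFU i hy)

theorem hasM1_of_nowhereDense {X : Type u} [TopologicalSpace X] [T3Space X] (D : Strat X)
    (h : ∀ F : Set X, IsClosed F → interior F = ∅ → HasM1 F) : HasM1 X :=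
  hasM1_of_rIn D (rIn_of_nowhereDense D h)

/-- Invariance. -/
theorem hasM1_image_iff {X Y : Type*} [TopologicalSpace X] [TopologicalSpace Y] {f : Y → X}
    (hf : IsEmbedding f) (S : Set Y) : HasM1 (f '' S) ↔ HasM1 S :=
  ⟨fun h => hasM1_of_isOpenEmbedding (hf.homeomorphImage S).isOpenEmbedding h,
    fun h => hasM1_of_isOpenEmbedding (hf.homeomorphImage S).symm.isOpenEmbedding h⟩

theorem hasM1_subset_open {X : Type*} [TopologicalSpace X] {F G : Set X}
    (hFG : ∃ O, IsOpen O ∧ F = O ∩ G) (h : HasM1 G) : HasM1 F := by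
  obtain ⟨O, hO, rfl⟩ := hFG
  have hS : IsOpen (Subtype.val ⁻¹' O : Set G) := hO.preimage continuous_subtype_val
  have h1 : HasM1 (Subtype.val ⁻¹' O : Set G) :=
    hasM1_of_isOpenEmbedding hS.isOpenEmbedding_subtypeVal h
  have h2 := (hasM1_image_iff (IsEmbedding.subtypeVal (p := (· ∈ G))) _).2 h1
  rwa [Subtype.image_preimage_coe, inter_comm] at h2

end Pool.Agent.H51.SU
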