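import Pool.Agent.H51.SU.Fin

/-!
# Assembly, second part: local properties and the chain
-/

set_option autoImplicit false
open Topology Set

namespace Pool.Agent.H51.SU

open Pool.Agent.H51.CI

universe u

/-- Approach systems in open subspaces. -/
theorem as_of_open {X : Type*} [TopologicalSpace X] [T1Space X] (D : Strat X) {G : Set X}
    (hG : IsOpen G) (e : G) (h : AS e) : AS (e : X) := by
  classical
  obtain ⟨B, hBc, heB, hBG⟩ := D.exists_closed_nhd G hG e e.2
  obtain ⟨P, h1, h2⟩ := h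
  have hemb := hG.isOpenEmbedding_subtypeVal
  let V : Set X → Set G := fun U => Subtype.val ⁻¹' (U ∩ interior B)
  have hV : ∀ U, IsOpen U → (e : X) ∈ U → IsOpen (V U) ∧ e ∈ V U := fun U hU heU =>
    ⟨(hU.inter isOpen_interior).preimage continuous_subtype_val, heU, heB⟩
  have hsub : ∀ U, IsOpen U → (e : X) ∈ U → Subtype.val '' P (V U) ⊆ U ∩ interior B := by
    rintro U hU heU _ ⟨x, hx, rfl⟩
    exact (h1 _ (hV U hU heU).1 (hV U hU heU).2).2.1 hx
  have hclo : ∀ U, IsOpen U → (e : X) ∈ U → IsClosed (Subtype.val '' P (V U)) := by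
    intro U hU heU
    have hPc : closure (P (V U)) = P (V U) := by
      rw [← (h1 _ (hV U hU heU).1 (hV U hU heU).2).2.2, closure_closure]
    refine isClosed_of_closure_subset fun x hx => ?_
    have hxB : x ∈ B := closure_minimal ((hsub U hU heU).trans
      (inter_subset_right.trans interior_subset)) hBc hx
    refine ⟨⟨x, hBG hxB⟩, ?_, rfl⟩
    rw [← hPc, hemb.isEmbedding.closure_eq_preimage_closure_image]
    exact hx
  refine ⟨fun U => Subtype.val '' P (V U), fun U hU heU => ⟨?_, ?_, ?_⟩, fun z => ?_⟩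
  · exact ⟨e, (h1 _ (hV U hU heU).1 (hV U hU heU).2).1, rfl⟩
  · exact (hsub U hU heU).trans inter_subset_left
  · refine Subset.antisymm (closure_minimal interior_subset (hclo U hU heU)) ?_
    rintro _ ⟨x, hx, rfl⟩
    rw [← (h1 _ (hV U hU heU).1 (hV U hU heU).2).2.2] at hx
    have h3 : (x : X) ∈ closure (Subtype.val '' interior (P (V U))) :=
      image_closure_subset_closure_image continuous_subtype_val ⟨x, hx, rfl⟩
    refine closure_mono ?_ h3
    exact interior_maximal (image_mono interior_subset)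
      (hemb.isOpenMap _ isOpen_interior)
  · by_cases hz : z ∈ G
    · obtain ⟨O, hO, hzO, h⟩ := h2 ⟨z, hz⟩
      refine ⟨Subtype.val '' O, hemb.isOpenMap _ hO, ⟨_, hzO, rfl⟩, fun U hU heU hzU => ?_⟩
      have := h (V U) (hV U hU heU).1 (hV U hU heU).2 fun h => hzU ⟨_, h, rfl⟩
      exact (disjoint_image_iff Subtype.val_injective).2 this
    · refine ⟨Bᶜ, hBc.isOpen_compl, fun h => hz (hBG h), fun U hU heU _ => ?_⟩
      exact disjoint_left.2 fun x hx hx' => hx' (interior_subset (hsub U hU heU hx).2)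

/-- Locally `M₁` spaces. -/
theorem rIn_of_locM1 {X : Type u} [TopologicalSpace X] [T3Space X] (D : Strat X)
    (h : ∀ e : X, ∃ O : Set X, IsOpen O ∧ e ∈ O ∧ HasM1 O) : RIn (univ : Set X) := by
  refine rIn_of_as D fun e => ?_
  obtain ⟨O, hO, he, h1⟩ := h e
  obtain ⟨D'⟩ := exists_strat_of_hasM2 (hasM2_of_hasM1 h1)
  exact as_of_open D hO ⟨e, he⟩ (as_of_hasM1 D' h1 _)

/-- Every nonempty closed subspace has a nonempty relatively open `M₁`-subspace. -/
theorem hasM1_of_scattered {X : Type u} [TopologicalSpace X] [T3Space X] (h2 : HasM2 X)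
    (h : ∀ F : Set X, IsClosed F → F.Nonempty →
      ∃ O : Set X, IsOpen O ∧ (O ∩ F).Nonempty ∧ HasM1 (O ∩ F : Set X)) : HasM1 X := by
  let G : Set X := ⋃₀ {O | IsOpen O ∧ HasM1 O}
  have hG : IsOpen G := isOpen_sUnion fun O hO => hO.1
  have hGR : RIn (univ : Set G) := by
    obtain ⟨D'⟩ := exists_strat_of_hasM2 (h2.subspace G)
    refine rIn_of_locM1 D' fun e => ?_
    obtain ⟨O, ⟨hO, h1⟩, heO⟩ := e.2
    refine ⟨Subtype.val ⁻¹' O, hO.preimage continuous_subtype_val, heO, ?_⟩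
    rw [← hasM1_image_iff (IsEmbedding.subtypeVal (p := (· ∈ G)))]
    have : Subtype.val '' (Subtype.val ⁻¹' O : Set G) = O := by
      rw [Subtype.image_preimage_coe]
      exact inter_eq_right.2 (subset_sUnion_of_mem ⟨hO, h1⟩)
    rwa [this]
  have hGM : HasM1 G := by
    obtain ⟨D'⟩ := exists_strat_of_hasM2 (h2.subspace G)
    exact hasM1_of_rIn D' hGR
  by_cases hne : G = univ
  · obtain ⟨D⟩ := exists_strat_of_hasM2 h2
    refine hasM1_of_rIn D (rIn_of_locM1 D fun e => ?_)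
    obtain ⟨O, ⟨hO, h1⟩, heO⟩ := hne.ge (mem_univ e)
    exact ⟨O, hO, heO, h1⟩
  · exfalso
    obtain ⟨O, hO, hOF, hM⟩ := h Gᶜ hG.isClosed_compl (nonempty_compl.2 hne)
    have hOM : HasM1 O := by
      obtain ⟨D'⟩ := exists_strat_of_hasM2 (h2.subspace O)
      refine hasM1_of_rIn D' (rIn_univ_of_two D' (F := Subtype.val ⁻¹' Gᶜ)
        (hG.isClosed_compl.preimage continuous_subtype_val) ?_ ?_)
      · refine (rIn_image_iff (IsEmbedding.subtypeVal (p := (· ∈ O))) _).1 ?_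
        rw [Subtype.image_preimage_coe]
        exact rIn_of_hasM1 hM
      · refine (rIn_image_iff (IsEmbedding.subtypeVal (p := (· ∈ O))) _).1 ?_
        rw [preimage_compl, compl_compl, Subtype.image_preimage_coe]
        have h3 := rIn_diff hO.isClosed_compl hGM
        rwa [sdiff_compl, inter_comm] at h3
    obtain ⟨x, hxO, hxG⟩ := hOF
    exact hxG ⟨O, ⟨hO, hOM⟩, hxO⟩

/-- Nowhere locally `M₁`. -/
def NL {X : Type*} [TopologicalSpace X] (Y : Set X) : Prop :=
  IsClosed Y ∧ Y.Nonempty ∧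
    ∀ O : Set X, IsOpen O → (O ∩ Y).Nonempty → ¬ HasM1 (O ∩ Y : Set X)

lemma exists_NL {X : Type u} [TopologicalSpace X] [T3Space X] (h2 : HasM2 X)
    (h : ¬ HasM1 X) : ∃ Y : Set X, NL Y := by
  by_contra hcon
  refine h (hasM1_of_scattered h2 fun F hF hne => ?_)
  by_contra h3
  refine hcon ⟨F, hF, hne, fun O hO hOF hM => h3 ⟨O, hO, hOF, hM⟩⟩

lemma NL_image {X : Type*} [TopologicalSpace X] {F : Set X} (hF : IsClosed F) {Y : Set F}
    (hY : NL Y) : NL (Subtype.val '' Y : Set X) := by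
  obtain ⟨h1, h2, h3⟩ := hY
  refine ⟨hF.isClosedEmbedding_subtypeVal.isClosedMap _ h1, h2.image _, fun O hO hne hM => ?_⟩
  refine h3 (Subtype.val ⁻¹' O) (hO.preimage continuous_subtype_val) ?_ ?_
  · obtain ⟨_, hx, y, hy, rfl⟩ := hne
    exact ⟨y, hx, hy⟩
  · rw [← hasM1_image_iff (IsEmbedding.subtypeVal (p := (· ∈ F)))]
    rwa [image_preimage_inter]

/-- Below every nowhere locally `M₁` closed set there is a nowhere dense one. -/
lemma exists_NL_below {X : Type u} [TopologicalSpace X] [T3Space X] (h2 : HasM2 X) {Y : Set X}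
    (hY : NL Y) : ∃ Z : Set X, NL Z ∧ Z ⊆ Y ∧
      ∀ O : Set X, IsOpen O → (O ∩ Y).Nonempty → (O ∩ (Y \ Z)).Nonempty := by
  have hYM : ¬ HasM1 Y := by
    intro h
    refine hY.2.2 univ isOpen_univ (by simpa using hY.2.1) ?_
    rwa [univ_inter]
  obtain ⟨D⟩ := exists_strat_of_hasM2 (h2.subspace Y)
  have h3 : ∃ F : Set Y, IsClosed F ∧ interior F = ∅ ∧ ¬ HasM1 F := by
    by_contra hcon
    refine hYM (hasM1_of_nowhereDense D fun F hF hi => ?_)
    by_contra h4
    exact hcon ⟨F, hF, hi, h4⟩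
  obtain ⟨F, hF, hi, hFM⟩ := h3
  obtain ⟨Z, hZ⟩ := exists_NL ((h2.subspace Y).subspace F) hFM
  refine ⟨Subtype.val '' (Subtype.val '' Z), NL_image hY.1 (NL_image hF hZ), ?_,
    fun O hO hne => ?_⟩
  · rintro _ ⟨y, _, rfl⟩
    exact y.2
  · obtain ⟨x, hxO, hxY⟩ := hne
    have h4 : (⟨x, hxY⟩ : Y) ∉ interior F := by rw [hi]; exact fun h => h
    have h5 : ∃ y : Y, (y : X) ∈ O ∧ y ∉ F := by
      by_contra hcon
      push Not at hcon
      exact h4 (mem_interior.2 ⟨Subtype.val ⁻¹' O, fun y hy => hcon y hy,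
        hO.preimage continuous_subtype_val, hxO⟩)
    obtain ⟨y, hyO, hyF⟩ := h5
    refine ⟨y, hyO, y.2, ?_⟩
    rintro ⟨y', ⟨z, _, hz⟩, hy'⟩
    have : y' = y := Subtype.val_injective hy'
    rw [← this, ← hz] at hyF
    exact hyF z.2

/-- The chain. -/
theorem exists_chain {X : Type u} [TopologicalSpace X] [T3Space X] (h2 : HasM2 X)
    (h : ¬ HasM1 X) : ∃ Y : ℕ → Set X, ∀ n, NL (Y n) ∧ Y (n + 1) ⊆ Y n ∧
      ∀ O : Set X, IsOpen O → (O ∩ Y n).Nonempty → (O ∩ (Y n \ Y (n + 1))).Nonempty := by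
  obtain ⟨Y₀, hY₀⟩ := exists_NL h2 h
  choose f hf using fun Y : {Y : Set X // NL Y} => exists_NL_below h2 Y.2
  let g : ℕ → {Y : Set X // NL Y} := fun n => Nat.rec ⟨Y₀, hY₀⟩ (fun _ Y => ⟨f Y, (hf Y).1⟩) n
  exact ⟨fun n => (g n).1, fun n => ⟨(g n).2, (hf (g n)).2.1, (hf (g n)).2.2⟩⟩

end Pool.Agent.H51.SU
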