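import Pool.Agent.H51.SU.Fin2

/-!
# Assembly, third part: outer bases, local networks, images
-/

set_option autoImplicit false
open Topology Set

namespace Pool.Agent.H51.SU

open Pool.Agent.H51.CI

universe u v

/-- `HasM1` and the operators `HasR`. -/
theorem hasR_of_hasM1 {X : Type u} [TopologicalSpace X] [T3Space X] (h : HasM1 X) {A : Set X}
    (hA : IsClosed A) : HasR A := by
  obtain ⟨D⟩ := exists_strat_of_hasM2 (hasM2_of_hasM1 h)
  exact hasR_of_rIn D (rIn_univ_of_hasM1 h) hA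

/-- Closure-preserving outer bases from the operators. -/
theorem outerBase_of_hasR {X : Type*} [TopologicalSpace X] {A : Set X} (h : HasR A) :
    ∃ 𝒱 : Set (Set X), (∀ V ∈ 𝒱, IsOpen V ∧ A ⊆ V) ∧
      (∀ U, IsOpen U → A ⊆ U → ∃ V ∈ 𝒱, V ⊆ U) ∧
      ∀ 𝒲 ⊆ 𝒱, closure (⋃₀ 𝒲) = ⋃ V ∈ 𝒲, closure V := by
  obtain ⟨R, h1, h2⟩ := h
  refine ⟨{V | ∃ U, IsOpen U ∧ A ⊆ U ∧ V = interior (R U)}, ?_, fun U hU hAU => ?_,
    fun 𝒲 h𝒲 => ?_⟩
  · rintro V ⟨U, hU, hAU, rfl⟩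
    exact ⟨isOpen_interior, (h1 U hU hAU).1⟩
  · exact ⟨_, ⟨U, hU, hAU, rfl⟩, interior_subset.trans (h1 U hU hAU).2.1⟩
  · refine Subset.antisymm (fun z hz => ?_)
      (iUnion₂_subset fun V hV => closure_mono (subset_sUnion_of_mem hV))
    by_contra hcon
    obtain ⟨O, hO, hzO, hd⟩ := h2 z
    obtain ⟨x, hxO, V, hV, hxV⟩ := mem_closure_iff.1 hz O hO hzO
    obtain ⟨U, hU, hAU, rfl⟩ := h𝒲 hV
    have hzR : z ∉ R U := by
      intro hzR
      refine hcon (mem_iUnion₂.2 ⟨_, hV, ?_⟩)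
      rw [(h1 U hU hAU).2.2]
      exact hzR
    exact disjoint_left.1 (hd U hU hAU hzR) (interior_subset hxV) hxO

/-- Local networks from outer bases of points. -/
theorem localNetwork_of_outerBase {X : Type*} [TopologicalSpace X] [T3Space X] {e : X}
    (h : ∃ 𝒱 : Set (Set X), (∀ V ∈ 𝒱, IsOpen V ∧ {e} ⊆ V) ∧
      (∀ U, IsOpen U → {e} ⊆ U → ∃ V ∈ 𝒱, V ⊆ U) ∧
      ∀ 𝒲 ⊆ 𝒱, closure (⋃₀ 𝒲) = ⋃ V ∈ 𝒲, closure V) :
    ∃ 𝒩 : Set (Set X), (∀ P ∈ 𝒩, e ∈ P ∧ closure (interior P) = P) ∧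
      (∀ U, IsOpen U → e ∈ U → ∃ P ∈ 𝒩, P ⊆ U) ∧ ∀ 𝒬 ⊆ 𝒩, IsClosed (⋃₀ 𝒬) := by
  obtain ⟨𝒱, h1, h2, h3⟩ := h
  refine ⟨closure '' 𝒱, ?_, fun U hU heU => ?_, fun 𝒬 h𝒬 => ?_⟩
  · rintro _ ⟨V, hV, rfl⟩
    obtain ⟨hVo, heV⟩ := h1 V hV
    refine ⟨subset_closure (heV rfl), ?_⟩
    refine Subset.antisymm (closure_minimal interior_subset isClosed_closure) ?_
    exact closure_mono (interior_maximal subset_closure hVo)
  · obtain ⟨K, hK, hKc, hKU⟩ := exists_mem_nhds_isClosed_subset (hU.mem_nhds heU)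
    obtain ⟨V, hV, hVK⟩ := h2 (interior K) isOpen_interior
      (by rw [singleton_subset_iff]; exact mem_interior_iff_mem_nhds.2 hK)
    exact ⟨closure V, ⟨V, hV, rfl⟩,
      (closure_minimal (hVK.trans interior_subset) hKc).trans hKU⟩
  · have e1 : ⋃₀ 𝒬 = closure (⋃₀ {V | V ∈ 𝒱 ∧ closure V ∈ 𝒬}) := by
      rw [h3 _ fun V hV => hV.1]
      ext x
      constructor
      · rintro ⟨Q, hQ, hx⟩
        obtain ⟨V, hV, rfl⟩ := h𝒬 hQ
        exact mem_iUnion₂.2 ⟨V, ⟨hV, hQ⟩, hx⟩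
      · intro hx
        obtain ⟨V, hV, hx⟩ := mem_iUnion₂.1 hx
        exact ⟨closure V, hV.2, hx⟩
    rw [e1]
    exact isClosed_closure

/-- Approach systems from local networks. -/
theorem as_of_localNetwork {X : Type*} [TopologicalSpace X] {e : X}
    (h : ∃ 𝒩 : Set (Set X), (∀ P ∈ 𝒩, e ∈ P ∧ closure (interior P) = P) ∧
      (∀ U, IsOpen U → e ∈ U → ∃ P ∈ 𝒩, P ⊆ U) ∧ ∀ 𝒬 ⊆ 𝒩, IsClosed (⋃₀ 𝒬)) : AS e := by
  classical
  obtain ⟨𝒩, h1, h2, h3⟩ := h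
  have h4 : ∀ U : Set X, ∃ P : Set X, IsOpen U → e ∈ U → P ∈ 𝒩 ∧ P ⊆ U := by
    intro U
    by_cases hU : IsOpen U ∧ e ∈ U
    · obtain ⟨P, hP⟩ := h2 U hU.1 hU.2
      exact ⟨P, fun _ _ => hP⟩
    · exact ⟨∅, fun a b => (hU ⟨a, b⟩).elim⟩
  choose P hP using h4
  refine ⟨P, fun U hU heU => ⟨(h1 _ (hP U hU heU).1).1, (hP U hU heU).2,
    (h1 _ (hP U hU heU).1).2⟩, fun z => ?_⟩
  refine ⟨(⋃₀ {Q | Q ∈ 𝒩 ∧ z ∉ Q})ᶜ, (h3 _ fun Q hQ => hQ.1).isOpen_compl, ?_,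
    fun U hU heU hz => ?_⟩
  · rintro ⟨Q, hQ, hzQ⟩
    exact hQ.2 hzQ
  · exact disjoint_left.2 fun x hx hx' => hx' ⟨P U, ⟨(hP U hU heU).1, hz⟩, hx⟩

/-- Images under closed maps such that images of nonempty open sets have nonempty interior. -/
theorem image_quasiOpen {X : Type u} {Y : Type v} [TopologicalSpace X] [TopologicalSpace Y]
    [T3Space X] (h : HasM1 X) (f : X → Y) (hc : Continuous f) (hcl : IsClosedMap f)
    (hs : Function.Surjective f)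
    (hq : ∀ V : Set X, IsOpen V → V.Nonempty → (interior (f '' V)).Nonempty) :
    T3Space Y ∧ HasM1 Y := by
  have h2 : HasM2 X := hasM2_of_hasM1 h
  have g1 : HasCPNet Y := (hasCPNet_of_hasM2 h2).image hc hcl hs
  have g3 : HasMN Y := (hasMN_of_hasM2 h2).image hc hcl hs
  have g4 : HasTN Y := (hasTN_of_hasM2 h2).image hc hcl hs
  have g6 : T1Space Y := t1Space_image hcl hs
  have g7 : RegularSpace Y := regular_of_hasMN g3
  obtain ⟨D⟩ := exists_strat g1 g3 g4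
  refine ⟨{}, hasM1_of_hasR D fun B hB => ?_⟩
  obtain ⟨R, r1, r2⟩ := hasR_of_hasM1 h (hB.preimage hc)
  have hpre : ∀ U : Set Y, B ⊆ U → f ⁻¹' B ⊆ f ⁻¹' U := fun U => preimage_mono
  -- images of open sets
  have hop : ∀ V : Set X, IsOpen V → f '' V ⊆ closure (interior (f '' V)) := by
    rintro V hV _ ⟨x, hx, rfl⟩
    rw [mem_closure_iff]
    intro O hO hxO
    obtain ⟨y, hy⟩ := hq (V ∩ f ⁻¹' O) (hV.inter (hO.preimage hc)) ⟨x, hx, hxO⟩
    have h3 := interior_subset hy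
    obtain ⟨x', hx', rfl⟩ := h3
    exact ⟨f x', hx'.2, interior_mono (image_mono inter_subset_left) hy⟩
  refine ⟨fun U => f '' R (f ⁻¹' U), fun U hU hBU => ⟨?_, ?_, ?_⟩, fun z => ?_⟩
  · obtain ⟨a1, a2, a3⟩ := r1 (f ⁻¹' U) (hU.preimage hc) (hpre U hBU)
    have hO : IsOpen (f '' (interior (R (f ⁻¹' U)))ᶜ)ᶜ :=
      (hcl _ isOpen_interior.isClosed_compl).isOpen_compl
    refine Subset.trans ?_ (interior_maximal ?_ hO)
    · rintro b hb ⟨x, hx, rfl⟩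
      exact hx (a1 hb)
    · intro y hy
      obtain ⟨x, rfl⟩ := hs y
      by_contra hcon
      exact hy ⟨x, fun hx => hcon ⟨x, interior_subset hx, rfl⟩, rfl⟩
  · obtain ⟨a1, a2, a3⟩ := r1 (f ⁻¹' U) (hU.preimage hc) (hpre U hBU)
    exact image_subset_iff.2 a2
  · obtain ⟨a1, a2, a3⟩ := r1 (f ⁻¹' U) (hU.preimage hc) (hpre U hBU)
    have hRc : IsClosed (R (f ⁻¹' U)) := by rw [← a3]; exact isClosed_closure
    refine Subset.antisymm (closure_minimal interior_subset (hcl _ hRc)) ?_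
    have h3 : f '' closure (interior (R (f ⁻¹' U))) ⊆
        closure (f '' interior (R (f ⁻¹' U))) := image_closure_subset_closure_image hc
    rw [a3] at h3
    refine h3.trans ?_
    refine closure_minimal ((hop _ isOpen_interior).trans ?_) isClosed_closure
    exact closure_mono (interior_mono (image_mono interior_subset))
  · choose O hO hxO hd using r2
    have hG : IsOpen (⋃ x ∈ f ⁻¹' {z}, O x) := isOpen_biUnion fun x _ => hO x
    refine ⟨(f '' (⋃ x ∈ f ⁻¹' {z}, O x)ᶜ)ᶜ, (hcl _ hG.isClosed_compl).isOpen_compl, ?_,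
      fun U hU hBU hz => ?_⟩
    · rintro ⟨x, hx, rfl⟩
      exact hx (mem_iUnion₂.2 ⟨x, rfl, hxO x⟩)
    · rw [disjoint_left]
      rintro _ ⟨x, hx, rfl⟩ hx'
      refine hx' ⟨x, fun hx2 => ?_, rfl⟩
      obtain ⟨x', hx'', hx3⟩ := mem_iUnion₂.1 hx2
      refine disjoint_left.1 (hd x' (f ⁻¹' U) (hU.preimage hc) (hpre U hBU) ?_) hx hx3
      intro h4
      exact hz ⟨x', h4, hx''⟩

/-- Countable sums of closed pieces. -/
theorem hasM1_of_pieces {X : Type u} [TopologicalSpace X] [T3Space X] (D : Strat X)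
    (Y : ℕ → Set X) (hcl : ∀ j, IsClosed (Y j)) (hun : ∀ x, ∃ j, x ∈ Y j)
    (hR : ∀ j, HasM1 (Y j \ ⋃ i ∈ Finset.range j, Y i : Set X)) : HasM1 X :=
  hasM1_of_rIn D (rIn_univ_of_closed D Y hcl hun fun j => rIn_of_hasM1 (hR j))

/-- Closed maps which are well behaved over the complement of a closed `M₁`-subspace. -/
theorem image_over {X : Type u} {Z : Type v} [TopologicalSpace X] [TopologicalSpace Z]
    [T3Space X] (h : HasM1 X) (f : X → Z) (hc : Continuous f) (hcl : IsClosedMap f)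
    (hs : Function.Surjective f) {Z₀ : Set Z} (hZ : IsClosed Z₀) (hM : HasM1 Z₀)
    (hq : ∀ V : Set X, IsOpen V → V.Nonempty → Disjoint V (f ⁻¹' Z₀) →
      (interior (f '' V)).Nonempty) : T3Space Z ∧ HasM1 Z := by
  have h2 : HasM2 X := hasM2_of_hasM1 h
  have g1 : HasCPNet Z := (hasCPNet_of_hasM2 h2).image hc hcl hs
  have g3 : HasMN Z := (hasMN_of_hasM2 h2).image hc hcl hs
  have g4 : HasTN Z := (hasTN_of_hasM2 h2).image hc hcl hs
  have g6 : T1Space Z := t1Space_image hcl hs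
  have g7 : RegularSpace Z := regular_of_hasMN g3
  obtain ⟨D⟩ := exists_strat g1 g3 g4
  have hT3 : T3Space Z := {}
  have hG : IsOpen Z₀ᶜ := hZ.isOpen_compl
  have hpre : IsOpen (f ⁻¹' Z₀ᶜ) := hG.preimage hc
  have hXM : HasM1 (f ⁻¹' Z₀ᶜ : Set X) :=
    hasM1_of_isOpenEmbedding hpre.isOpenEmbedding_subtypeVal h
  have hq' : ∀ V : Set (f ⁻¹' Z₀ᶜ : Set X), IsOpen V → V.Nonempty →
      (interior (Z₀ᶜ.restrictPreimage f '' V)).Nonempty := by
    rintro V hV ⟨v, hv⟩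
    have hV' : IsOpen (Subtype.val '' V : Set X) := hpre.isOpenEmbedding_subtypeVal.isOpenMap _ hV
    obtain ⟨y, hy⟩ := hq (Subtype.val '' V) hV' ⟨v, v, hv, rfl⟩ (by
      rw [disjoint_left]
      rintro _ ⟨x, _, rfl⟩ hx
      exact x.2 hx)
    have hsub : f '' (Subtype.val '' V) ⊆ Subtype.val '' (Z₀ᶜ.restrictPreimage f '' V) := by
      rintro _ ⟨_, ⟨x, hx, rfl⟩, rfl⟩
      exact ⟨_, ⟨x, hx, rfl⟩, rfl⟩
    obtain ⟨y', hy', rfl⟩ := hsub (interior_subset hy)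
    refine ⟨y', mem_interior.2 ⟨Subtype.val ⁻¹' interior (f '' (Subtype.val '' V)), fun w hw => ?_,
      isOpen_interior.preimage continuous_subtype_val, hy⟩⟩
    obtain ⟨w', hw', he⟩ := hsub (interior_subset hw)
    rwa [← Subtype.val_injective he]
  have hGM : HasM1 (Z₀ᶜ : Set Z) :=
    (image_quasiOpen hXM (Z₀ᶜ.restrictPreimage f) hc.restrictPreimage
      (hcl.restrictPreimage Z₀ᶜ) (hs.restrictPreimage Z₀ᶜ) hq').2
  exact ⟨hT3, hasM1_of_rIn D (rIn_univ_of_two D hZ (rIn_of_hasM1 hM) (rIn_of_hasM1 hGM))⟩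

end Pool.Agent.H51.SU
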