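import Pool.Agent.H51.SU.Defs

/-!
# Module LF: locally finite covers of open subspaces

Proof. Call `(n, N)` good if `N ∈ D.net n` and `N ⊆ O x` for some `x ∈ G`; choose such a point
`c n N`. Let `U4 n N = D.V n N ∩ O (c n N)` for good pairs and `U4 n N = ∅` otherwise, and
`U4' n = ⋃ N, U4 n N`, open. `H n = ⋃ {N | (n, N) good}` is closed (`isClosed_biUnion_net` with
`F N = N` for good `N` and `∅` otherwise), `H n ⊆ U4' n`, and `⋃ n, H n = G` (`D.net_spec` for the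
open sets `O x ∋ x`). Let `U3 n = interior (D.Q (H n) (U4' n))`,
`U2 n = interior (D.Q (H n) (U3 n))`, `U1 n = interior (D.Q (H n) (U2 n))`; by
`subset_interior_Q`, `isClosed_Q`, `Q_subset` we have `H n ⊆ U1 n`, `closure (U1 n) ⊆ U2 n`,
`closure (U2 n) ⊆ U3 n`, `closure (U3 n) ⊆ U4' n`. Put
`V' (n, N) = U4 n N \ ⋃ m < n, closure (U1 m)`,
`V (n, N) = (U3 n ∩ U4 n N) \ ⋃ m < n, closure (U2 m)`, `c (n, N) = c n N`.
* open: clear (finite unions).
* `closure (V s) ⊆ V' s`: let `z` be in the closure. `z ∈ closure (U3 n) ⊆ U4' n`, so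
  `z ∈ U4 n N'` for some `N'`; this open set meets `U4 n N`, so `D.V n N' ∩ D.V n N ≠ ∅` and
  `N' = N` (`V_disjoint`), `z ∈ U4 n N`. `V s` is disjoint from the open sets `U2 m`, `m < n`, so
  `z ∉ U2 m ⊇ closure (U1 m)`.
* cover: for `z ∈ G` let `n` be least with `z ∈ U3 n` (exists: `z ∈ H k ⊆ U1 k ⊆ U3 k`). Then
  `z ∉ U3 m ⊇ closure (U2 m)` for `m < n`, and `z ∈ U3 n ⊆ U4' n` gives `N` with `z ∈ U4 n N`.
* `V' s ⊆ O (c s) ⊆ G`: clear for good pairs; `V' s = ∅` for the others.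
* locally finite: `z ∈ G`, `z ∈ H k ⊆ U1 k`. `V' (n, N) ∩ U1 k = ∅` for `n > k`, and for every
  `n ≤ k` some open `O n ∋ z` meets at most one of the sets `D.V n N`, `N ∈ D.net n` (`V_disc`). So
  `U1 k ∩ ⋂ n ≤ k, O n` meets only finitely many `V' s`.
-/

set_option autoImplicit false
open Topology Set

namespace Pool.Agent.H51.SU

open Pool.Agent.H51.CI

theorem lf {X : Type*} [TopologicalSpace X] [Nonempty X] (D : Strat X) {G : Set X} (O : X → Set X)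
    (hO : ∀ x ∈ G, IsOpen (O x) ∧ x ∈ O x ∧ O x ⊆ G) :
    ∃ (V V' : ℕ × Set X → Set X) (c : ℕ × Set X → X),
      (∀ s, IsOpen (V s) ∧ IsOpen (V' s) ∧ closure (V s) ⊆ V' s) ∧
      (∀ s, (V' s).Nonempty → c s ∈ G ∧ V' s ⊆ O (c s)) ∧
      (∀ z ∈ G, ∃ s, z ∈ V s) ∧
      (∀ z ∈ G, ∃ U, IsOpen U ∧ z ∈ U ∧ {s | (V' s ∩ U).Nonempty}.Finite) := by
  classical
  let good : ℕ → Set X → Prop := fun n N => N ∈ D.net n ∧ ∃ x ∈ G, N ⊆ O x
  let c : ℕ × Set X → X := fun s =>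
    if h : good s.1 s.2 then h.2.choose else Classical.arbitrary X
  have hc : ∀ s, good s.1 s.2 → c s ∈ G ∧ s.2 ⊆ O (c s) := by
    intro s h
    have h1 : c s = h.2.choose := dif_pos h
    rw [h1]
    exact h.2.choose_spec
  let U4 : ℕ × Set X → Set X := fun s => {z | good s.1 s.2 ∧ z ∈ D.V s.1 s.2 ∧ z ∈ O (c s)}
  have hU4 : ∀ s, IsOpen (U4 s) := by
    intro s
    by_cases h : good s.1 s.2
    · have h1 : U4 s = D.V s.1 s.2 ∩ O (c s) := by
        ext z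
        exact ⟨fun hz => hz.2, fun hz => ⟨h, hz⟩⟩
      rw [h1]
      exact (D.V_open s.1 s.2 h.1).inter (hO _ (hc s h).1).1
    · have h1 : U4 s = ∅ := by
        ext z
        exact ⟨fun hz => h hz.1, fun hz => absurd hz (notMem_empty z)⟩
      rw [h1]
      exact isOpen_empty
  let F : ℕ → Set X → Set X := fun n N => {z | good n N ∧ z ∈ N}
  let H : ℕ → Set X := fun n => ⋃ N ∈ D.net n, F n N
  have hH : ∀ n, IsClosed (H n) := by
    intro n
    refine isClosed_biUnion_net D n (F n) (fun N hN => ?_) (fun N hN z hz => D.V_sub n N hN hz.2)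
    by_cases h : good n N
    · have h1 : F n N = N := by
        ext z
        exact ⟨fun hz => hz.2, fun hz => ⟨h, hz⟩⟩
      rw [h1]
      exact D.net_closed n N hN
    · have h1 : F n N = ∅ := by
        ext z
        exact ⟨fun hz => h hz.1, fun hz => absurd hz (notMem_empty z)⟩
      rw [h1]
      exact isClosed_empty
  let U4' : ℕ → Set X := fun n => ⋃ N, U4 (n, N)
  have hU4' : ∀ n, IsOpen (U4' n) := fun n => isOpen_iUnion fun N => hU4 _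
  have hHU : ∀ n, H n ⊆ U4' n := by
    intro n z hz
    obtain ⟨N, hN, hz⟩ := mem_iUnion₂.1 hz
    exact mem_iUnion.2 ⟨N, hz.1, D.V_sub n N hN hz.2, (hc (n, N) hz.1).2 hz.2⟩
  have key : ∀ (n : ℕ) (W : Set X), IsOpen W → H n ⊆ W →
      H n ⊆ interior (D.Q (H n) W) ∧ closure (interior (D.Q (H n) W)) ⊆ W := by
    intro n W hW hHW
    exact ⟨D.subset_interior_Q (hH n) hW hHW,
      (closure_minimal interior_subset (D.isClosed_Q (hH n) hHW)).trans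
        (D.Q_subset (hH n) hHW)⟩
  let U3 : ℕ → Set X := fun n => interior (D.Q (H n) (U4' n))
  let U2 : ℕ → Set X := fun n => interior (D.Q (H n) (U3 n))
  let U1 : ℕ → Set X := fun n => interior (D.Q (H n) (U2 n))
  have hU3o : ∀ n, IsOpen (U3 n) := fun n => isOpen_interior
  have hU2o : ∀ n, IsOpen (U2 n) := fun n => isOpen_interior
  have hU1o : ∀ n, IsOpen (U1 n) := fun n => isOpen_interior
  have k3 : ∀ n, H n ⊆ U3 n ∧ closure (U3 n) ⊆ U4' n := fun n => key n _ (hU4' n) (hHU n)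
  have k2 : ∀ n, H n ⊆ U2 n ∧ closure (U2 n) ⊆ U3 n := fun n => key n _ (hU3o n) (k3 n).1
  have k1 : ∀ n, H n ⊆ U1 n ∧ closure (U1 n) ⊆ U2 n := fun n => key n _ (hU2o n) (k2 n).1
  have hHG : ∀ z ∈ G, ∃ k, z ∈ H k := by
    intro z hz
    obtain ⟨n, N, hN, hzN, hNO⟩ := D.net_spec z (O z) (hO z hz).1 (hO z hz).2.1
    exact ⟨n, mem_iUnion₂.2 ⟨N, hN, ⟨hN, z, hz, hNO⟩, hzN⟩⟩
  let V' : ℕ × Set X → Set X := fun s => U4 s \ ⋃ m ∈ Set.Iio s.1, closure (U1 m)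
  let V : ℕ × Set X → Set X := fun s => (U3 s.1 ∩ U4 s) \ ⋃ m ∈ Set.Iio s.1, closure (U2 m)
  refine ⟨V, V', c, fun s => ⟨?_, ?_, ?_⟩, ?_, ?_, ?_⟩
  · exact ((hU3o s.1).inter (hU4 s)).sdiff
      ((Set.finite_Iio s.1).isClosed_biUnion fun m _ => isClosed_closure)
  · exact (hU4 s).sdiff ((Set.finite_Iio s.1).isClosed_biUnion fun m _ => isClosed_closure)
  · intro z hz
    have hz3 : z ∈ U4' s.1 := (k3 s.1).2 (closure_mono (fun y hy => hy.1.1) hz)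
    obtain ⟨N', hz4⟩ := mem_iUnion.1 hz3
    obtain ⟨y, hy, hyV⟩ := mem_closure_iff.1 hz _ (hU4 (s.1, N')) hz4
    have hN : N' = s.2 := V_disjoint D hy.1.1 hyV.1.2.1.1 hy.2.1 hyV.1.2.2.1
    subst hN
    refine ⟨hz4, fun hz1 => ?_⟩
    obtain ⟨m, hm, hz1⟩ := mem_iUnion₂.1 hz1
    obtain ⟨y', hy', hyV'⟩ := mem_closure_iff.1 hz _ (hU2o m) ((k1 m).2 hz1)
    exact hyV'.2 (mem_iUnion₂.2 ⟨m, hm, subset_closure hy'⟩)
  · rintro s ⟨y, hy⟩
    exact ⟨(hc s hy.1.1).1, fun z hz => hz.1.2.2⟩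
  · intro z hz
    obtain ⟨k, hk⟩ := hHG z hz
    have hex : ∃ n, z ∈ U3 n := ⟨k, (k3 k).1 hk⟩
    have h1 : z ∈ U3 (Nat.find hex) := Nat.find_spec hex
    obtain ⟨N, hzN⟩ := mem_iUnion.1 ((k3 (Nat.find hex)).2 (subset_closure h1))
    refine ⟨(Nat.find hex, N), ⟨h1, hzN⟩, fun hz2 => ?_⟩
    obtain ⟨m, hm, hz2⟩ := mem_iUnion₂.1 hz2
    exact Nat.find_min hex hm ((k2 m).2 hz2)
  · intro z hz
    obtain ⟨k, hk⟩ := hHG z hz
    choose On hOn hzOn hOu using fun n => D.V_disc n z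
    refine ⟨U1 k ∩ ⋂ n ∈ Set.Iic k, On n, (hU1o k).inter
      ((Set.finite_Iic k).isOpen_biInter fun n _ => hOn n),
      ⟨(k1 k).1 hk, mem_iInter₂.2 fun n _ => hzOn n⟩, ?_⟩
    have hle : ∀ s : ℕ × Set X, (V' s ∩ (U1 k ∩ ⋂ n ∈ Set.Iic k, On n)).Nonempty → s.1 ≤ k := by
      rintro s ⟨y, hy, hyU, _⟩
      by_contra hlt
      exact hy.2 (mem_iUnion₂.2 ⟨k, not_le.1 hlt, subset_closure hyU⟩)
    refine Set.Finite.of_finite_image (f := Prod.fst)
      ((Set.finite_Iic k).subset ?_) ?_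
    · rintro _ ⟨s, hs, rfl⟩
      exact hle s hs
    · rintro ⟨n, N⟩ hs ⟨n', N'⟩ hs' hnn
      have hnn' : n = n' := hnn
      subst hnn'
      have hn := hle _ hs
      obtain ⟨y, hy, _, hyO⟩ := hs
      obtain ⟨y', hy', _, hyO'⟩ := hs'
      have h1 : N = N' := hOu n N hy.1.1.1 N' hy'.1.1.1
        ⟨y, hy.1.2.1, mem_iInter₂.1 hyO n hn⟩ ⟨y', hy'.1.2.1, mem_iInter₂.1 hyO' n hn⟩
      rw [h1]

end Pool.Agent.H51.SU
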