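import Pool.Agent.H51.SU.Step

/-!
# Module LIM: countable sums have the insertion property

Proof. Let `F`, `U` be given as in `RIn univ` (the `F i` are closed, `U i` open:
`isClosed_of_relC_univ`, `isOpen_of_relO_univ`). The initial state at `C 0 = ∅` is
`St ∅ F (fun _ => ∅) U F` (all fields are immediate). By recursion with `step` (define e.g. a
sequence in the subtype/structure of triples `(W, U, N)` with `St (C j) F W U N`; the step from
`j` to `j + 1` uses `RIn (C (j+1) \ C j)`) we get `Wj j`, `Uj j`, `Nj j` with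
`St (C j) F (Wj j) (Uj j) (Nj j)` and the relations of `step`. `Uj j i ⊆ U i`, `Wj j i ⊆ Uj j i`.
`W∞ i = ⋃ j, Wj j i`.
(1) `W∞ i ∩ C j = Wj j i`: `Wj k i ∩ C j = Wj j i` for `k ≥ j` by induction
    (`Wj (k+1) i ∩ C k = Wj k i`), and `Wj k i ⊆ Wj j i` for `k ≤ j`.
(2) `Nj j i ⊆ W∞ i`: let `y ∈ Nj j i` (so `y ∉ C j`) and let `k > j` be least with `y ∈ C k`
    (`⋃ C j = univ`). Then `y ∈ Nj (k-1) i` by induction (`Nj m i \ C (m+1) ⊆ Nj (m+1) i`) and
    `y ∈ C k \ C (k-1)` gives `y ∈ Wj k i`.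
(3) For `z ∈ C j` there is an open `O ∋ z` with `O ⊆ W∞ i` for all `i` with `z ∈ W∞ i`:
    `z ∈ Wj j i` by (1); take the intersection of the neighbourhood from `hcap` (so
    `O \ C j ⊆ Nj j i ⊆ W∞ i`) and the one of `IPI univ (Uj j)` (so `O ∩ C j ⊆ Uj j i ∩ C j =
    Wj j i`). This gives `IPI univ W∞` and `RelO univ (W∞ i)`.
(4) `F i ⊆ W∞ i`: `F i ∩ C j ⊆ Wj j i`. `W∞ i ⊆ U i`: clear.
(5) `RegIn univ (W∞ i)`: let `x ∉ W∞ i`, `x ∈ C j`, `O ∋ x` open. `x ∉ Wj j i`, so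
    `RegIn (C j) (Wj j i)` gives `y ∈ O ∩ C j`, `y ∉ closure (Wj j i)`, so `y ∉ closure (Uj j i)`
    (`hUcl`), and `W∞ i ⊆ Uj j i` (`Wj k i ⊆ Uj k i ⊆ Uj j i` for `k ≥ j`, `Wj k i ⊆ Wj j i` for
    `k ≤ j`).
-/

set_option autoImplicit false
open Topology Set

namespace Pool.Agent.H51.SU

open Pool.Agent.H51.CI

universe u

theorem rIn_of_seq {X : Type u} [TopologicalSpace X] (D : Strat X) (C : ℕ → Set X)
    (h0 : C 0 = ∅) (hC : ∀ j, IsClosed (C j)) (hmono : ∀ j, C j ⊆ C (j + 1))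
    (hun : ∀ x, ∃ j, x ∈ C j) (hR : ∀ j, RIn (C (j + 1) \ C j)) : RIn (univ : Set X) := by
  intro ι F U hF hU hFU hI
  have hFc : ∀ i, IsClosed (F i) := fun i => isClosed_of_relC_univ (hF i)
  have hUo : ∀ i, IsOpen (U i) := fun i => isOpen_of_relO_univ (hU i)
  have hinit : St (C 0) F (fun _ => ∅) U F := by
    refine ⟨fun i => ?_, fun i => ?_, hUo, hI, fun i => ?_, fun i => ?_, hFU, fun i => ?_,
      fun i => ?_, fun a ha => ?_⟩
    · rw [h0, inter_empty]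
    · intro x hx
      rw [h0] at hx
      exact absurd hx (notMem_empty x)
    · rw [h0, inter_empty]
      exact empty_subset _
    · rw [h0, compl_empty]
      exact ⟨F i, hFc i, (inter_univ _).symm⟩
    · exact sdiff_subset
    · rw [h0, inter_empty]
    · rw [h0] at ha
      exact absurd ha (notMem_empty a)
  obtain ⟨W, V, N, hV0, hSt, hrel⟩ : ∃ W V N : ℕ → ι → Set X, V 0 = U ∧
      (∀ j, St (C j) F (W j) (V j) (N j)) ∧ ∀ j i, W j i ⊆ W (j + 1) i ∧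
        W (j + 1) i ∩ C j = W j i ∧ V (j + 1) i ⊆ V j i ∧ N j i \ C (j + 1) ⊆ N (j + 1) i ∧
        N j i ∩ (C (j + 1) \ C j) ⊆ W (j + 1) i := by
    have hstep : ∀ (j : ℕ) (p : {p : (ι → Set X) × (ι → Set X) × (ι → Set X) //
        St (C j) F p.1 p.2.1 p.2.2}), ∃ q : {p : (ι → Set X) × (ι → Set X) × (ι → Set X) //
        St (C (j + 1)) F p.1 p.2.1 p.2.2}, ∀ i, p.1.1 i ⊆ q.1.1 i ∧
          q.1.1 i ∩ C j = p.1.1 i ∧ q.1.2.1 i ⊆ p.1.2.1 i ∧ p.1.2.2 i \ C (j + 1) ⊆ q.1.2.2 i ∧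
          p.1.2.2 i ∩ (C (j + 1) \ C j) ⊆ q.1.1 i := by
      rintro j ⟨⟨W, V, N⟩, h⟩
      obtain ⟨W', U', N', h1, h2⟩ := step D (hC j) (hC (j + 1)) (hmono j) (hR j) hFc h
      exact ⟨⟨(W', U', N'), h1⟩, h2⟩
    choose g hg using hstep
    let s : ∀ j, {p : (ι → Set X) × (ι → Set X) × (ι → Set X) //
        St (C j) F p.1 p.2.1 p.2.2} :=
      fun j => Nat.rec ⟨((fun _ => ∅), U, F), hinit⟩ (fun j p => g j p) j
    exact ⟨fun j => (s j).1.1, fun j => (s j).1.2.1, fun j => (s j).1.2.2, rfl,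
      fun j => (s j).2, fun j i => hg j (s j) i⟩
  have hCm : ∀ j k, j ≤ k → C j ⊆ C k := fun j k h => monotone_nat_of_le_succ hmono h
  have hWm : ∀ i j k, j ≤ k → W j i ⊆ W k i := fun i j k h =>
    monotone_nat_of_le_succ (f := fun j => W j i) (fun j => (hrel j i).1) h
  have hVa : ∀ i j k, j ≤ k → V k i ⊆ V j i := fun i j k h =>
    antitone_nat_of_succ_le (f := fun j => V j i) (fun j => (hrel j i).2.2.1) h
  have hWV : ∀ j i, W j i ⊆ V j i := fun j i => by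
    rw [(hSt j).hW i]
    exact inter_subset_left
  have hWC : ∀ j i, W j i ⊆ C j := fun j i => by
    rw [(hSt j).hW i]
    exact inter_subset_right
  have e1' : ∀ i j k, j ≤ k → W k i ∩ C j ⊆ W j i := by
    intro i j k hjk
    induction k, hjk using Nat.le_induction with
    | base => exact inter_subset_left
    | succ k hk ih =>
      rintro x ⟨hx1, hx2⟩
      refine ih ⟨?_, hx2⟩
      rw [← (hrel k i).2.1]
      exact ⟨hx1, hCm j k hk hx2⟩
  have e1 : ∀ i j x, x ∈ (⋃ k, W k i) → x ∈ C j → x ∈ W j i := by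
    intro i j x hx hxC
    obtain ⟨k, hk⟩ := mem_iUnion.1 hx
    rcases le_total j k with h | h
    · exact e1' i j k h ⟨hk, hxC⟩
    · exact hWm i k j h hk
  have e2 : ∀ i j, N j i ⊆ ⋃ k, W k i := by
    intro i j y hy
    obtain ⟨m, hm⟩ := hun y
    have key : ∀ m j, y ∈ N j i → y ∈ C (j + m) → y ∈ ⋃ k, W k i := by
      intro m
      induction m with
      | zero =>
        intro j h1 h2
        exact absurd h2 (((hSt j).hN i).subset h1)
      | succ m ih =>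
        intro j h1 h2
        by_cases h3 : y ∈ C (j + 1)
        · exact mem_iUnion.2 ⟨j + 1, (hrel j i).2.2.2.2 ⟨h1, h3, ((hSt j).hN i).subset h1⟩⟩
        · refine ih (j + 1) ((hrel j i).2.2.2.1 ⟨h1, h3⟩) ?_
          have : j + 1 + m = j + (m + 1) := by ring
          rw [this]
          exact h2
    exact key m j hy (hCm m (j + m) (by omega) hm)
  have e3 : ∀ z, ∃ O, IsOpen O ∧ z ∈ O ∧ ∀ i, z ∈ (⋃ k, W k i) → O ⊆ ⋃ k, W k i := by
    intro z
    obtain ⟨j, hj⟩ := hun z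
    obtain ⟨O1, hO1, hz1, h1⟩ := (hSt j).hcap z hj
    obtain ⟨O2, hO2, hz2, h2⟩ := (hSt j).hUi z (mem_univ z)
    refine ⟨O1 ∩ O2, hO1.inter hO2, ⟨hz1, hz2⟩, fun i hi w hw => ?_⟩
    have hz : z ∈ W j i := e1 i j z hi hj
    by_cases hwC : w ∈ C j
    · refine mem_iUnion.2 ⟨j, ?_⟩
      rw [(hSt j).hW i]
      exact ⟨h2 i (hWV j i hz) ⟨hw.2, mem_univ w⟩, hwC⟩
    · exact e2 i j (h1 i hz ⟨hw.1, hwC⟩)
  have e4 : ∀ i j, (⋃ k, W k i) ⊆ V j i := by
    intro i j x hx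
    obtain ⟨k, hk⟩ := mem_iUnion.1 hx
    rcases le_total j k with h | h
    · exact hVa i j k h (hWV k i hk)
    · exact hWV j i (hWm i k j h hk)
  refine ⟨fun i => ⋃ k, W k i, fun i => ⟨?_, ?_, ?_, ?_⟩, ?_⟩
  · refine relO_of_forall (subset_univ _) fun z hz => ?_
    obtain ⟨O, hO, hzO, h⟩ := e3 z
    exact ⟨O, hO, hzO, inter_subset_left.trans (h i hz)⟩
  · intro x hx
    obtain ⟨j, hj⟩ := hun x
    exact mem_iUnion.2 ⟨j, (hSt j).hFW i ⟨hx, hj⟩⟩
  · have := e4 i 0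
    rw [hV0] at this
    exact this
  · intro x _ hx O hO hxO
    obtain ⟨j, hj⟩ := hun x
    have hxW : x ∉ W j i := fun h => hx (mem_iUnion.2 ⟨j, h⟩)
    obtain ⟨y, hyO, hyC, hy⟩ := (hSt j).reg i x hj hxW O hO hxO
    refine ⟨y, hyO, mem_univ y, fun hc => hy ?_⟩
    exact (hSt j).hUcl i ⟨closure_mono (e4 i j) hc, hyC⟩
  · intro z _
    obtain ⟨O, hO, hzO, h⟩ := e3 z
    exact ⟨O, hO, hzO, fun i hi => inter_subset_left.trans (h i hi)⟩

end Pool.Agent.H51.SU
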