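import Pool.Agent.H51.SU.Shr

/-!
# Module PP

Proof. Let `τ x = ⋂ {U i : x ∈ U i}` (`tnet_of_ipi`), and `σ` the shrinking of `τ` from `shr`.
For `n : ℕ` and `w : Set X` let `q n w = ⋃ {N ∩ C : N ∈ D.net j, j ≤ n, N ∩ C ⊆ w}`: closed
(`isClosed_biUnion_net` for each `j`, finite union over `j ≤ n`), `q n w ⊆ w`. Let
`gC n = ⋃ a ∈ C, D.g n a` and
`P i = {z | z ∉ C ∧ ∃ n, z ∈ closure (⋃ y ∈ q n (W i), σ y) ∧ z ∈ closure (gC n)}`.
* `RelC Cᶜ (P i)` by `relC_of_forall`: let `z ∉ C`, `z ∉ P i`. `D.g_spec C z` gives `n₀` and an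
  open `O ∋ z` disjoint from `gC m` for all `m ≥ n₀`, hence from `closure (gC m)`. For `n < n₀`,
  `z` is not in the closed set `closure (⋃ y ∈ q n (W i), σ y) ∩ closure (gC n)`. So the
  intersection of `O` with the complements of these sets for `n < n₀` is disjoint from `P i`.
* `P i ⊆ U i`: `closure (⋃ y ∈ q n (W i), σ y) ⊆ ⋃ y ∈ q n (W i), τ y` and for
  `y ∈ q n (W i) ⊆ W i ⊆ U i` we have `τ y ⊆ U i`.
* Let `a ∈ C`. `IPI C W` gives an open `O₀ ∋ a` with `O₀ ∩ C ⊆ W i` for all `i` with `a ∈ W i`.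
  Let `N ∈ D.net j` with `a ∈ N ⊆ O₀` (`D.net_spec`). Then `a ∈ q j (W i)` for all `i` with
  `a ∈ W i`, so `O = σ a ∩ D.g j a` works: for `y ∈ O \ C` we have
  `y ∈ σ a ⊆ ⋃ y ∈ q j (W i), σ y` and `y ∈ D.g j a ⊆ gC j`.
-/

set_option autoImplicit false
open Topology Set

namespace Pool.Agent.H51.SU

open Pool.Agent.H51.CI

theorem pp {X : Type*} [TopologicalSpace X] (D : Strat X) {C : Set X} (hC : IsClosed C)
    {ι : Type*} {U W : ι → Set X} (hU : IPI univ U)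
    (hW : IPI C W) (hWC : ∀ i, W i ⊆ C) (hWU : ∀ i, W i ⊆ U i) :
    ∃ P : ι → Set X, (∀ i, RelC Cᶜ (P i) ∧ P i ⊆ U i) ∧
      ∀ a ∈ C, ∃ O, IsOpen O ∧ a ∈ O ∧ ∀ i, a ∈ W i → O \ C ⊆ P i := by
  classical
  obtain ⟨σ, hσ, hσs, hσc⟩ := shr D (tnet_of_ipi hU)
  obtain ⟨q, hq1, hq2, hq3⟩ : ∃ q : ℕ → Set X → Set X, (∀ n w, IsClosed (q n w)) ∧
      (∀ n w, q n w ⊆ w) ∧ ∀ j w, ∀ N ∈ D.net j, N ∩ C ⊆ w → N ∩ C ⊆ q j w := by
    refine ⟨fun n w => ⋃ j ∈ Finset.range (n + 1), ⋃ N ∈ D.net j,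
      if N ∩ C ⊆ w then N ∩ C else ∅, fun n w => ?_, fun n w => ?_, fun j w N hN h => ?_⟩
    · refine isClosed_biUnion_finset fun j _ => isClosed_biUnion_net D j _ (fun N hN => ?_)
        fun N hN => ?_
      · split_ifs
        · exact (D.net_closed j N hN).inter hC
        · exact isClosed_empty
      · split_ifs
        · exact inter_subset_left.trans (D.V_sub j N hN)
        · exact empty_subset _
    · refine iUnion₂_subset fun j _ => iUnion₂_subset fun N _ => ?_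
      split_ifs with h
      · exact h
      · exact empty_subset _
    · intro x hx
      refine mem_iUnion₂.2 ⟨j, Finset.mem_range.2 (by omega), mem_iUnion₂.2 ⟨N, hN, ?_⟩⟩
      rw [if_pos h]
      exact hx
  have hB : ∀ i n, IsClosed (closure (⋃ y ∈ q n (W i), σ y) ∩ closure (⋃ a ∈ C, D.g n a)) :=
    fun i n => isClosed_closure.inter isClosed_closure
  refine ⟨fun i => {z | z ∉ C ∧ ∃ n, z ∈ closure (⋃ y ∈ q n (W i), σ y) ∧
    z ∈ closure (⋃ a ∈ C, D.g n a)}, fun i => ⟨?_, ?_⟩, fun a ha => ?_⟩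
  · refine relC_of_forall (fun z hz => hz.1) fun z hz hzP => ?_
    obtain ⟨n₀, O, hO, hzO, hd⟩ := D.g_spec C z hC hz
    refine ⟨O ∩ ⋂ n ∈ Finset.range n₀, (closure (⋃ y ∈ q n (W i), σ y) ∩
      closure (⋃ a ∈ C, D.g n a))ᶜ, hO.inter (isOpen_biInter_finset fun n _ =>
        (hB i n).isOpen_compl), ⟨hzO, mem_iInter₂.2 fun n _ hc => hzP ⟨hz, n, hc⟩⟩, ?_⟩
    rw [disjoint_left]
    rintro w ⟨_, n, hw1, hw2⟩ ⟨hwO, hw3⟩
    by_cases hn : n < n₀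
    · exact mem_iInter₂.1 hw3 n (Finset.mem_range.2 hn) ⟨hw1, hw2⟩
    · obtain ⟨v, hvO, hv⟩ := mem_closure_iff.1 hw2 O hO hwO
      obtain ⟨a, ha, hva⟩ := mem_iUnion₂.1 hv
      exact disjoint_left.1 (hd a ha n (not_lt.1 hn)) hva hvO
  · rintro z ⟨_, n, hz1, _⟩
    obtain ⟨y, hy, hzy⟩ := mem_iUnion₂.1 (hσc _ (hq1 n (W i)) hz1)
    exact mem_iInter₂.1 hzy i (hWU i (hq2 n (W i) hy))
  · obtain ⟨O₀, hO₀, haO, h0⟩ := hW a ha
    obtain ⟨j, N, hN, haN, hNO⟩ := D.net_spec a O₀ hO₀ haO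
    refine ⟨σ a ∩ D.g j a, (hσ.isOpen a).inter (D.g_open j a), ⟨hσ.self a, D.g_self j a⟩,
      fun i hi y hy => ⟨hy.2, j, subset_closure ?_, subset_closure ?_⟩⟩
    · have h1 : N ∩ C ⊆ W i := (inter_subset_inter_left C hNO).trans (h0 i hi)
      exact mem_iUnion₂.2 ⟨a, hq3 j (W i) N hN h1 ⟨haN, ha⟩, hy.1.1⟩
    · exact mem_iUnion₂.2 ⟨a, ha, hy.1.2⟩

end Pool.Agent.H51.SU
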