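import Pool.Agent.H51.SU.Defs

/-!
# Module SHR: shrinking a transitive neighbornet

Proof. Let `C j = Lev D τ j` (closed `isClosed_Lev`, increasing `Lev_mono`, every point is in
some `C j`: `exists_Lev`); let `n y` be the least `j` with `y ∈ C j` (so `y ∈ C j ↔ n y ≤ j`).
For `j` and `N ∈ D.net j` choose an open set `G j N` with
`Mt τ N ⊆ G j N`, `closure (G j N) ⊆ τ x` for every `x ∈ Mt τ N`, and `closure (G j N) ⊆ D.V j N`:
if `Mt τ N` is empty take `G j N = ∅`; otherwise fix `x₀ ∈ Mt τ N` (`τ x = τ x₀` on `Mt τ N` by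
`Mt_const`), `V = τ x₀ ∩ D.V j N` is open and contains the closed set `Mt τ N`, and
`G j N = interior (D.Q (Mt τ N) V)` works (`subset_interior_Q`, `isClosed_Q`, `Q_subset`).
Define
`σ y = τ y ∩ ⋂_{j < n y} D.T (C j) y ∩ ⋂_{j ≤ n y} ⋂ {G j N : N ∈ D.net j, y ∈ G j N}`.
* Open: for each `j` at most one `N ∈ D.net j` has `y ∈ G j N` (`V_disjoint`), so it is a finite
  intersection of open sets. (E.g. `{w | ∀ N ∈ D.net j, y ∈ G j N → w ∈ G j N}` is `univ` or one
  `G j N`.) `y ∈ σ y` is clear.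
* Transitive: let `y' ∈ σ y`. For `j < n y`, `y' ∈ D.T (C j) y` is not in `C j`
  (`(D.T_tn _ _).disj`), so `n y' ≥ n y`, and `D.T (C j) y' ⊆ D.T (C j) y`. For `j ≤ n y` and
  `y ∈ G j N` we have `y' ∈ G j N` and `j ≤ n y'`, so `σ y' ⊆ G j N`.
* Closure: let `F` be closed, `z ∉ ⋃ y ∈ F, τ y`, and `m = n z`. We show
  `z ∉ closure (⋃ y ∈ F, σ y)`. (a) the points `y ∈ F` with `n y > m`: `E = F \ C m` is disjoint
  from `C m ∋ z` and `z ∉ F ⊇ closure E` (as `F ⊆ ⋃ y ∈ F, τ y`), so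
  `z ∉ closure (⋃ y ∈ E, D.T (C m) y)` by `(D.T_tn (C m) _).pw`, and `σ y ⊆ D.T (C m) y` for
  `y ∈ E`. (b) the points `y ∈ F` with `n y ≤ m`: `y ∈ Mt τ N` for some `j ≤ n y`,
  `N ∈ D.net j`, so `σ y ⊆ G j N` and `closure (G j N) ⊆ τ y`, so `z ∉ closure (G j N)`.
  For every `j ≤ m` apply `locFin` to the sets `closure (G j N)` for the `N` with
  `(Mt τ N ∩ F).Nonempty` (the empty set for the other `N`): a neighbourhood of `z` is disjoint from
  all of them. Intersect the neighbourhoods for `j ≤ m` and the one of (a).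
-/

set_option autoImplicit false
open Topology Set

namespace Pool.Agent.H51.SU

open Pool.Agent.H51.CI

private lemma shr_G {X : Type*} [TopologicalSpace X] (D : Strat X) {τ : X → Set X} (hτ : TNet τ)
    (j : ℕ) (N : Set X) (hN : N ∈ D.net j) :
    ∃ G : Set X, IsOpen G ∧ Mt τ N ⊆ G ∧ (∀ x ∈ Mt τ N, closure G ⊆ τ x) ∧
      closure G ⊆ D.V j N := by
  have hcl : IsClosed (Mt τ N) := isClosed_Mt hτ (D.net_closed j N hN)
  by_cases hne : (Mt τ N).Nonempty
  · obtain ⟨x0, hx0⟩ := hne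
    have hV : Mt τ N ⊆ τ x0 ∩ D.V j N := fun x hx =>
      ⟨by rw [← Mt_const hτ hx hx0]; exact hτ.self x, Mt_subset_V D τ hN hx⟩
    have hVo : IsOpen (τ x0 ∩ D.V j N) := (hτ.isOpen x0).inter (D.V_open j N hN)
    have hQ : closure (interior (D.Q (Mt τ N) (τ x0 ∩ D.V j N))) ⊆ τ x0 ∩ D.V j N :=
      (closure_minimal interior_subset (D.isClosed_Q hcl hV)).trans (D.Q_subset hcl hV)
    refine ⟨interior (D.Q (Mt τ N) (τ x0 ∩ D.V j N)), isOpen_interior,
      D.subset_interior_Q hcl hVo hV, ?_, ?_⟩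
    · intro x hx
      rw [Mt_const hτ hx hx0]
      exact hQ.trans inter_subset_left
    · exact hQ.trans inter_subset_right
  · refine ⟨∅, isOpen_empty, fun x hx => (hne ⟨x, hx⟩).elim, fun x hx => (hne ⟨x, hx⟩).elim, ?_⟩
    rw [closure_empty]
    exact empty_subset _

private lemma shr_open {X : Type*} [TopologicalSpace X] (D : Strat X) (G : ℕ → Set X → Set X)
    (hG1 : ∀ j, ∀ N ∈ D.net j, IsOpen (G j N))
    (hG2 : ∀ j, ∀ N ∈ D.net j, closure (G j N) ⊆ D.V j N) (y : X) (j : ℕ) :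
    IsOpen {w | ∀ N ∈ D.net j, y ∈ G j N → w ∈ G j N} := by
  by_cases h : ∃ N ∈ D.net j, y ∈ G j N
  · obtain ⟨N, hN, hy⟩ := h
    have : {w | ∀ N ∈ D.net j, y ∈ G j N → w ∈ G j N} = G j N := by
      ext w
      constructor
      · intro hw
        exact hw N hN hy
      · intro hw N' hN' hy'
        have : N' = N := V_disjoint D hN' hN (hG2 j N' hN' (subset_closure hy'))
          (hG2 j N hN (subset_closure hy))
        rw [this]
        exact hw
    rw [this]
    exact hG1 j N hN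
  · have : {w | ∀ N ∈ D.net j, y ∈ G j N → w ∈ G j N} = univ := by
      ext w
      constructor
      · intro _
        exact mem_univ w
      · intro _ N hN hy
        exact (h ⟨N, hN, hy⟩).elim
    rw [this]
    exact isOpen_univ

theorem shr {X : Type*} [TopologicalSpace X] (D : Strat X) {τ : X → Set X} (hτ : TNet τ) :
    ∃ σ : X → Set X, TNet σ ∧ (∀ x, σ x ⊆ τ x) ∧
      ∀ F : Set X, IsClosed F → closure (⋃ y ∈ F, σ y) ⊆ ⋃ y ∈ F, τ y := by
  classical
  have hGex : ∀ j N, N ∈ D.net j → ∃ G : Set X, IsOpen G ∧ Mt τ N ⊆ G ∧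
      (∀ x ∈ Mt τ N, closure G ⊆ τ x) ∧ closure G ⊆ D.V j N := fun j N hN => shr_G D hτ j N hN
  choose! G hG using hGex
  have hG1 : ∀ j, ∀ N ∈ D.net j, IsOpen (G j N) := fun j N hN => (hG j N hN).1
  have hG2 : ∀ j, ∀ N ∈ D.net j, closure (G j N) ⊆ D.V j N := fun j N hN => (hG j N hN).2.2.2
  have hn : ∃ n : X → ℕ, ∀ x j, x ∈ Lev D τ j ↔ n x ≤ j := by
    refine ⟨fun x => Nat.find (exists_Lev D hτ x), fun x j => ?_⟩
    constructor
    · intro h
      exact Nat.find_min' _ h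
    · intro h
      exact Lev_mono D τ h (Nat.find_spec (exists_Lev D hτ x))
  obtain ⟨n, hn⟩ := hn
  have hnot : ∀ x j, j < n x → x ∉ Lev D τ j := by
    intro x j h hx
    have := (hn x j).1 hx
    omega
  have hT := fun j => D.T_tn (Lev D τ j) (isClosed_Lev D hτ j)
  refine ⟨fun y => {w | w ∈ τ y ∧ (∀ j < n y, w ∈ D.T (Lev D τ j) y) ∧
    ∀ j ≤ n y, ∀ N ∈ D.net j, y ∈ G j N → w ∈ G j N}, ⟨?_, ?_, ?_⟩, ?_, ?_⟩
  · intro y
    have e : {w | w ∈ τ y ∧ (∀ j < n y, w ∈ D.T (Lev D τ j) y) ∧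
        ∀ j ≤ n y, ∀ N ∈ D.net j, y ∈ G j N → w ∈ G j N} =
        τ y ∩ ((⋂ j ∈ {j | j < n y}, D.T (Lev D τ j) y) ∩
          ⋂ j ∈ {j | j ≤ n y}, {w | ∀ N ∈ D.net j, y ∈ G j N → w ∈ G j N}) := by
      ext w
      simp only [mem_ofPred_eq, mem_inter_iff, mem_iInter]
    rw [e]
    refine (hτ.isOpen y).inter (IsOpen.inter ?_ ?_)
    · exact (Set.finite_lt_nat (n y)).isOpen_biInter fun j hj => (hT j).isOpen y (hnot y j hj)
    · exact (Set.finite_le_nat (n y)).isOpen_biInter fun j _ => shr_open D G hG1 hG2 y j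
  · intro y
    exact ⟨hτ.self y, fun j hj => (hT j).self y (hnot y j hj), fun j _ N _ h => h⟩
  · rintro x y ⟨hy1, hy2, hy3⟩ w ⟨hw1, hw2, hw3⟩
    have hlt : ∀ j < n x, j < n y := by
      intro j hj
      by_contra hc
      have h1 : y ∈ Lev D τ j := (hn y j).2 (by omega)
      exact disjoint_left.1 ((hT j).disj x (hnot x j hj)) (hy2 j hj) h1
    have hle : n x ≤ n y := by
      by_contra hc
      have := hlt (n y) (by omega)
      omega
    refine ⟨hτ.trans x y hy1 hw1, fun j hj => ?_, fun j hj N hN hxN => ?_⟩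
    · exact (hT j).trans x (hnot x j hj) y (hy2 j hj) (hw2 j (hlt j hj))
    · exact hw3 j (hj.trans hle) N hN (hy3 j hj N hN hxN)
  · intro y w hw
    exact hw.1
  · intro F hF z hz
    by_contra hzF
    have hzF' : ∀ y ∈ F, z ∉ τ y := fun y hy h => hzF (mem_iUnion₂.2 ⟨y, hy, h⟩)
    have hznF : z ∉ F := fun h => hzF' z h (hτ.self z)
    have hE : Disjoint {y | y ∈ F ∧ n z < n y} (Lev D τ (n z)) := by
      rw [disjoint_left]
      rintro y ⟨_, hy⟩ hy'
      exact hnot y _ hy hy'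
    have hzE : z ∉ closure {y | y ∈ F ∧ n z < n y} := fun h =>
      hznF (closure_minimal (fun y hy => hy.1) hF h)
    have h1 := (hT (n z)).pw z ((hn z (n z)).2 le_rfl) _ hE hzE
    have hloc : ∀ j, ∃ O, IsOpen O ∧ z ∈ O ∧ ∀ N ∈ D.net j,
        Disjoint (if (Mt τ N ∩ F).Nonempty then closure (G j N) else ∅) O := by
      intro j
      apply locFin D j z (fun N => if (Mt τ N ∩ F).Nonempty then closure (G j N) else ∅)
      · intro N hN
        split_ifs
        · exact isClosed_closure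
        · exact isClosed_empty
      · intro N hN
        split_ifs
        · exact hG2 j N hN
        · exact empty_subset _
      · intro N hN
        split_ifs with h
        · obtain ⟨y, hyM, hyF⟩ := h
          exact fun hc => hzF' y hyF ((hG j N hN).2.2.1 y hyM hc)
        · exact notMem_empty z
    choose O hO1 hO2 hO3 using hloc
    have hU : IsOpen ((closure (⋃ y ∈ {y | y ∈ F ∧ n z < n y}, D.T (Lev D τ (n z)) y))ᶜ ∩
        ⋂ j ∈ {j | j ≤ n z}, O j) :=
      isClosed_closure.isOpen_compl.inter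
        ((Set.finite_le_nat (n z)).isOpen_biInter fun j _ => hO1 j)
    obtain ⟨w, ⟨hw1, hw2⟩, hw3⟩ := mem_closure_iff.1 hz _ hU
      ⟨h1, mem_iInter₂.2 fun j _ => hO2 j⟩
    obtain ⟨y, hyF, hwy⟩ := mem_iUnion₂.1 hw3
    obtain ⟨hwy1, hwy2, hwy3⟩ := hwy
    by_cases hlt : n z < n y
    · exact hw1 (subset_closure (mem_iUnion₂.2 ⟨y, ⟨hyF, hlt⟩, hwy2 (n z) hlt⟩))
    · have hyL : y ∈ Lev D τ (n y) := (hn y (n y)).2 le_rfl
      obtain ⟨j, hj, N, hN, hyN⟩ := hyL
      have hwG : w ∈ G j N := hwy3 j hj N hN ((hG j N hN).2.1 hyN)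
      have hd := hO3 j N hN
      rw [if_pos ⟨y, hyN, hyF⟩] at hd
      exact disjoint_left.1 hd (subset_closure hwG)
        (mem_iInter₂.1 hw2 j (show j ≤ n z by omega))

end Pool.Agent.H51.SU
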