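import Pool.Agent.H51.SU.Ext
import Pool.Agent.H51.SU.PP

/-!
# Module STEP: from one closed set to the next

`St C F W U N` is the state at the closed set `C`: `W i` is the part of the solution in `C`,
`U i` is the current upper bound, `N i` is a set outside `C` which the solution has to contain.

Proof of `step`. Let `G = C' \ C`. `RIn G` applied to the relatively closed sets `N i ∩ G` (from
`RelC Cᶜ (N i)`) and the relatively open sets `U i ∩ G` (`IPI G` from `IPI univ U`) gives `WG i`: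
`RelO G (WG i)`, `N i ∩ G ⊆ WG i ⊆ U i ∩ G`, `RegIn G (WG i)`, `IPI G WG`.
Let `W' i = W i ∪ WG i`.
(0) For `a ∈ C` there is an open `O ∋ a` such that for all `i` with `a ∈ W i`: `O ∩ C ⊆ W i`
    (as `W i = U i ∩ C` and `IPI univ U`), `O \ C ⊆ N i` (`hcap`), `O ⊆ U i`; so
    `O ∩ C' ⊆ W i ∪ (N i ∩ G) ⊆ W' i`.
(a) `IPI C' W'` and `RelO C' (W' i)` (`relO_of_forall`): for `a ∈ C` from (0) (`a ∈ W' i` means
    `a ∈ W i`); for `z ∈ G`: `O ∩ G ⊆ WG i` for some open `O ∋ z` for all `i` with `z ∈ WG i`, and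
    `(O ∩ Cᶜ) ∩ C' = O ∩ G`.
(b) `RegIn C' (W' i)`: let `x ∈ C'`, `x ∉ W' i`, `O ∋ x` open. If `x ∈ G`: `RegIn G (WG i)` with
    the open set `O ∩ Cᶜ` gives `y ∈ O ∩ G`, `y ∉ closure (WG i)`, and `y ∉ closure (W i) ⊆ C`
    (`C` closed). If `x ∈ C`: `RegIn C (W i)` gives `y ∈ O ∩ C`, `y ∉ closure (W i)`, so
    `y ∉ closure (U i)` (`hUcl`), and `W' i ⊆ U i`.
(c) Let `A`, `A'` be the operators of `ext` for `C'`, and `P` the sets of `pp` for `C'`, `U`, `W'`.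
    `N' i = ((F i ∪ N i) \ C') ∪ (A' (W' i) ∩ P i)`.
    `RelC C'ᶜ (N' i)`: `F i \ C'` and `N i \ C'` are relatively closed in `C'ᶜ` (`C ⊆ C'`).
    `N' i ⊆ U i`: `F i ⊆ U i` as `F i \ C ⊆ N i ⊆ U i`, `F i ∩ C ⊆ W i ⊆ U i`.
    (cap) for `a ∈ C'` there is an open `O ∋ a` with `O \ C' ⊆ N' i` for all `i` with `a ∈ W' i`:
    let `O₀` be open with `O₀ ∩ C' ⊆ W' i` for all `i` with `a ∈ W' i` (by (a)) and apply property
    4 of `ext` with `w = O₀ ∩ C'` (if `a ∈ W' i` for some `i`; otherwise nothing to show; note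
    `a ∈ O₀ ∩ C'` always) and the property of `P`.
(d) `U' i = U i ∩ (W' i ∪ A (W' i) ∪ ⋃ y ∈ N' i, D.T C' y)`.
    `W' i = U' i ∩ C'`: `A (W' i)` and `D.T C' y` (`y ∉ C'`) are disjoint from `C'`.
    (e) `IsOpen (U' i)` and `IPI univ U'`: for `a ∈ C'` the intersection `O` of the neighbourhoods
    of `a` from (a), (cap) and `IPI univ U` satisfies `O ⊆ U' i` for all `i` with `a ∈ W' i`
    (`y ∈ D.T C' y` for `y ∈ N' i`), and `a ∈ U' i` means `a ∈ W' i`. For `z ∉ C'`: let `O₁ ∋ z` be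
    from `IPI univ U`, `O₂` from property 5 of `ext`; then
    `O = O₁ ∩ O₂ ∩ D.T C' z` satisfies `O ⊆ U' i` for all `i` with `z ∈ U' i` (if
    `z ∈ D.T C' y` then `D.T C' z ⊆ D.T C' y`). Openness follows from `IPI univ U'`.
    (f) `closure (U' i) ∩ C' ⊆ closure (W' i)`: let `a ∈ C'`, `a ∉ closure (W' i)`. Then
    `a ∉ closure (A (W' i))` (property 3), and `a ∉ closure (⋃ y ∈ N' i, D.T C' y)` by
    `(D.T_tn C' _).pw` if `a ∉ closure (N' i)`. Now `A' (W' i) ∩ P i ⊆ A (W' i)`; `F i` is closed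
    and `F i ∩ C' ⊆ W' i` (as `F i ∩ C ⊆ W i`, `F i ∩ G ⊆ N i ∩ G ⊆ WG i`), so `a ∉ closure (F i)`;
    `a ∉ closure (N i)`: if `a ∈ C` then `a ∉ closure (U i)` by `hUcl` and `N i ⊆ U i`; if
    `a ∈ G` then `a ∉ N i` (as `N i ∩ G ⊆ W' i`) and `RelC.notMem_closure`.
    (g) `N' i ⊆ U' i`: `N' i ⊆ U i` and `y ∈ D.T C' y`.
    The remaining statements are clear.
-/

set_option autoImplicit false
open Topology Set

namespace Pool.Agent.H51.SU

open Pool.Agent.H51.CI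

universe u

/-- The state at the closed set `C`. -/
structure St {X : Type*} [TopologicalSpace X] {ι : Type*} (C : Set X) (F W U N : ι → Set X) :
    Prop where
  hW : ∀ i, W i = U i ∩ C
  reg : ∀ i, RegIn C (W i)
  hU : ∀ i, IsOpen (U i)
  hUi : IPI univ U
  hUcl : ∀ i, closure (U i) ∩ C ⊆ closure (W i)
  hN : ∀ i, RelC Cᶜ (N i)
  hNU : ∀ i, N i ⊆ U i
  hFN : ∀ i, F i \ C ⊆ N i
  hFW : ∀ i, F i ∩ C ⊆ W i
  hcap : ∀ a ∈ C, ∃ O, IsOpen O ∧ a ∈ O ∧ ∀ i, a ∈ W i → O \ C ⊆ N i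

theorem step {X : Type u} [TopologicalSpace X] (D : Strat X) {C C' : Set X} (hC : IsClosed C)
    (hC' : IsClosed C') (hCC' : C ⊆ C') (hR : RIn (C' \ C)) {ι : Type u}
    {F W U N : ι → Set X} (hF : ∀ i, IsClosed (F i)) (h : St C F W U N) :
    ∃ W' U' N' : ι → Set X, St C' F W' U' N' ∧ ∀ i, W i ⊆ W' i ∧ W' i ∩ C = W i ∧
      U' i ⊆ U i ∧ N i \ C' ⊆ N' i ∧ N i ∩ (C' \ C) ⊆ W' i := by
  classical
  have hWU : ∀ i, W i ⊆ U i := fun i => by rw [h.hW i]; exact inter_subset_left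
  have hWC : ∀ i, W i ⊆ C := fun i => by rw [h.hW i]; exact inter_subset_right
  have hNC : ∀ i, N i ⊆ Cᶜ := fun i => (h.hN i).subset
  obtain ⟨WG, hWG, hWGi⟩ := hR ι (fun i => N i ∩ (C' \ C)) (fun i => U i ∩ (C' \ C))
    (fun i => by
      obtain ⟨A, hA, hAe⟩ := h.hN i
      refine ⟨A, hA, ?_⟩
      rw [hAe]
      ext x
      simp only [mem_inter_iff, mem_compl_iff, mem_diff]
      tauto)
    (fun i => relO_of_isOpen (h.hU i))
    (fun i => inter_subset_inter_left _ (h.hNU i))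
    (fun z hz => by
      obtain ⟨O, hO, hzO, hOU⟩ := h.hUi z (mem_univ z)
      exact ⟨O, hO, hzO, fun i hi x hx => ⟨hOU i hi.1 ⟨hx.1, mem_univ x⟩, hx.2⟩⟩)
  have hWGG : ∀ i, WG i ⊆ C' \ C := fun i => (hWG i).1.subset
  set W' : ι → Set X := fun i => W i ∪ WG i with hW'
  have hW'C' : ∀ i, W' i ⊆ C' := fun i => union_subset ((hWC i).trans hCC')
    ((hWGG i).trans sdiff_subset)
  have hW'U : ∀ i, W' i ⊆ U i := fun i => union_subset (hWU i)
    ((hWG i).2.2.1.trans inter_subset_left)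
  have hNW' : ∀ i, N i ∩ (C' \ C) ⊆ W' i := fun i => (hWG i).2.1.trans subset_union_right
  have h0 : ∀ a ∈ C, ∃ O, IsOpen O ∧ a ∈ O ∧ ∀ i, a ∈ W i → O ∩ C' ⊆ W' i := by
    intro a ha
    obtain ⟨O1, hO1, haO1, h1⟩ := h.hUi a (mem_univ a)
    obtain ⟨O2, hO2, haO2, h2⟩ := h.hcap a ha
    refine ⟨O1 ∩ O2, hO1.inter hO2, ⟨haO1, haO2⟩, fun i hi x hx => ?_⟩
    by_cases hxC : x ∈ C
    · left
      rw [h.hW i]
      exact ⟨h1 i (hWU i hi) ⟨hx.1.1, mem_univ x⟩, hxC⟩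
    · exact hNW' i ⟨h2 i hi ⟨hx.1.2, hxC⟩, hx.2, hxC⟩
  have hIPI : IPI C' W' := by
    intro z hz
    by_cases hzC : z ∈ C
    · obtain ⟨O, hO, hzO, h1⟩ := h0 z hzC
      refine ⟨O, hO, hzO, fun i hi => ?_⟩
      rcases hi with hi | hi
      · exact h1 i hi
      · exact absurd hzC (hWGG i hi).2
    · obtain ⟨O, hO, hzO, h1⟩ := hWGi z ⟨hz, hzC⟩
      refine ⟨O ∩ Cᶜ, hO.inter hC.isOpen_compl, ⟨hzO, hzC⟩, fun i hi x hx => ?_⟩
      rcases hi with hi | hi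
      · exact absurd (hWC i hi) hzC
      · exact Or.inr (h1 i hi ⟨hx.1.1, hx.2, hx.1.2⟩)
  have hReg : ∀ i, RegIn C' (W' i) := by
    intro i x hxC' hxW O hO hxO
    have hcu : closure (W' i) = closure (W i) ∪ closure (WG i) := closure_union
    by_cases hxC : x ∈ C
    · obtain ⟨y, hyO, hyC, hyW⟩ := h.reg i x hxC (fun hx => hxW (Or.inl hx)) O hO hxO
      refine ⟨y, hyO, hCC' hyC, fun hy => ?_⟩
      have hyU : y ∈ closure (U i) := closure_mono (hW'U i) hy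
      exact hyW (h.hUcl i ⟨hyU, hyC⟩)
    · obtain ⟨y, hyO, hyG, hyW⟩ := (hWG i).2.2.2 x ⟨hxC', hxC⟩ (fun hx => hxW (Or.inr hx))
        (O ∩ Cᶜ) (hO.inter hC.isOpen_compl) ⟨hxO, hxC⟩
      refine ⟨y, hyO.1, hyG.1, fun hy => ?_⟩
      rw [hcu] at hy
      rcases hy with hy | hy
      · exact hyG.2 (closure_minimal (hWC i) hC hy)
      · exact hyW hy
  obtain ⟨A, A', hA1, hA2, hA3, hA4, hA5⟩ := ext D hC'
  obtain ⟨P, hP1, hP2⟩ := pp D hC' h.hUi hIPI hW'C' hW'U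
  set N' : ι → Set X := fun i => ((F i ∪ N i) \ C') ∪ (A' (W' i) ∩ P i) with hN'
  have hFU : ∀ i, F i ⊆ U i := by
    intro i x hx
    by_cases hxC : x ∈ C
    · exact hWU i (h.hFW i ⟨hx, hxC⟩)
    · exact h.hNU i (h.hFN i ⟨hx, hxC⟩)
  have hFW' : ∀ i, F i ∩ C' ⊆ W' i := by
    intro i x hx
    by_cases hxC : x ∈ C
    · exact Or.inl (h.hFW i ⟨hx.1, hxC⟩)
    · exact hNW' i ⟨h.hFN i ⟨hx.1, hxC⟩, hx.2, hxC⟩
  have hRelN' : ∀ i, RelC C'ᶜ (N' i) := by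
    intro i
    refine RelC.union ?_ ((hA2 (W' i)).1.inter (hP1 i).1)
    obtain ⟨B, hB, hBe⟩ := h.hN i
    refine ⟨F i ∪ B, (hF i).union hB, ?_⟩
    rw [hBe]
    ext x
    simp only [mem_inter_iff, mem_compl_iff, mem_diff, mem_union]
    constructor
    · rintro ⟨h1 | h1, h2⟩
      · exact ⟨Or.inl h1, h2⟩
      · exact ⟨Or.inr h1.1, h2⟩
    · rintro ⟨h1 | h1, h2⟩
      · exact ⟨Or.inl h1, h2⟩
      · exact ⟨Or.inr ⟨h1, fun hc => h2 (hCC' hc)⟩, h2⟩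
  have hN'C' : ∀ i, N' i ⊆ C'ᶜ := fun i => (hRelN' i).subset
  have hN'U : ∀ i, N' i ⊆ U i := by
    intro i x hx
    rcases hx with hx | hx
    · rcases hx.1 with h1 | h1
      · exact hFU i h1
      · exact h.hNU i h1
    · exact (hP1 i).2 hx.2
  have hcap' : ∀ a ∈ C', ∃ O, IsOpen O ∧ a ∈ O ∧ ∀ i, a ∈ W' i → O \ C' ⊆ N' i := by
    intro a ha
    obtain ⟨O₀, hO₀, haO₀, h1⟩ := hIPI a ha
    obtain ⟨O1, hO1, haO1, h2⟩ := hA4 (O₀ ∩ C') ⟨O₀, hO₀, rfl⟩ a ⟨haO₀, ha⟩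
    obtain ⟨O2, hO2, haO2, h3⟩ := hP2 a ha
    refine ⟨O1 ∩ O2, hO1.inter hO2, ⟨haO1, haO2⟩, fun i hi x hx => ?_⟩
    exact Or.inr ⟨h2 (W' i) (h1 i hi) ⟨hx.1.1, hx.2⟩, h3 i hi ⟨hx.1.2, hx.2⟩⟩
  have hTn := D.T_tn C' hC'
  set U' : ι → Set X := fun i => U i ∩ (W' i ∪ A (W' i) ∪ ⋃ y ∈ N' i, D.T C' y) with hU'
  have hmemC' : ∀ i, ∀ z ∈ C', z ∈ U' i → z ∈ W' i := by
    rintro i z hz ⟨_, (h1 | h1) | h1⟩
    · exact h1
    · exact absurd hz (disjoint_left.1 (hA1 (W' i)).2.1 h1)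
    · obtain ⟨y, hy, hzy⟩ := mem_iUnion₂.1 h1
      exact absurd hz (disjoint_left.1 (hTn.disj y (hN'C' i hy)) hzy)
  have hkey : ∀ z, ∃ O, IsOpen O ∧ z ∈ O ∧ ∀ i, z ∈ U' i → O ⊆ U' i := by
    intro z
    obtain ⟨OU, hOU, hzOU, h1⟩ := h.hUi z (mem_univ z)
    by_cases hz : z ∈ C'
    · obtain ⟨Oa, hOa, hzOa, h2⟩ := hIPI z hz
      obtain ⟨Oc, hOc, hzOc, h3⟩ := hcap' z hz
      refine ⟨OU ∩ (Oa ∩ Oc), hOU.inter (hOa.inter hOc), ⟨hzOU, hzOa, hzOc⟩,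
        fun i hi x hx => ⟨h1 i hi.1 ⟨hx.1, mem_univ x⟩, ?_⟩⟩
      have hzW := hmemC' i z hz hi
      by_cases hxC : x ∈ C'
      · exact Or.inl (Or.inl (h2 i hzW ⟨hx.2.1, hxC⟩))
      · exact Or.inr (mem_iUnion₂.2 ⟨x, h3 i hzW ⟨hx.2.2, hxC⟩, hTn.self x hxC⟩)
    · obtain ⟨O2, hO2, hzO2, h2⟩ := hA5 z hz
      refine ⟨OU ∩ (O2 ∩ D.T C' z), hOU.inter (hO2.inter (hTn.isOpen z hz)),
        ⟨hzOU, hzO2, hTn.self z hz⟩, ?_⟩
      rintro i ⟨hzU, (h3 | h3) | h3⟩ x hx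
      · exact absurd (hW'C' i h3) hz
      · exact ⟨h1 i hzU ⟨hx.1, mem_univ x⟩, Or.inl (Or.inr (h2 (W' i) h3 hx.2.1))⟩
      · obtain ⟨y, hy, hzy⟩ := mem_iUnion₂.1 h3
        exact ⟨h1 i hzU ⟨hx.1, mem_univ x⟩, Or.inr (mem_iUnion₂.2 ⟨y, hy,
          hTn.trans y (hN'C' i hy) z hzy hx.2.2⟩)⟩
  refine ⟨W', U', N', ?_, fun i => ⟨subset_union_left, ?_, inter_subset_left, ?_, hNW' i⟩⟩
  · refine
      { hW := fun i => ?_
        reg := hReg
        hU := fun i => ?_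
        hUi := fun z _ => ?_
        hUcl := fun i => ?_
        hN := hRelN'
        hNU := fun i x hx => ⟨hN'U i hx, Or.inr (mem_iUnion₂.2 ⟨x, hx,
          hTn.self x (hN'C' i hx)⟩)⟩
        hFN := fun i x hx => Or.inl ⟨Or.inl hx.1, hx.2⟩
        hFW := hFW'
        hcap := hcap' }
    · refine Subset.antisymm (fun x hx => ⟨⟨hW'U i hx, Or.inl (Or.inl hx)⟩, hW'C' i hx⟩) ?_
      rintro x ⟨hx, hxC'⟩
      exact hmemC' i x hxC' hx
    · rw [isOpen_iff_mem_nhds]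
      intro z hz
      obtain ⟨O, hO, hzO, h1⟩ := hkey z
      exact Filter.mem_of_superset (hO.mem_nhds hzO) (h1 i hz)
    · obtain ⟨O, hO, hzO, h1⟩ := hkey z
      exact ⟨O, hO, hzO, fun i hi => inter_subset_left.trans (h1 i hi)⟩
    · rintro a ⟨haU, ha⟩
      by_contra haW
      have hcl1 : a ∉ closure (A (W' i)) := fun hc => haW (hA3 (W' i) (hW'C' i) ⟨hc, ha⟩)
      have haF : a ∉ F i := fun hc => haW (subset_closure (hFW' i ⟨hc, ha⟩))
      have hclN : a ∉ closure (N i) := by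
        by_cases haC : a ∈ C
        · intro hc
          exact haW (closure_mono subset_union_left
            (h.hUcl i ⟨closure_mono (h.hNU i) hc, haC⟩))
        · refine (h.hN i).notMem_closure haC fun hc => haW (subset_closure (hNW' i ⟨hc, ha, haC⟩))
      have hclN' : a ∉ closure (N' i) := by
        intro hc
        have hsub : N' i ⊆ (F i ∪ N i) ∪ A (W' i) := by
          rintro x (hx | hx)
          · exact Or.inl hx.1
          · exact Or.inr ((hA2 (W' i)).2 hx.1)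
        have h1 := closure_mono hsub hc
        rw [closure_union, closure_union, (hF i).closure_eq] at h1
        rcases h1 with (h1 | h1) | h1
        · exact haF h1
        · exact hclN h1
        · exact hcl1 h1
      have hcl2 : a ∉ closure (⋃ y ∈ N' i, D.T C' y) :=
        hTn.pw a ha (N' i) (disjoint_left.2 fun x hx hx' => hN'C' i hx hx') hclN'
      have h1 : a ∈ closure (W' i ∪ A (W' i) ∪ ⋃ y ∈ N' i, D.T C' y) :=
        closure_mono inter_subset_right haU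
      rw [closure_union, closure_union] at h1
      rcases h1 with (h1 | h1) | h1
      · exact haW h1
      · exact hcl1 h1
      · exact hcl2 h1
  · refine Subset.antisymm ?_ (fun x hx => ⟨Or.inl hx, hWC i hx⟩)
    rintro x ⟨hx | hx, hxC⟩
    · exact hx
    · exact absurd hxC (hWGG i hx).2
  · rintro x ⟨hx, hxC⟩
    exact Or.inl ⟨Or.inr hx, hxC⟩

end Pool.Agent.H51.SU
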